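import Pool.Agent.LibQC51.Defs

/-!
QC51 A1 (MEDIUM).  Extension of independent subsets to bases.
PLAN.  Among the independent sets B' with B ⊆ B' ⊆ E take one of maximal cardinality (Finset.exists_max_image over E.powerset.filter).
By maximality every a ∈ E has an integer k ≠ 0 with k • a ∈ span ℤ B' (if a ∉ B' then insert a B' is dependent: use linearIndependent_insert / LinearIndepOn.insert, or pass to ℚ).
C.ne : ξ = ∑_{a ∈ E} c a • a over ℝ; substitute a = (1/k) ∑_{b ∈ B'} m_b b : so RS B' ξ (coefficients c' b = ∑_a c a * m_(a,b) / k_a). C.star gives span ℤ B' = ⊤.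
-/

set_option autoImplicit false

namespace LibQC51

open scoped Matrix

private theorem A1_ind {r : ℕ} (B : Finset (Fin r → ℤ)) :
    LinearIndependent ℤ (fun b : B => (b : Fin r → ℤ)) ↔
      ∀ g : (Fin r → ℤ) → ℤ, ∑ b ∈ B, g b • b = 0 → ∀ b ∈ B, g b = 0 :=
  linearIndepOn_finset_iff (R := ℤ) (v := (id : (Fin r → ℤ) → (Fin r → ℤ))) (s := B)

theorem basis_ext {r : ℕ} (C : Cfg r) (B : Finset (Fin r → ℤ)) (hB : B ⊆ C.E)
    (hi : LinearIndependent ℤ (fun b : B => (b : Fin r → ℤ))) :
    ∃ B' : Finset (Fin r → ℤ), B ⊆ B' ∧ B' ⊆ C.E ∧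
      LinearIndependent ℤ (fun b : B' => (b : Fin r → ℤ)) ∧
      Submodule.span ℤ (B' : Set (Fin r → ℤ)) = ⊤ := by
  classical
  obtain ⟨B', hB', hmax⟩ := Finset.exists_max_image
    (C.E.powerset.filter fun B' => B ⊆ B' ∧
      LinearIndependent ℤ (fun b : B' => (b : Fin r → ℤ))) Finset.card
    ⟨B, Finset.mem_filter.mpr ⟨Finset.mem_powerset.mpr hB, Finset.Subset.refl _, hi⟩⟩
  obtain ⟨hBE, hBB, hind⟩ := Finset.mem_filter.mp hB'
  rw [Finset.mem_powerset] at hBE
  refine ⟨B', hBB, hBE, hind, ?_⟩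
  apply C.star B' hBE
  have hind' := (A1_ind B').mp hind
  have key : ∀ a ∈ C.E, ∃ (k : ℤ) (m : (Fin r → ℤ) → ℤ), k ≠ 0 ∧ k • a = ∑ b ∈ B', m b • b := by
    intro a ha
    by_cases haB : a ∈ B'
    · refine ⟨1, fun b => if b = a then 1 else 0, one_ne_zero, ?_⟩
      rw [one_smul]
      simp [ite_smul, Finset.sum_ite_eq', haB]
    · have hnot : ¬ LinearIndependent ℤ (fun b : (insert a B' : Finset (Fin r → ℤ)) =>
          (b : Fin r → ℤ)) := by
        intro hli
        have h1 := hmax (insert a B') (Finset.mem_filter.mpr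
          ⟨Finset.mem_powerset.mpr (Finset.insert_subset ha hBE),
            hBB.trans (Finset.subset_insert a B'), hli⟩)
        rw [Finset.card_insert_of_notMem haB] at h1
        omega
      rw [A1_ind] at hnot
      push Not at hnot
      obtain ⟨g, hg, b, hb, hgb⟩ := hnot
      rw [Finset.sum_insert haB] at hg
      have hga : g a ≠ 0 := by
        intro h0
        rw [h0, zero_smul, zero_add] at hg
        have h1 := hind' g hg
        rcases Finset.mem_insert.mp hb with rfl | hb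
        · exact hgb h0
        · exact hgb (h1 b hb)
      refine ⟨g a, fun b => -g b, hga, ?_⟩
      simp only [neg_smul, Finset.sum_neg_distrib]
      exact eq_neg_of_add_eq_zero_left hg
  choose! k m hk hm using key
  obtain ⟨c, hc⟩ := C.ne
  refine ⟨fun b => ∑ a ∈ C.E, c a / (k a : ℝ) * (m a b : ℝ), fun j => ?_⟩
  rw [← hc j]
  have h1 : ∀ a ∈ C.E, c a * (a j : ℝ) =
      ∑ b ∈ B', c a / (k a : ℝ) * (m a b : ℝ) * (b j : ℝ) := by
    intro a ha
    have h2 : k a * a j = ∑ b ∈ B', m a b * b j := by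
      have := congrFun (hm a ha) j
      simpa [Finset.sum_apply] using this
    have h3 : (k a : ℝ) * (a j : ℝ) = ∑ b ∈ B', (m a b : ℝ) * (b j : ℝ) := by
      exact_mod_cast h2
    have hk0 : (k a : ℝ) ≠ 0 := by exact_mod_cast hk a ha
    calc c a * (a j : ℝ) = c a / (k a : ℝ) * ((k a : ℝ) * (a j : ℝ)) := by
          field_simp
      _ = ∑ b ∈ B', c a / (k a : ℝ) * (m a b : ℝ) * (b j : ℝ) := by
          rw [h3, Finset.mul_sum]
          exact Finset.sum_congr rfl fun b _ => by ring
  rw [Finset.sum_congr rfl h1, Finset.sum_comm]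
  refine Finset.sum_congr rfl fun b _ => ?_
  rw [Finset.sum_mul]

end LibQC51
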