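import Pool.Agent.LibQC51.A1

/-!
QC51 A2 (SHORT/MEDIUM).  Independent families of elements of E are saturated; E spans.
PLAN.  span_E: C.star E (subset refl) C.ne. ex_ne: if all a ∈ E are orthogonal to l then l = 0 since E spans (span_induction, pair with Pi.single j 1).
dvd_of: e is injective (LinearIndependent.injective), B := image of e is independent, basis_ext gives B' with span ⊤: a basis (Basis.mk); write b in it; compare the coefficients in m • b = ∑ c i • e i:
m * coeff = c i. par_of (two parallel elements of E are equal up to sign): {a} independent (a ≠ 0), extend to a basis B' ∋ a; k • b = l • a with k ≠ 0 gives b = t • a with t an integer (dvd_of with κ = Unit); by symmetry a = t' • b, so t t' = 1.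
-/

set_option autoImplicit false

namespace LibQC51

open scoped Matrix

theorem span_E {r : ℕ} (C : Cfg r) : Submodule.span ℤ (C.E : Set (Fin r → ℤ)) = ⊤ := by
  exact C.star C.E (Finset.Subset.refl _) C.ne

theorem ex_ne {r : ℕ} (C : Cfg r) (l : Fin r → ℤ) (hl : l ≠ 0) : ∃ a ∈ C.E, a ⬝ᵥ l ≠ 0 := by
  by_contra hc
  push Not at hc
  apply hl
  funext j
  have h1 : ∀ x ∈ Submodule.span ℤ (C.E : Set (Fin r → ℤ)), x ⬝ᵥ l = 0 := by
    intro x hx
    induction hx using Submodule.span_induction with
    | mem x hx => exact hc x hx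
    | zero => exact zero_dotProduct l
    | add x y _ _ hx hy => rw [add_dotProduct, hx, hy, add_zero]
    | smul c x _ hx => rw [smul_dotProduct, hx, smul_zero]
  have h2 := h1 (Pi.single j 1) (by rw [span_E]; trivial)
  rw [single_one_dotProduct] at h2
  exact h2

theorem dvd_of {r : ℕ} (C : Cfg r) {κ : Type} [Fintype κ] (e : κ → Fin r → ℤ)
    (he : ∀ i, e i ∈ C.E) (hi : LinearIndependent ℤ e) (b : Fin r → ℤ) (m : ℤ) (c : κ → ℤ)
    (h : m • b = ∑ i, c i • e i) : ∀ i, m ∣ c i := by
  classical
  have hinj : Function.Injective e := hi.injective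
  obtain ⟨B, hBd⟩ : ∃ B, B = Finset.univ.image e := ⟨_, rfl⟩
  have hBE : B ⊆ C.E := by
    intro x hx
    rw [hBd, Finset.mem_image] at hx
    obtain ⟨i, _, rfl⟩ := hx
    exact he i
  have hg0 : ∀ x ∈ B, ∃ i, e i = x := by
    intro x hx
    rw [hBd, Finset.mem_image] at hx
    obtain ⟨i, _, h⟩ := hx
    exact ⟨i, h⟩
  have hg : ∀ x : B, ∃ i, e i = x := fun x => hg0 x x.2
  choose g hg using hg
  have hBi : LinearIndependent ℤ (fun b : B => (b : Fin r → ℤ)) := by
    have h1 : (fun b : B => (b : Fin r → ℤ)) = e ∘ g := funext fun b => (hg b).symm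
    rw [h1]
    refine hi.comp g fun x y hxy => ?_
    apply Subtype.ext
    rw [← hg x, ← hg y, hxy]
  obtain ⟨B', hBB', _, hli, hsp⟩ := basis_ext C B hBE hBi
  have hmem : ∀ i, e i ∈ B' := by
    intro i
    refine hBB' ?_
    rw [hBd]
    exact Finset.mem_image_of_mem _ (Finset.mem_univ i)
  let β : Module.Basis B' ℤ (Fin r → ℤ) := Module.Basis.mk hli (by
    rw [Subtype.range_coe_subtype]
    exact hsp.ge)
  have hβ : ∀ i, β ⟨e i, hmem i⟩ = e i := by
    intro i
    exact Module.Basis.mk_apply _ _ _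
  intro i
  have h1 := congrArg (fun x => β.repr x ⟨e i, hmem i⟩) h
  simp only [map_smul, map_sum, Finsupp.smul_apply, Finsupp.coe_finsetSum, Finset.sum_apply, smul_eq_mul] at h1
  have h2 : ∀ j, β.repr (e j) ⟨e i, hmem i⟩ = if j = i then 1 else 0 := by
    intro j
    rw [← hβ j, β.repr_self, Finsupp.single_apply]
    by_cases hji : j = i
    · subst hji
      simp
    · rw [if_neg hji, if_neg]
      intro hh
      exact hji (hinj (congrArg Subtype.val hh))
  simp only [h2, mul_ite, mul_one, mul_zero, Finset.sum_ite_eq', Finset.mem_univ, if_true] at h1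
  exact ⟨_, h1.symm⟩

theorem par_of {r : ℕ} (C : Cfg r) (a b : Fin r → ℤ) (ha : a ∈ C.E) (hb : b ∈ C.E) (ha0 : a ≠ 0)
    (hb0 : b ≠ 0) (k l : ℤ) (hk : k ≠ 0) (h : k • b = l • a) : b = a ∨ b = -a := by
  have hlu : ∀ x : Fin r → ℤ, x ≠ 0 → LinearIndependent ℤ (fun _ : Unit => x) := fun x hx =>
    LinearIndependent.of_subsingleton () hx
  have hl : l ≠ 0 := by
    rintro rfl
    rw [zero_smul] at h
    exact (smul_ne_zero hk hb0) h
  have h1 : k ∣ l := dvd_of C (fun _ : Unit => a) (fun _ => ha) (hlu a ha0) b k (fun _ => l) (by simpa using h) ()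
  have h2 : l ∣ k := dvd_of C (fun _ : Unit => b) (fun _ => hb) (hlu b hb0) a l (fun _ => k) (by simpa using h.symm) ()
  obtain ⟨t, ht⟩ := h1
  obtain ⟨t', ht'⟩ := h2
  have h3 : t * t' = 1 := by
    have h4 : k * (t * t') = k * 1 := by
      rw [mul_one, ← mul_assoc, ← ht, ← ht']
    exact mul_left_cancel₀ hk h4
  have hb : b = t • a := by
    rw [ht, mul_smul] at h
    exact smul_right_injective _ hk h
  rcases Int.eq_one_or_neg_one_of_mul_eq_one h3 with h5 | h5
  · left
    rw [hb, h5, one_smul]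
  · right
    rw [hb, h5, neg_smul, one_smul]

end LibQC51
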