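import Pool.Agent.LibQC51.A2

/-!
QC51 A3 (SHORT/MEDIUM).  Weights have values -1, 0, 1 on the coroots.
PLAN.  It suffices to exclude m := a ⬝ᵥ c ≥ 2 for a ∈ E (for m ≤ -2 use -a ∈ E). a - m • α ∈ E by hr. Case a, a - m • α linearly independent (LinearIndependent ℤ ![a, a - m • α]): m • α = 1 • a + (-1) • (a - m • α), so m ∣ 1 by dvd_of (κ = Fin 2): contradiction.
Case dependent: there are p, q not both 0 with p • a = q • α (α ≠ 0 since α ⬝ᵥ c = 2, a ≠ 0 since a ⬝ᵥ c ≥ 2; so p, q ≠ 0); pairing with c: p m = 2 q. b := a - α ∈ E by hs (m ≥ 2), b ≠ 0 by h0. 2 • a = m • α (from p • (2 a) = 2 q α = p m α), so 2 • b = (m - 2) • α,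
m • (2 • b) = (m - 2) • (2 • a): b and a are parallel, par_of: b = a (so α = 0, contradiction) or b = -a: 2 a = α, pairing with c: 2 m = 2, m = 1: contradiction.
-/

set_option autoImplicit false

namespace LibQC51

open scoped Matrix

private theorem A3_key {r : ℕ} (C : Cfg r) (α c : Fin r → ℤ) (h2 : α ⬝ᵥ c = 2)
    (hr : ∀ a ∈ C.E, a - (a ⬝ᵥ c) • α ∈ C.E) (hs : ∀ a ∈ C.E, 2 ≤ a ⬝ᵥ c → a - α ∈ C.E)
    (h0 : (0 : Fin r → ℤ) ∉ C.E) (a : Fin r → ℤ) (ha : a ∈ C.E) (hm : 2 ≤ a ⬝ᵥ c) : False := by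
  obtain ⟨m, hmdef⟩ : ∃ m : ℤ, m = a ⬝ᵥ c := ⟨_, rfl⟩
  have hb : a - m • α ∈ C.E := by
    rw [hmdef]
    exact hr a ha
  rw [← hmdef] at hm
  have hm0 : m ≠ 0 := by omega
  by_cases hi : LinearIndependent ℤ ![a, a - m • α]
  · have h := dvd_of C ![a, a - m • α] (by
      intro i
      fin_cases i
      · exact ha
      · exact hb) hi α m ![1, -1] (by
      simp [Fin.sum_univ_two]) 0
    have h1 : m ∣ 1 := by simpa using h
    have h3 := Int.le_of_dvd (by norm_num) h1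
    omega
  · rw [LinearIndependent.pair_iff] at hi
    push Not at hi
    obtain ⟨s, t, hst, hne⟩ := hi
    have hpair : (s • a + t • (a - m • α)) ⬝ᵥ c = 0 := by rw [hst, zero_dotProduct]
    rw [add_dotProduct, smul_dotProduct, smul_dotProduct, sub_dotProduct, smul_dotProduct, h2,
      ← hmdef] at hpair
    simp only [smul_eq_mul] at hpair
    have hst1 : (s - t) * m = 0 := by linarith
    have hst2 : s = t := by
      rcases mul_eq_zero.1 hst1 with h | h
      · omega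
      · exact absurd h hm0
    have ht : t ≠ 0 := by
      intro ht
      rw [hst2, ht] at hne
      exact hne rfl rfl
    have h2a : ∀ j, 2 * a j = m * α j := by
      intro j
      have h3 := congrFun hst j
      simp only [Pi.add_apply, Pi.smul_apply, Pi.sub_apply, smul_eq_mul, Pi.zero_apply] at h3
      rw [hst2] at h3
      have h4 : t * (2 * a j - m * α j) = 0 := by linarith
      rcases mul_eq_zero.1 h4 with h | h
      · exact absurd h ht
      · omega
    have hb' : a - α ∈ C.E := hs a ha (by rw [← hmdef]; exact hm)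
    have ha0 : a ≠ 0 := fun h => h0 (h ▸ ha)
    have hb0 : a - α ≠ 0 := fun h => h0 (h ▸ hb')
    have h5 : m • (a - α) = (m - 2) • a := by
      funext j
      have h6 := h2a j
      simp only [Pi.smul_apply, Pi.sub_apply, smul_eq_mul]
      linarith
    rcases par_of C a (a - α) ha hb' ha0 hb0 m (m - 2) hm0 h5 with h | h
    · have h7 : (a - α) ⬝ᵥ c = a ⬝ᵥ c := by rw [h]
      rw [sub_dotProduct, h2] at h7
      omega
    · have h7 : (a - α) ⬝ᵥ c = (-a) ⬝ᵥ c := by rw [h]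
      rw [sub_dotProduct, h2, neg_dotProduct, ← hmdef] at h7
      omega

theorem bound {r : ℕ} (C : Cfg r) (α c : Fin r → ℤ) (h2 : α ⬝ᵥ c = 2)
    (hr : ∀ a ∈ C.E, a - (a ⬝ᵥ c) • α ∈ C.E) (hs : ∀ a ∈ C.E, 2 ≤ a ⬝ᵥ c → a - α ∈ C.E)
    (h0 : (0 : Fin r → ℤ) ∉ C.E) : ∀ a ∈ C.E, |a ⬝ᵥ c| ≤ 1 := by
  intro a ha
  have h1 : ¬ 2 ≤ a ⬝ᵥ c := fun h => A3_key C α c h2 hr hs h0 a ha h
  have h3 : ¬ 2 ≤ (-a) ⬝ᵥ c := fun h => A3_key C α c h2 hr hs h0 (-a) (C.neg a ha) h
  rw [neg_dotProduct] at h3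
  rw [abs_le]
  constructor <;> omega

end LibQC51
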