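import Pool.Agent.LibQC51.A2

/-!
QC51 B1 (MEDIUM).  Elementary cocharacters.
PLAN.  Z := {a ∈ E : a ⬝ᵥ l = 0}. Take B0 ⊆ Z independent, maximal (as in A1): every z ∈ Z has k ≠ 0 with k • z ∈ span B0. For a ∈ E with a ⬝ᵥ l ≠ 0 (exists: ex_ne) B0 ∪ {a} is independent (pair with l). basis_ext: B' ⊇ B0 ∪ {a}, a basis of ℤ^r.
If B' had an element b ∉ B0 ∪ {a}: let m be the dual cocharacter of b (the vector with m j = coordinate of Pi.single j 1 along b, so x ⬝ᵥ m = coordinate of x along b): m kills B0, hence Z, so by he p • m = q • l with p ≠ 0; pairing with a: 0 = q (a ⬝ᵥ l), q = 0, m = 0, but b ⬝ᵥ m = 1: contradiction.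
So B' = B0 ∪ {a}; every x ∈ ℤ^r is (combination of B0) + t • a, so x ⬝ᵥ l = t (a ⬝ᵥ l): a ⬝ᵥ l divides x ⬝ᵥ l for all x. This holds for all a ∈ E with a ⬝ᵥ l ≠ 0, so all these numbers are equal up to sign: c := |a ⬝ᵥ l| > 0, c divides all l j (x = Pi.single j 1), v := l / c.
pr ξ l ≠ 0: C.ne and the expansion of E in B' give ξ = ∑_{b ∈ B'} c' b b; pr ξ l = c' a * (a ⬝ᵥ l) (the other b are orthogonal to l); if it is 0 then c' a = 0, so RS B0 ξ (drop the term), C.star: span B0 = ⊤, but l kills B0: l = 0, contradiction.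
-/

set_option autoImplicit false

namespace LibQC51

open scoped Matrix

private theorem b1_ind {r : ℕ} {B : Finset (Fin r → ℤ)} :
    LinearIndependent ℤ (fun b : B => (b : Fin r → ℤ)) ↔
      ∀ G : (Fin r → ℤ) → ℤ, ∑ b ∈ B, G b • b = 0 → ∀ b ∈ B, G b = 0 :=
  linearIndepOn_finset_iff (R := ℤ) (v := (id : (Fin r → ℤ) → (Fin r → ℤ))) (s := B)

private theorem b1_span {r : ℕ} {B : Finset (Fin r → ℤ)}
    (h : Submodule.span ℤ (B : Set (Fin r → ℤ)) = ⊤) (x : Fin r → ℤ) :
    ∃ G : (Fin r → ℤ) → ℤ, ∑ b ∈ B, G b • b = x := by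
  have hx : x ∈ Submodule.span ℤ (B : Set (Fin r → ℤ)) := by
    rw [h]
    trivial
  obtain ⟨G, -, hG⟩ := Submodule.mem_span_finset.1 hx
  exact ⟨G, hG⟩

private theorem b1_kill {r : ℕ} {B : Set (Fin r → ℤ)} (m : Fin r → ℤ) (hm : ∀ b ∈ B, b ⬝ᵥ m = 0)
    (x : Fin r → ℤ) (hx : x ∈ Submodule.span ℤ B) : x ⬝ᵥ m = 0 := by
  induction hx using Submodule.span_induction with
  | mem x h => exact hm x h
  | zero => exact zero_dotProduct _
  | add x y _ _ h1 h2 => rw [add_dotProduct, h1, h2, add_zero]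
  | smul k x _ h => rw [smul_dotProduct, h, smul_zero]

private theorem b1_dot {r : ℕ} (B : Finset (Fin r → ℤ)) (G : (Fin r → ℤ) → ℤ) (m : Fin r → ℤ) :
    (∑ b ∈ B, G b • b) ⬝ᵥ m = ∑ b ∈ B, G b * (b ⬝ᵥ m) := by
  rw [sum_dotProduct]
  refine Finset.sum_congr rfl fun b _ => ?_
  rw [smul_dotProduct, smul_eq_mul]

/-- a maximal independent subset -/
private theorem b1_max {r : ℕ} (Z : Finset (Fin r → ℤ)) :
    ∃ B : Finset (Fin r → ℤ), B ⊆ Z ∧ LinearIndependent ℤ (fun b : B => (b : Fin r → ℤ)) ∧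
      ∀ z ∈ Z, ∃ k : ℤ, k ≠ 0 ∧ k • z ∈ Submodule.span ℤ (B : Set (Fin r → ℤ)) := by
  classical
  obtain ⟨s, hs, hmax⟩ := exists_maximal_linearIndepOn ℤ (fun z : Z => (z : Fin r → ℤ))
  have hs' : ∀ f : Z → ℤ, ∑ z ∈ s.toFinset, f z • (z : Fin r → ℤ) = 0 → ∀ z ∈ s.toFinset, f z = 0 := by
    apply linearIndepOn_finset_iff.1
    rwa [Set.coe_toFinset]
  refine ⟨s.toFinset.image (fun z : Z => (z : Fin r → ℤ)), ?_, ?_, ?_⟩
  · intro b hb
    obtain ⟨z, -, rfl⟩ := Finset.mem_image.1 hb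
    exact z.2
  · rw [b1_ind]
    intro G hG b hb
    obtain ⟨z, hz, rfl⟩ := Finset.mem_image.1 hb
    rw [Finset.sum_image (fun x _ y _ h => Subtype.ext h)] at hG
    exact hs' (fun z => G z) hG z hz
  · intro z hz
    rw [Finset.coe_image, Set.coe_toFinset]
    by_cases h : (⟨z, hz⟩ : Z) ∈ s
    · refine ⟨1, one_ne_zero, ?_⟩
      rw [one_smul]
      exact Submodule.subset_span ⟨⟨z, hz⟩, h, rfl⟩
    · obtain ⟨k, hk, h1⟩ := hmax ⟨z, hz⟩ h
      exact ⟨k, hk, h1⟩

theorem elem {r : ℕ} (C : Cfg r) (l : Fin r → ℤ) (hl : l ≠ 0)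
    (he : ∀ m : Fin r → ℤ, (∀ a ∈ C.E, a ⬝ᵥ l = 0 → a ⬝ᵥ m = 0) → ∃ p q : ℤ, p ≠ 0 ∧ p • m = q • l) :
    pr C.ξ l ≠ 0 ∧ ∃ (c : ℤ) (v : Fin r → ℤ), 0 < c ∧ l = c • v ∧ ∀ a ∈ C.E, |a ⬝ᵥ v| ≤ 1 := by
  classical
  obtain ⟨B0, hB0, hi0, hm0⟩ := b1_max (C.E.filter fun a => a ⬝ᵥ l = 0)
  have hB0E : B0 ⊆ C.E := fun b hb => (Finset.mem_filter.1 (hB0 hb)).1
  have hB0l : ∀ b ∈ B0, b ⬝ᵥ l = 0 := fun b hb => (Finset.mem_filter.1 (hB0 hb)).2
  -- the basis
  have key : ∀ a ∈ C.E, a ⬝ᵥ l ≠ 0 →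
      Submodule.span ℤ ((insert a B0 : Finset (Fin r → ℤ)) : Set (Fin r → ℤ)) = ⊤ := by
    intro a ha hal
    have haB : a ∉ B0 := fun h => hal (hB0l a h)
    have hins : insert a B0 ⊆ C.E := Finset.insert_subset ha hB0E
    have hind : LinearIndependent ℤ (fun b : (insert a B0 : Finset (Fin r → ℤ)) => (b : Fin r → ℤ)) := by
      rw [b1_ind]
      intro G hG
      have h1 : G a * (a ⬝ᵥ l) = 0 := by
        have h2 := congrArg (fun x : Fin r → ℤ => x ⬝ᵥ l) hG
        rw [b1_dot, Finset.sum_insert haB, zero_dotProduct,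
          Finset.sum_eq_zero (fun b hb => by rw [hB0l b hb, mul_zero]), add_zero] at h2
        exact h2
      have h3 : G a = 0 := (mul_eq_zero.1 h1).resolve_right hal
      rw [Finset.sum_insert haB, h3, zero_smul, zero_add] at hG
      intro b hb
      rcases Finset.mem_insert.1 hb with rfl | hb
      · exact h3
      · exact (b1_ind.1 hi0) G hG b hb
    obtain ⟨B', hB1, hB2, hi', hsp⟩ := basis_ext C (insert a B0) hins hind
    have hEq : B' ⊆ insert a B0 := by
      intro b hb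
      by_contra hbn
      choose G hG using fun x => b1_span hsp x
      have huniq : ∀ x, ∀ F : (Fin r → ℤ) → ℤ, ∑ b ∈ B', F b • b = x → ∀ b ∈ B', G x b = F b := by
        intro x F hF b hb
        have h0 : ∑ b ∈ B', (G x b - F b) • b = 0 := by
          simp only [sub_smul]
          rw [Finset.sum_sub_distrib, hG x, hF, sub_self]
        have := (b1_ind.1 hi') (fun b => G x b - F b) h0 b hb
        exact sub_eq_zero.1 this
      let m : Fin r → ℤ := fun j => G (Pi.single j 1) b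
      have hm : ∀ x, x ⬝ᵥ m = G x b := by
        intro x
        symm
        refine huniq x (fun b' => ∑ j, x j * G (Pi.single j 1) b') ?_ b hb
        show ∑ b' ∈ B', (∑ j, x j * G (Pi.single j 1) b') • b' = x
        simp only [Finset.sum_smul]
        rw [Finset.sum_comm]
        have : ∀ j, ∑ b' ∈ B', (x j * G (Pi.single j 1) b') • b' = x j • (Pi.single j 1 : Fin r → ℤ) := by
          intro j
          rw [← hG (Pi.single j 1), Finset.smul_sum]
          refine Finset.sum_congr rfl fun b' _ => ?_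
          rw [hG (Pi.single j 1), mul_smul]
        rw [Finset.sum_congr rfl fun j _ => this j]
        ext j
        rw [Finset.sum_apply]
        simp [Pi.single_apply]
      have hself : ∀ b' ∈ B', b' ⬝ᵥ m = if b' = b then 1 else 0 := by
        intro b' hb'
        rw [hm, huniq b' (fun t => if t = b' then 1 else 0) _ b hb]
        · simp only [eq_comm]
        · simp only [ite_smul, one_smul, zero_smul]
          rw [Finset.sum_ite_eq' B' b' (fun x => x), if_pos hb']
      have hmB : ∀ b' ∈ (B0 : Set (Fin r → ℤ)), b' ⬝ᵥ m = 0 := by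
        intro b' hb'
        rw [hself b' (hB1 (Finset.mem_insert_of_mem hb')), if_neg]
        rintro rfl
        exact hbn (Finset.mem_insert_of_mem hb')
      have hma : a ⬝ᵥ m = 0 := by
        rw [hself a (hB1 (Finset.mem_insert_self _ _)), if_neg]
        rintro rfl
        exact hbn (Finset.mem_insert_self _ _)
      obtain ⟨p, q, hp, hpq⟩ := he m (by
        intro z hz hzl
        obtain ⟨k, hk, hks⟩ := hm0 z (Finset.mem_filter.2 ⟨hz, hzl⟩)
        have h1 := b1_kill m hmB _ hks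
        rw [smul_dotProduct, smul_eq_mul] at h1
        exact (mul_eq_zero.1 h1).resolve_left hk)
      have h1 : q * (a ⬝ᵥ l) = 0 := by
        have h2 := congrArg (fun x : Fin r → ℤ => a ⬝ᵥ x) hpq
        simp only [dotProduct_smul, smul_eq_mul] at h2
        rw [← h2, hma, mul_zero]
      have hq : q = 0 := (mul_eq_zero.1 h1).resolve_right hal
      rw [hq, zero_smul] at hpq
      have hm1 : m = 0 := (smul_eq_zero.1 hpq).resolve_left hp
      have h3 := hself b hb
      rw [if_pos rfl, hm1, dotProduct_zero] at h3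
      exact zero_ne_one h3
    have : B' = insert a B0 := Finset.Subset.antisymm hEq hB1
    rw [← this]
    exact hsp
  have hdvd : ∀ a ∈ C.E, a ⬝ᵥ l ≠ 0 → ∀ x : Fin r → ℤ, a ⬝ᵥ l ∣ x ⬝ᵥ l := by
    intro a ha hal x
    have haB : a ∉ B0 := fun h => hal (hB0l a h)
    obtain ⟨G, hG⟩ := b1_span (key a ha hal) x
    rw [← hG, b1_dot, Finset.sum_insert haB,
      Finset.sum_eq_zero (fun b hb => by rw [hB0l b hb, mul_zero]), add_zero]
    exact dvd_mul_left _ _
  obtain ⟨a0, ha0, hal0⟩ := ex_ne C l hl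
  have haB0 : a0 ∉ B0 := fun h => hal0 (hB0l a0 h)
  refine ⟨?_, ?_⟩
  · intro hpr
    obtain ⟨c, hc⟩ := C.ne
    choose G hG using fun x => b1_span (key a0 ha0 hal0) x
    let c' : (Fin r → ℤ) → ℝ := fun b => ∑ a ∈ C.E, c a * (G a b : ℝ)
    have hc' : ∀ j, ∑ b ∈ insert a0 B0, c' b * (b j : ℝ) = C.ξ j := by
      intro j
      rw [← hc j]
      simp only [c', Finset.sum_mul]
      rw [Finset.sum_comm]
      refine Finset.sum_congr rfl fun a _ => ?_
      have h1 : (a j : ℝ) = ∑ b ∈ insert a0 B0, (G a b : ℝ) * (b j : ℝ) := by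
        have h2 := congrFun (hG a) j
        rw [Finset.sum_apply] at h2
        simp only [Pi.smul_apply, smul_eq_mul] at h2
        rw [← h2]
        push_cast
        rfl
      rw [h1, Finset.mul_sum]
      refine Finset.sum_congr rfl fun b _ => ?_
      rw [mul_assoc]
    have hdot : ∀ b : Fin r → ℤ, ∑ j, (b j : ℝ) * (l j : ℝ) = ((b ⬝ᵥ l : ℤ) : ℝ) := by
      intro b
      simp [dotProduct]
    have h3 : c' a0 * ((a0 ⬝ᵥ l : ℤ) : ℝ) = 0 := by
      have h4 : pr C.ξ l = ∑ b ∈ insert a0 B0, c' b * ((b ⬝ᵥ l : ℤ) : ℝ) := by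
        unfold pr
        simp only [← hc', Finset.sum_mul]
        rw [Finset.sum_comm]
        refine Finset.sum_congr rfl fun b _ => ?_
        rw [← hdot, Finset.mul_sum]
        refine Finset.sum_congr rfl fun j _ => ?_
        rw [mul_assoc]
      rw [hpr, Finset.sum_insert haB0,
        Finset.sum_eq_zero (fun b hb => by rw [hB0l b hb, Int.cast_zero, mul_zero]), add_zero] at h4
      exact h4.symm
    have h5 : c' a0 = 0 := by
      rcases mul_eq_zero.1 h3 with h | h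
      · exact h
      · exact absurd (by exact_mod_cast h) hal0
    have h6 : RS B0 C.ξ := by
      refine ⟨c', fun j => ?_⟩
      have := hc' j
      rw [Finset.sum_insert haB0, h5, zero_mul, zero_add] at this
      exact this
    have h7 := C.star B0 hB0E h6
    apply hal0
    apply b1_kill l (fun b hb => hB0l b hb) a0
    rw [h7]
    trivial
  · have hc0 : 0 < |a0 ⬝ᵥ l| := abs_pos.2 hal0
    have hj : ∀ j, |a0 ⬝ᵥ l| ∣ l j := by
      intro j
      have h1 := hdvd a0 ha0 hal0 (Pi.single j 1)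
      rw [single_one_dotProduct] at h1
      exact (abs_dvd _ _).2 h1
    choose v hv using hj
    have hlv : l = |a0 ⬝ᵥ l| • v := by
      ext j
      rw [Pi.smul_apply, smul_eq_mul]
      exact hv j
    refine ⟨|a0 ⬝ᵥ l|, v, hc0, hlv, ?_⟩
    intro a ha
    have h1 : a ⬝ᵥ l = |a0 ⬝ᵥ l| * (a ⬝ᵥ v) := by
      conv_lhs => rw [hlv]
      rw [dotProduct_smul, smul_eq_mul]
    by_cases hal : a ⬝ᵥ l = 0
    · rw [hal] at h1
      have : a ⬝ᵥ v = 0 := (mul_eq_zero.1 h1.symm).resolve_left hc0.ne'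
      rw [this, abs_zero]
      exact zero_le_one
    · have h2 := hdvd a ha hal a0
      have h3 : |a ⬝ᵥ l| ≤ |a0 ⬝ᵥ l| := by
        have := Int.le_of_dvd hc0 ((abs_dvd_abs _ _).2 h2)
        exact this
      rw [h1, abs_mul, abs_abs] at h3
      nlinarith

end LibQC51
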