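import Pool.Agent.LibQC51.B1

/-!
QC51 B2 (MEDIUM).  Conformal cocharacters with nonzero value of ξ.
PLAN.  Claim by strong induction on N = card {a ∈ E : a ⬝ᵥ l ≠ 0}: for every l ≠ 0 with sign conformal values, i.e. 0 ≤ (a ⬝ᵥ l) * (a ⬝ᵥ d) and (a ⬝ᵥ d = 0 → a ⬝ᵥ l = 0) for all a ∈ E, there is m with Conf E d m and pr ξ m ≠ 0.
If l is elementary (the hypothesis he of B1.elem holds): l = c • v, |a ⬝ᵥ v| ≤ 1, pr ξ v ≠ 0 (pr ξ l = c * pr ξ v), and v is conformal: a ⬝ᵥ v ∈ {0, 1, -1} has the sign of a ⬝ᵥ d ∈ {0, 1, -1}; take m = v.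
Otherwise there is m' with (a ⬝ᵥ l = 0 → a ⬝ᵥ m' = 0) for a ∈ E and m' not parallel to l in the sense ¬ ∃ p q, p ≠ 0 ∧ p • m' = q • l; in particular m' ≠ 0. Replace m' by -m' if necessary so that some a ∈ E has (a ⬝ᵥ m') * (a ⬝ᵥ l) > 0 (E spans: ex_ne). Let a0 maximise the ratio (a ⬝ᵥ m') / (a ⬝ᵥ l) (in ℚ) over a ∈ E with a ⬝ᵥ l ≠ 0; the ratio is > 0.
l' := |a0 ⬝ᵥ m'| • l - (sign) |a0 ⬝ᵥ l| • m' with a0 ⬝ᵥ l' = 0, i.e. l' = (a0 ⬝ᵥ m' * s) • l - (a0 ⬝ᵥ l * s) • m', s = sign (a0 ⬝ᵥ m') = sign (a0 ⬝ᵥ l): a ⬝ᵥ l' = |..| (a ⬝ᵥ l) (1 - ratio a / ratio a0) up to a positive factor, so l' is sign conformal with l (hence with d), its support is smaller (a0), and l' ≠ 0 because m' is not parallel to l.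
Apply the claim to l = d.
-/

set_option autoImplicit false

namespace LibQC51

open scoped Matrix

private theorem QCB2_pr_smul {r : ℕ} (ξ : Fin r → ℝ) (c : ℤ) (v : Fin r → ℤ) :
    pr ξ (c • v) = c * pr ξ v := by
  unfold pr
  rw [Finset.mul_sum]
  refine Finset.sum_congr rfl fun j _ => ?_
  rw [Pi.smul_apply, smul_eq_mul, Int.cast_mul]
  ring

private theorem QCB2_sign {x y : ℤ} (hx : |x| ≤ 1) (hy : |y| ≤ 1) (hx0 : x ≠ 0) (hy0 : y ≠ 0) (h : 0 ≤ x * y) :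
    x = y := by
  have h1 := abs_le.1 hx
  have h2 := abs_le.1 hy
  have h3 : x = 1 ∨ x = -1 := by omega
  have h4 : y = 1 ∨ y = -1 := by omega
  rcases h3 with rfl | rfl <;> rcases h4 with rfl | rfl
  · rfl
  · norm_num at h
  · norm_num at h
  · rfl

/-- the reduction step -/
private theorem QCB2_step {r : ℕ} (C : Cfg r) (l m' : Fin r → ℤ)
    (hm : ∀ a ∈ C.E, a ⬝ᵥ l = 0 → a ⬝ᵥ m' = 0)
    (hp : ∀ p q : ℤ, p ≠ 0 → p • m' ≠ q • l)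
    (h1 : ∃ a ∈ C.E, 0 < (a ⬝ᵥ m') * (a ⬝ᵥ l)) :
    ∃ l' : Fin r → ℤ, l' ≠ 0 ∧ (∀ a ∈ C.E, 0 ≤ (a ⬝ᵥ l') * (a ⬝ᵥ l) ∧ (a ⬝ᵥ l = 0 → a ⬝ᵥ l' = 0)) ∧
      ∃ a ∈ C.E, a ⬝ᵥ l ≠ 0 ∧ a ⬝ᵥ l' = 0 := by
  classical
  obtain ⟨a1, ha1, ha1p⟩ := h1
  have hne : (C.E.filter fun a => a ⬝ᵥ l ≠ 0).Nonempty := by
    refine ⟨a1, Finset.mem_filter.2 ⟨ha1, fun h => ?_⟩⟩
    rw [h, mul_zero] at ha1p
    exact lt_irrefl _ ha1p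
  obtain ⟨a0, ha0, hmax⟩ := Finset.exists_max_image (C.E.filter fun a => a ⬝ᵥ l ≠ 0)
    (fun a => ((a ⬝ᵥ m' : ℤ) : ℚ) / ((a ⬝ᵥ l : ℤ) : ℚ)) hne
  obtain ⟨ha0E, ha0l⟩ := Finset.mem_filter.1 ha0
  obtain ⟨x0, hx0⟩ : ∃ x0 : ℤ, x0 = a0 ⬝ᵥ l := ⟨_, rfl⟩
  obtain ⟨y0, hy0⟩ : ∃ y0 : ℤ, y0 = a0 ⬝ᵥ m' := ⟨_, rfl⟩
  have hx00 : x0 ≠ 0 := by rw [hx0]; exact ha0l
  have key : ∀ a ∈ C.E, a ⬝ᵥ l ≠ 0 → (a ⬝ᵥ m') * (a ⬝ᵥ l) * (x0 * x0) ≤ (y0 * x0) * ((a ⬝ᵥ l) * (a ⬝ᵥ l)) := by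
    intro a ha hal
    have h := hmax a (Finset.mem_filter.2 ⟨ha, hal⟩)
    rw [← hx0, ← hy0] at h
    have hq1 : ((a ⬝ᵥ l : ℤ) : ℚ) ≠ 0 := Int.cast_ne_zero.2 hal
    have hq2 : ((x0 : ℤ) : ℚ) ≠ 0 := Int.cast_ne_zero.2 hx00
    have h5 : ((a ⬝ᵥ m' : ℤ) : ℚ) * ((a ⬝ᵥ l : ℤ) : ℚ) * ((x0 : ℚ) * x0) ≤
        ((y0 : ℚ) * x0) * (((a ⬝ᵥ l : ℤ) : ℚ) * ((a ⬝ᵥ l : ℤ) : ℚ)) := by
      have e1 : ((a ⬝ᵥ m' : ℤ) : ℚ) * ((a ⬝ᵥ l : ℤ) : ℚ) * ((x0 : ℚ) * x0) =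
          ((a ⬝ᵥ m' : ℤ) : ℚ) / ((a ⬝ᵥ l : ℤ) : ℚ) *
            ((((a ⬝ᵥ l : ℤ) : ℚ) * ((a ⬝ᵥ l : ℤ) : ℚ)) * ((x0 : ℚ) * x0)) := by
        field_simp
      have e2 : ((y0 : ℚ) * x0) * (((a ⬝ᵥ l : ℤ) : ℚ) * ((a ⬝ᵥ l : ℤ) : ℚ)) =
          (y0 : ℚ) / (x0 : ℚ) *
            ((((a ⬝ᵥ l : ℤ) : ℚ) * ((a ⬝ᵥ l : ℤ) : ℚ)) * ((x0 : ℚ) * x0)) := by
        field_simp
      rw [e1, e2]
      exact mul_le_mul_of_nonneg_right h (mul_nonneg (mul_self_nonneg _) (mul_self_nonneg _))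
    exact_mod_cast h5
  have hx2 : 0 < x0 * x0 := mul_self_pos.2 hx00
  have hdot : ∀ a : Fin r → ℤ, a ⬝ᵥ ((y0 * x0) • l - (x0 * x0) • m') =
      (y0 * x0) * (a ⬝ᵥ l) - (x0 * x0) * (a ⬝ᵥ m') := by
    intro a
    rw [dotProduct_sub, dotProduct_smul, dotProduct_smul, smul_eq_mul, smul_eq_mul]
  refine ⟨(y0 * x0) • l - (x0 * x0) • m', ?_, ?_, a0, ha0E, ha0l, ?_⟩
  · intro h0
    exact hp (x0 * x0) (y0 * x0) hx2.ne' (sub_eq_zero.1 h0).symm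
  · intro a ha
    rw [hdot]
    constructor
    · by_cases hal : a ⬝ᵥ l = 0
      · rw [hal, mul_zero]
      · have := key a ha hal
        nlinarith
    · intro hal
      rw [hal, hm a ha hal]
      ring
  · rw [hdot, ← hx0, ← hy0]
    ring

private theorem QCB2_claim {r : ℕ} (C : Cfg r) (d : Fin r → ℤ) (hs : ∀ a ∈ C.E, |a ⬝ᵥ d| ≤ 1) (N : ℕ) :
    ∀ l : Fin r → ℤ, l ≠ 0 → (C.E.filter fun a => a ⬝ᵥ l ≠ 0).card ≤ N →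
      (∀ a ∈ C.E, 0 ≤ (a ⬝ᵥ l) * (a ⬝ᵥ d) ∧ (a ⬝ᵥ d = 0 → a ⬝ᵥ l = 0)) →
      ∃ m, Conf C.E d m ∧ pr C.ξ m ≠ 0 := by
  classical
  induction N with
  | zero =>
    intro l hl hN _
    obtain ⟨a, ha, hal⟩ := ex_ne C l hl
    have h : a ∈ C.E.filter fun a => a ⬝ᵥ l ≠ 0 := Finset.mem_filter.2 ⟨ha, hal⟩
    have h2 := Finset.card_pos.2 ⟨a, h⟩
    omega
  | succ N ih =>
    intro l hl hN hsc
    by_cases he : ∀ m : Fin r → ℤ, (∀ a ∈ C.E, a ⬝ᵥ l = 0 → a ⬝ᵥ m = 0) → ∃ p q : ℤ, p ≠ 0 ∧ p • m = q • l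
    · obtain ⟨hpr, c, v, hc, hlv, hv⟩ := elem C l hl he
      refine ⟨v, ?_, ?_⟩
      · intro a ha
        by_cases hav : a ⬝ᵥ v = 0
        · exact Or.inl hav
        · right
          obtain ⟨h1, h2⟩ := hsc a ha
          have h3 : a ⬝ᵥ l = c * (a ⬝ᵥ v) := by rw [hlv, dotProduct_smul, smul_eq_mul]
          have h4 : a ⬝ᵥ d ≠ 0 := by
            intro h0
            have h5 := h2 h0
            rw [h3] at h5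
            rcases mul_eq_zero.1 h5 with h6 | h6
            · exact hc.ne' h6
            · exact hav h6
          refine QCB2_sign (hv a ha) (hs a ha) hav h4 ?_
          rw [h3, mul_assoc] at h1
          exact nonneg_of_mul_nonneg_right h1 hc
      · intro h0
        apply hpr
        rw [hlv, QCB2_pr_smul, h0, mul_zero]
    · push Not at he
      obtain ⟨m', hm, hp⟩ := he
      have hm0 : m' ≠ 0 := by
        rintro rfl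
        exact hp 1 0 one_ne_zero (by rw [smul_zero, zero_smul])
      obtain ⟨a, ha, ham⟩ := ex_ne C m' hm0
      have hal : a ⬝ᵥ l ≠ 0 := fun h => ham (hm a ha h)
      have hstep : ∃ l' : Fin r → ℤ, l' ≠ 0 ∧
          (∀ a ∈ C.E, 0 ≤ (a ⬝ᵥ l') * (a ⬝ᵥ l) ∧ (a ⬝ᵥ l = 0 → a ⬝ᵥ l' = 0)) ∧
          ∃ a ∈ C.E, a ⬝ᵥ l ≠ 0 ∧ a ⬝ᵥ l' = 0 := by
        rcases lt_or_gt_of_ne (mul_ne_zero ham hal) with h | h
        · refine QCB2_step C l (-m') ?_ ?_ ⟨a, ha, ?_⟩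
          · intro b hb hbl
            rw [dotProduct_neg, hm b hb hbl, neg_zero]
          · intro p q hp0 h2
            apply hp (-p) q (neg_ne_zero.2 hp0)
            rw [neg_smul, ← smul_neg]
            exact h2
          · rw [dotProduct_neg]
            linarith
        · exact QCB2_step C l m' hm hp ⟨a, ha, h⟩
      obtain ⟨l', hl', hsl, b, hb, hbl, hbl'⟩ := hstep
      refine ih l' hl' ?_ ?_
      · have hss : (C.E.filter fun a => a ⬝ᵥ l' ≠ 0) ⊂ C.E.filter fun a => a ⬝ᵥ l ≠ 0 := by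
          rw [Finset.ssubset_iff_of_subset]
          · refine ⟨b, Finset.mem_filter.2 ⟨hb, hbl⟩, fun h => ?_⟩
            exact (Finset.mem_filter.1 h).2 hbl'
          · intro x hx
            obtain ⟨hxE, hx2⟩ := Finset.mem_filter.1 hx
            exact Finset.mem_filter.2 ⟨hxE, fun h => hx2 ((hsl x hxE).2 h)⟩
        have := Finset.card_lt_card hss
        omega
      · intro x hx
        obtain ⟨h1, h2⟩ := hsl x hx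
        obtain ⟨h3, h4⟩ := hsc x hx
        refine ⟨?_, fun h => h2 (h4 h)⟩
        by_cases hxl : x ⬝ᵥ l = 0
        · rw [h2 hxl, zero_mul]
        · have h5 : 0 < (x ⬝ᵥ l) * (x ⬝ᵥ l) := mul_self_pos.2 hxl
          have h6 : 0 ≤ ((x ⬝ᵥ l') * (x ⬝ᵥ l)) * ((x ⬝ᵥ l) * (x ⬝ᵥ d)) := mul_nonneg h1 h3
          have h7 : ((x ⬝ᵥ l') * (x ⬝ᵥ l)) * ((x ⬝ᵥ l) * (x ⬝ᵥ d)) =
              ((x ⬝ᵥ l) * (x ⬝ᵥ l)) * ((x ⬝ᵥ l') * (x ⬝ᵥ d)) := by ring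
          rw [h7] at h6
          exact nonneg_of_mul_nonneg_right h6 h5

theorem conf_ex {r : ℕ} (C : Cfg r) (d : Fin r → ℤ) (hd : d ≠ 0) (hs : ∀ a ∈ C.E, |a ⬝ᵥ d| ≤ 1) :
    ∃ m, Conf C.E d m ∧ pr C.ξ m ≠ 0 := by
  classical
  exact QCB2_claim C d hs _ d hd le_rfl fun a _ => ⟨mul_self_nonneg _, fun h => h⟩

end LibQC51
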