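import Pool.Agent.LibQC51.B2

/-!
QC51 B3 (MEDIUM).  The maximal conformal cocharacter is unique.
PLAN.  The set {m : Conf E d m} is finite (m ↦ (fun a : E => a ⬝ᵥ m) is injective since E spans (ex_ne applied to a difference), with values in {0, a ⬝ᵥ d}) and contains 0: take a maximum of pr ξ (Set.Finite.exists_maximalFor or Set.exists_max_image).
Uniqueness: let m, m' be conformal with pr ξ m = pr ξ m' maximal, m ≠ m'. δ := m - m' ≠ 0 has values in {0, 1, -1} on E (values of m, m' lie in {0, a ⬝ᵥ d}). conf_ex for δ: μ with Conf E δ μ, pr ξ μ ≠ 0. Then m - μ and m' + μ are conformal to d (if a ⬝ᵥ μ ≠ 0 then a ⬝ᵥ μ = a ⬝ᵥ m - a ⬝ᵥ m', so a ⬝ᵥ (m - μ) = a ⬝ᵥ m', etc.).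
By maximality pr ξ (m - μ) ≤ pr ξ m: pr ξ μ ≥ 0; pr ξ (m' + μ) ≤ pr ξ m' : pr ξ μ ≤ 0. Contradiction. (pr is additive: Finset.sum_add_distrib.)
-/

set_option autoImplicit false

namespace LibQC51

open scoped Matrix

private theorem B3_add {r : ℕ} (ξ : Fin r → ℝ) (m n : Fin r → ℤ) :
    pr ξ (m + n) = pr ξ m + pr ξ n := by
  unfold pr
  rw [← Finset.sum_add_distrib]
  refine Finset.sum_congr rfl fun j _ => ?_
  rw [Pi.add_apply]
  push_cast
  ring

private theorem B3_sub {r : ℕ} (ξ : Fin r → ℝ) (m n : Fin r → ℤ) :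
    pr ξ (m - n) = pr ξ m - pr ξ n := by
  unfold pr
  rw [← Finset.sum_sub_distrib]
  refine Finset.sum_congr rfl fun j _ => ?_
  rw [Pi.sub_apply]
  push_cast
  ring

private theorem B3_inj {r : ℕ} (C : Cfg r) (m n : Fin r → ℤ)
    (h : ∀ a ∈ C.E, a ⬝ᵥ m = a ⬝ᵥ n) : m = n := by
  by_contra hmn
  obtain ⟨a, ha, h0⟩ := ex_ne C (m - n) (sub_ne_zero.mpr hmn)
  exact h0 (by rw [dotProduct_sub, h a ha, sub_self])

private theorem B3_fin {r : ℕ} (C : Cfg r) (d : Fin r → ℤ) : {m | Conf C.E d m}.Finite := by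
  have ht : (Set.pi Set.univ (fun a : C.E => ({0, (a : Fin r → ℤ) ⬝ᵥ d} : Set ℤ))).Finite :=
    Set.Finite.pi fun a => Set.toFinite _
  refine Set.Finite.of_injOn (f := fun m (a : C.E) => (a : Fin r → ℤ) ⬝ᵥ m) ?_ ?_ ht
  · intro m hm a _
    rcases hm a a.2 with h | h
    · left; exact h
    · right; exact h
  · intro m _ n _ h
    exact B3_inj C m n fun a ha => congrFun h ⟨a, ha⟩

theorem max_ex {r : ℕ} (C : Cfg r) (d : Fin r → ℤ) (hs : ∀ a ∈ C.E, |a ⬝ᵥ d| ≤ 1) :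
    ∃ m, Conf C.E d m ∧ (∀ m', Conf C.E d m' → pr C.ξ m' ≤ pr C.ξ m) ∧
      ∀ m', Conf C.E d m' → pr C.ξ m' = pr C.ξ m → m' = m := by
  obtain ⟨m, hm, hmax⟩ := Set.exists_max_image {m | Conf C.E d m} (pr C.ξ) (B3_fin C d)
    ⟨0, fun a _ => Or.inl (dotProduct_zero a)⟩
  refine ⟨m, hm, fun m' hm' => hmax m' hm', fun m' hm' he => ?_⟩
  by_contra hne
  have hδ : m - m' ≠ 0 := sub_ne_zero.mpr (Ne.symm hne)
  have hs' : ∀ a ∈ C.E, |a ⬝ᵥ (m - m')| ≤ 1 := by
    intro a ha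
    have h1 := hs a ha
    rw [dotProduct_sub]
    rcases hm a ha with h2 | h2 <;> rcases hm' a ha with h3 | h3 <;> rw [h2, h3]
    · simp
    · rw [zero_sub, abs_neg]; exact h1
    · rw [sub_zero]; exact h1
    · simp
  obtain ⟨μ, hμ, h0⟩ := conf_ex C (m - m') hδ hs'
  have c1 : Conf C.E d (m - μ) := by
    intro a ha
    have h1 := hm a ha
    have h2 := hm' a ha
    rw [dotProduct_sub]
    rcases hμ a ha with h3 | h3
    · rw [h3, sub_zero]; exact h1
    · rw [h3, dotProduct_sub, sub_sub_cancel]; exact h2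
  have c2 : Conf C.E d (m' + μ) := by
    intro a ha
    have h1 := hm a ha
    have h2 := hm' a ha
    rw [dotProduct_add]
    rcases hμ a ha with h3 | h3
    · rw [h3, add_zero]; exact h2
    · rw [h3, dotProduct_sub, add_sub_cancel]; exact h1
  have e1 := hmax _ c1
  have e2 := hmax _ c2
  rw [B3_sub] at e1
  rw [B3_add] at e2
  apply h0
  linarith

end LibQC51
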