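import Pool.Agent.LibQC51.A2

/-!
QC51 C1 (SHORT/MEDIUM).  The cocharacters T i.
PLAN.  Write s(m) = m - (R.root i ⬝ᵥ m) • R.coroot i (the reflection on cocharacters). For a: a ⬝ᵥ s(m) = a ⬝ᵥ m - (root i ⬝ᵥ m) (a ⬝ᵥ coroot i) = (a - (a ⬝ᵥ coroot i) • root i) ⬝ᵥ m. So s maps {m : Conf E (coroot j) m} to {m : Conf E (coroot (rf i j)) m} (D.ref, root_rf, coroot_rf; s is an involution, s (coroot j) = coroot (rf i j)), and pr ξ (s m) = pr ξ m (D.cen).
T_rf: s (T j) is conformal to coroot (rf i j); it is maximal: if m is conformal to coroot (rf i j) then s m is conformal to coroot j (s (coroot (rf i j)) = coroot j) so pr ξ m = pr ξ (s m) ≤ pr ξ (T j) = pr ξ (s (T j)). By D.max and D.uniq for the index rf i j: s (T j) = T (rf i j).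
T_ng: T i - coroot i is conformal to - coroot i = coroot (ng i): value 0 - x or x - x, x = a ⬝ᵥ coroot i; pr ξ of it = pr ξ (T i) (cen); it is maximal (m conformal to - coroot i gives m + coroot i conformal to coroot i). So T (ng i) = T i - coroot i.
root_T: ng i = rf i i, so T i - (root i ⬝ᵥ T i) • coroot i = T i - coroot i; coroot i ≠ 0 (two). T_ne: their difference is coroot i. pos_T: 0 is conformal, T i ≠ 0.
-/

set_option autoImplicit false

namespace LibQC51

open scoped Matrix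

namespace TD

variable {r : ℕ} {ι : Type} (D : TD r ι)

/-- the reflection on cocharacters -/
private def C1_s (i : ι) (m : Fin r → ℤ) : Fin r → ℤ := m - (D.R.root i ⬝ᵥ m) • D.R.coroot i

private theorem C1_dot (i : ι) (a m : Fin r → ℤ) :
    a ⬝ᵥ C1_s D i m = (a - (a ⬝ᵥ D.R.coroot i) • D.R.root i) ⬝ᵥ m := by
  unfold C1_s
  rw [dotProduct_sub, dotProduct_smul, sub_dotProduct, smul_dotProduct, smul_eq_mul, smul_eq_mul]
  ring

private theorem C1_co (i j : ι) : C1_s D i (D.R.coroot j) = D.R.coroot (D.R.rf i j) := by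
  unfold C1_s
  rw [D.R.coroot_rf]

private theorem C1_inv (i : ι) (m : Fin r → ℤ) : C1_s D i (C1_s D i m) = m := by
  unfold C1_s
  rw [dotProduct_sub, dotProduct_smul, D.R.two, smul_eq_mul]
  have h : D.R.root i ⬝ᵥ m - D.R.root i ⬝ᵥ m * 2 = -(D.R.root i ⬝ᵥ m) := by ring
  rw [h, neg_smul]
  abel

private theorem C1_pr_sub (ξ : Fin r → ℝ) (m m' : Fin r → ℤ) : pr ξ (m - m') = pr ξ m - pr ξ m' := by
  unfold pr
  rw [← Finset.sum_sub_distrib]
  refine Finset.sum_congr rfl fun j _ => ?_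
  rw [Pi.sub_apply]
  push_cast
  ring

private theorem C1_pr_add (ξ : Fin r → ℝ) (m m' : Fin r → ℤ) : pr ξ (m + m') = pr ξ m + pr ξ m' := by
  unfold pr
  rw [← Finset.sum_add_distrib]
  refine Finset.sum_congr rfl fun j _ => ?_
  rw [Pi.add_apply]
  push_cast
  ring

private theorem C1_pr_smul (ξ : Fin r → ℝ) (c : ℤ) (m : Fin r → ℤ) : pr ξ (c • m) = c * pr ξ m := by
  unfold pr
  rw [Finset.mul_sum]
  refine Finset.sum_congr rfl fun j _ => ?_
  rw [Pi.smul_apply, smul_eq_mul]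
  push_cast
  ring

private theorem C1_pr (i : ι) (m : Fin r → ℤ) : pr D.ξ (C1_s D i m) = pr D.ξ m := by
  unfold C1_s
  rw [C1_pr_sub, C1_pr_smul, D.cen, mul_zero, sub_zero]

/-- the reflection moves conformal cocharacters -/
private theorem C1_conf (i : ι) {δ m : Fin r → ℤ} (h : Conf D.E δ m) : Conf D.E (C1_s D i δ) (C1_s D i m) := by
  intro a ha
  rw [C1_dot, C1_dot]
  exact h _ (D.ref i a ha)

private theorem C1_co_ne (i : ι) : D.R.coroot i ≠ 0 := by
  intro h
  have h1 := D.R.two i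
  rw [h, dotProduct_zero] at h1
  exact absurd h1 (by norm_num)

theorem T_rf (i j : ι) : D.T (D.R.rf i j) = D.T j - (D.R.root i ⬝ᵥ D.T j) • D.R.coroot i := by
  have h0 : Conf D.E (D.R.coroot (D.R.rf i j)) (C1_s D i (D.T j)) := by
    rw [← C1_co]
    exact C1_conf D i (D.conf j)
  have h1 : Conf D.E (D.R.coroot j) (C1_s D i (D.T (D.R.rf i j))) := by
    have h2 := C1_conf D i (D.conf (D.R.rf i j))
    rw [← C1_co D i j, C1_inv] at h2
    exact h2
  have h3 : pr D.ξ (C1_s D i (D.T j)) = pr D.ξ (D.T (D.R.rf i j)) := by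
    refine le_antisymm (D.max _ _ h0) ?_
    have h4 := D.max _ _ h1
    rwa [C1_pr] at h4 ⊢
  have h5 := D.uniq _ _ h0 h3
  rw [← h5]
  rfl

theorem T_ng (i : ι) : D.T (D.R.ng i) = D.T i - D.R.coroot i := by
  have hd : ∀ a : Fin r → ℤ, a ⬝ᵥ D.R.coroot (D.R.ng i) = -(a ⬝ᵥ D.R.coroot i) := by
    intro a
    rw [D.R.coroot_ng, dotProduct_neg]
  have h0 : Conf D.E (D.R.coroot (D.R.ng i)) (D.T i - D.R.coroot i) := by
    intro a ha
    rw [dotProduct_sub, hd]
    rcases D.conf i a ha with h | h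
    · right
      rw [h]
      ring
    · left
      rw [h]
      ring
  have h1 : Conf D.E (D.R.coroot i) (D.T (D.R.ng i) + D.R.coroot i) := by
    intro a ha
    rw [dotProduct_add]
    rcases D.conf (D.R.ng i) a ha with h | h
    · right
      rw [h]
      ring
    · left
      rw [h, hd]
      ring
  have h3 : pr D.ξ (D.T i - D.R.coroot i) = pr D.ξ (D.T (D.R.ng i)) := by
    refine le_antisymm (D.max _ _ h0) ?_
    have h4 := D.max _ _ h1
    rw [C1_pr_add, D.cen, add_zero] at h4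
    rw [C1_pr_sub, D.cen, sub_zero]
    exact h4
  exact (D.uniq _ _ h0 h3).symm

theorem root_T (i : ι) : D.R.root i ⬝ᵥ D.T i = 1 := by
  have h1 := T_rf D i i
  have h2 := T_ng D i
  have h3 : D.R.ng i = D.R.rf i i := rfl
  rw [h3, h1] at h2
  have h4 : (D.R.root i ⬝ᵥ D.T i - 1) • D.R.coroot i = 0 := by
    rw [sub_smul, one_smul]
    have h5 : (D.R.root i ⬝ᵥ D.T i) • D.R.coroot i = D.R.coroot i := sub_right_injective h2
    rw [h5, sub_self]
  rcases smul_eq_zero.1 h4 with h5 | h5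
  · exact sub_eq_zero.1 h5
  · exact absurd h5 (C1_co_ne D i)

theorem T_ne (i : ι) : D.T (D.R.ng i) ≠ D.T i := by
  rw [T_ng]
  intro h
  exact C1_co_ne D i (sub_eq_self.1 h)

/-- some weight has value 1 on the coroot -/
theorem ex_one (i : ι) : ∃ a ∈ D.E, a ⬝ᵥ D.R.coroot i = 1 := by
  obtain ⟨a, ha, h⟩ := ex_ne D.toCfg (D.R.coroot i) (C1_co_ne D i)
  have h1 := abs_le.1 (D.bd i a ha)
  rcases lt_or_gt_of_ne h with h2 | h2
  · refine ⟨-a, D.neg a ha, ?_⟩
    rw [neg_dotProduct]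
    omega
  · exact ⟨a, ha, by omega⟩

end TD

end LibQC51
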