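import Pool.Agent.LibQC51.C1

/-!
QC51 C2 (MEDIUM).  Only the values -1, 0, 1 occur between different roots.
PLAN.  Notation α_i = root i, c_i = coroot i, s_i a = a - (a ⬝ᵥ c_i) • α_i ∈ E for a ∈ E.
le_two: take b ∈ E, b ⬝ᵥ c_j = 1 (ex_one): α_j = b - s_j b, so α_j ⬝ᵥ c_i = b ⬝ᵥ c_i - (s_j b) ⬝ᵥ c_i, both in {-1, 0, 1} (bd).
eq_of_two: assume α_j ⬝ᵥ c_i = 2. For EVERY b ∈ E with b ⬝ᵥ c_j = 1: b ⬝ᵥ c_i = 1 and (b - α_j) ⬝ᵥ c_i = -1. Put m = α_i ⬝ᵥ c_j. s_i b = b - α_i ∈ E, its c_j value is 1 - m ∈ {-1, 0, 1}, so m ∈ {0, 1, 2}.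
 m = 0: s_i b has c_j value 1, so its c_i value is 1; but it is 1 - 2 = -1. m = 1: (b - α_i) has c_j value 0, so T_j value 0 (conf j): b ⬝ᵥ T_j = α_i ⬝ᵥ T_j. b - α_j ∈ E has c_i value -1, so b - α_j + α_i ∈ E, c_j value -1 + 1 = 0, T_j value 0: b ⬝ᵥ T_j - 1 + α_i ⬝ᵥ T_j = 0 (root_T). So 2 (b ⬝ᵥ T_j) = 1: contradiction.
 m = 2: s_i b = b - α_i has c_j value -1, s_j of it: b - α_i + α_j ∈ E has c_j value 1. So E is stable: b ∈ E, b ⬝ᵥ c_j = 1 implies b + (α_j - α_i) ∈ E with c_j value 1; by induction b + k • (α_j - α_i) ∈ E for all k : ℕ; E is finite, so α_j = α_i (injectivity of k ↦ b + k • δ for δ ≠ 0), j = i by R.inj.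
zero_symm: α_j ⬝ᵥ c_i = 0, m := α_i ⬝ᵥ c_j ≠ 0: k := rf j i has root α_i - m α_j and α_k ⬝ᵥ c_i = 2, so k = i by eq_of_two, m α_j = 0, contradiction (two).
one_symm: α_j ⬝ᵥ c_i = 1: m := α_i ⬝ᵥ c_j, |m| ≤ 2; m ≠ 0 by zero_symm; m = 2: i = j (eq_of_two), then α_j ⬝ᵥ c_i = 2, contradiction; m = -2: (root (ng i)) ⬝ᵥ c_j = 2, so ng i = j, then α_j ⬝ᵥ c_i = -2; m = -1: k := rf j i has root α_i + α_j, α_k ⬝ᵥ c_i = 3, contradiction to le_two.
-/

set_option autoImplicit false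

namespace LibQC51

open scoped Matrix

namespace TD

variable {r : ℕ} {ι : Type} (D : TD r ι)

private theorem C2_ref (i : ι) {a : Fin r → ℤ} (ha : a ∈ D.E) {x : ℤ}
    (hx : a ⬝ᵥ D.R.coroot i = x) : a - x • D.R.root i ∈ D.E := by
  rw [← hx]
  exact D.ref i a ha

private theorem C2_bd (i : ι) {a : Fin r → ℤ} (ha : a ∈ D.E) :
    -1 ≤ a ⬝ᵥ D.R.coroot i ∧ a ⬝ᵥ D.R.coroot i ≤ 1 := abs_le.mp (D.bd i a ha)

private theorem C2_T (i : ι) {a : Fin r → ℤ} (ha : a ∈ D.E) (h : a ⬝ᵥ D.R.coroot i = 0) :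
    a ⬝ᵥ D.T i = 0 := by
  rcases D.conf i a ha with h1 | h1
  · exact h1
  · rw [h1, h]

theorem le_two (i j : ι) : |D.R.root j ⬝ᵥ D.R.coroot i| ≤ 2 := by
  obtain ⟨b, hb, hb1⟩ := ex_one D j
  have h1 := C2_ref D j hb hb1
  have h2 := C2_bd D i hb
  have h3 := C2_bd D i h1
  rw [sub_dotProduct, smul_dotProduct, smul_eq_mul] at h3
  rw [abs_le]
  constructor <;> linarith [h2.1, h2.2, h3.1, h3.2]

theorem eq_of_two (i j : ι) (h : D.R.root j ⬝ᵥ D.R.coroot i = 2) : j = i := by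
  obtain ⟨b, hb, hb1⟩ := ex_one D j
  have key : ∀ b ∈ D.E, b ⬝ᵥ D.R.coroot j = 1 → b ⬝ᵥ D.R.coroot i = 1 := by
    intro b hb hb1
    have h1 := C2_ref D j hb hb1
    have h2 := C2_bd D i hb
    have h3 := C2_bd D i h1
    rw [sub_dotProduct, smul_dotProduct, smul_eq_mul, h] at h3
    linarith [h2.1, h2.2, h3.1, h3.2]
  have hi := D.R.two i
  have hj := D.R.two j
  have hstep : ∀ b ∈ D.E, b ⬝ᵥ D.R.coroot j = 1 → b - D.R.root i ∈ D.E := by
    intro b hb hb1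
    have := C2_ref D i hb (key b hb hb1)
    rwa [one_smul] at this
  have h1 := hstep b hb hb1
  have h2 := C2_bd D j h1
  rw [sub_dotProduct, hb1] at h2
  obtain ⟨m, hm⟩ : ∃ m : ℤ, D.R.root i ⬝ᵥ D.R.coroot j = m := ⟨_, rfl⟩
  rw [hm] at h2
  have hcases : m = 0 ∨ m = 1 ∨ m = 2 := by omega
  rcases hcases with h0 | h0 | h0
  · exfalso
    have e1 : (b - D.R.root i) ⬝ᵥ D.R.coroot j = 1 := by rw [sub_dotProduct, hb1, hm, h0]; rfl
    have e2 := key _ h1 e1
    rw [sub_dotProduct, key b hb hb1, hi] at e2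
    omega
  · exfalso
    have e1 : (b - D.R.root i) ⬝ᵥ D.R.coroot j = 0 := by rw [sub_dotProduct, hb1, hm, h0]; rfl
    have e2 := C2_T D j h1 e1
    rw [sub_dotProduct] at e2
    have e3 := C2_ref D j hb hb1
    rw [one_smul] at e3
    have e4 : (b - D.R.root j) ⬝ᵥ D.R.coroot i = -1 := by
      rw [sub_dotProduct, key b hb hb1, h]; rfl
    have e5 := C2_ref D i e3 e4
    have e6 : (b - D.R.root j - (-1 : ℤ) • D.R.root i) ⬝ᵥ D.R.coroot j = 0 := by
      rw [sub_dotProduct, sub_dotProduct, smul_dotProduct, smul_eq_mul, hb1, hj, hm, h0]; rfl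
    have e7 := C2_T D j e5 e6
    rw [sub_dotProduct, sub_dotProduct, smul_dotProduct, smul_eq_mul, root_T D j] at e7
    omega
  · have e1 : ∀ b ∈ D.E, b ⬝ᵥ D.R.coroot j = 1 →
        b + (D.R.root j - D.R.root i) ∈ D.E ∧
          (b + (D.R.root j - D.R.root i)) ⬝ᵥ D.R.coroot j = 1 := by
      intro b hb hb1
      have f1 := hstep b hb hb1
      have f2 : (b - D.R.root i) ⬝ᵥ D.R.coroot j = -1 := by
        rw [sub_dotProduct, hb1, hm, h0]; rfl
      have f3 := C2_ref D j f1 f2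
      have f4 : b - D.R.root i - (-1 : ℤ) • D.R.root j = b + (D.R.root j - D.R.root i) := by
        rw [neg_one_zsmul]; abel
      rw [f4] at f3
      refine ⟨f3, ?_⟩
      rw [add_dotProduct, sub_dotProduct, hb1, hm, hj, h0]
      rfl
    have e2 : ∀ k : ℕ, b + (k : ℤ) • (D.R.root j - D.R.root i) ∈ D.E ∧
        (b + (k : ℤ) • (D.R.root j - D.R.root i)) ⬝ᵥ D.R.coroot j = 1 := by
      intro k
      induction k with
      | zero => simpa using ⟨hb, hb1⟩
      | succ k ih =>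
        have f1 := e1 _ ih.1 ih.2
        have f2 : b + (k : ℤ) • (D.R.root j - D.R.root i) + (D.R.root j - D.R.root i) =
            b + ((k + 1 : ℕ) : ℤ) • (D.R.root j - D.R.root i) := by
          rw [add_assoc]
          congr 1
          push_cast
          rw [add_smul, one_smul]
        rwa [f2] at f1
    by_contra hne
    have hδ : D.R.root j - D.R.root i ≠ 0 := sub_ne_zero.mpr fun hh => hne (D.R.inj hh)
    have hinj : Function.Injective
        (fun k : ℕ => b + (k : ℤ) • (D.R.root j - D.R.root i)) := by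
      intro k l hkl
      have f1 : (k : ℤ) • (D.R.root j - D.R.root i) = (l : ℤ) • (D.R.root j - D.R.root i) :=
        add_left_cancel hkl
      have f2 : ((k : ℤ) - l) • (D.R.root j - D.R.root i) = 0 := by
        rw [sub_smul, f1, sub_self]
      rcases smul_eq_zero.mp f2 with f3 | f3
      · exact_mod_cast sub_eq_zero.mp f3
      · exact absurd f3 hδ
    exact (Set.infinite_of_injective_forall_mem hinj (s := (D.E : Set (Fin r → ℤ)))
      fun k => (e2 k).1) D.E.finite_toSet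

theorem zero_symm (i j : ι) (h : D.R.root j ⬝ᵥ D.R.coroot i = 0) :
    D.R.root i ⬝ᵥ D.R.coroot j = 0 := by
  have e1 : D.R.root (D.R.rf j i) ⬝ᵥ D.R.coroot i = 2 := by
    rw [D.R.root_rf, sub_dotProduct, smul_dotProduct, h, D.R.two, smul_zero, sub_zero]
  have e2 := eq_of_two D i (D.R.rf j i) e1
  have e3 := D.R.root_rf j i
  rw [e2] at e3
  have e4 : (D.R.root i ⬝ᵥ D.R.coroot j) • D.R.root j = 0 := by
    have := sub_eq_self.mp e3.symm
    exact this
  have e5 : ((D.R.root i ⬝ᵥ D.R.coroot j) • D.R.root j) ⬝ᵥ D.R.coroot j = 0 := by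
    rw [e4, zero_dotProduct]
  rw [smul_dotProduct, D.R.two, smul_eq_mul] at e5
  omega

theorem one_symm (i j : ι) (h : D.R.root j ⬝ᵥ D.R.coroot i = 1) :
    D.R.root i ⬝ᵥ D.R.coroot j = 1 := by
  obtain ⟨m, hm⟩ : ∃ m : ℤ, D.R.root i ⬝ᵥ D.R.coroot j = m := ⟨_, rfl⟩
  have h1 := abs_le.mp (le_two D j i)
  rw [hm] at h1
  have n0 : m ≠ 0 := by
    intro h0
    have := zero_symm D j i (by rw [hm, h0])
    rw [h] at this
    omega
  have n2 : m ≠ 2 := by
    intro h0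
    have := eq_of_two D j i (by rw [hm, h0])
    rw [this, D.R.two] at h
    omega
  have n2' : m ≠ -2 := by
    intro h0
    have e1 : D.R.root (D.R.ng i) ⬝ᵥ D.R.coroot j = 2 := by
      rw [D.R.root_ng, neg_dotProduct, hm, h0]; rfl
    have e2 := eq_of_two D j _ e1
    rw [← e2, D.R.root_ng, neg_dotProduct, D.R.two] at h
    omega
  have n1 : m ≠ -1 := by
    intro h0
    have e1 : D.R.root (D.R.rf j i) ⬝ᵥ D.R.coroot i = 3 := by
      rw [D.R.root_rf, sub_dotProduct, smul_dotProduct, h, D.R.two, hm, h0]; rfl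
    have e2 := le_two D i (D.R.rf j i)
    rw [e1] at e2
    exact absurd e2 (by norm_num)
  rw [hm]
  omega

end TD

end LibQC51
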