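import Pool.Agent.LibQC51.C2

/-!
QC51 C3 (MEDIUM).  A root which is positive on T i.
PLAN.  pos_eq: let α_j ⬝ᵥ T_i > 0. Put n = α_j ⬝ᵥ c_i, |n| ≤ 2.
 n = 2: j = i (eq_of_two), done. n = -2: (root (ng j)) ⬝ᵥ c_i = 2, so ng j = i, α_j = -α_i, α_j ⬝ᵥ T_i = -1: contradiction.
 n = 0: α_i ⬝ᵥ c_j = 0 (zero_symm); rf j i has root α_i, so rf j i = i (R.inj); T_rf: T_i = T_i - (α_j ⬝ᵥ T_i) c_j, so α_j ⬝ᵥ T_i = 0: contradiction (c_j ≠ 0).
 n = -1: take b ∈ E, b ⬝ᵥ c_j = 1 (ex_one); α_j = b - s_j b; (b ⬝ᵥ c_i) - (s_j b ⬝ᵥ c_i) = -1 with both in {-1,0,1}: (−1, 0) or (0, 1); conf i: α_j ⬝ᵥ T_i = b ⬝ᵥ T_i - s_j b ⬝ᵥ T_i ≤ 0: contradiction.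
 n = 1: α_i ⬝ᵥ c_j = 1 (one_symm). γ := index rf j i: root α_i - α_j, coroot c_i - c_j. Claim: T_i is conformal to c_j. Let a ∈ E, x = a ⬝ᵥ c_i, y = a ⬝ᵥ c_j, |x - y| ≤ 1 (bd γ), and let a ⬝ᵥ T_i ≠ 0, so a ⬝ᵥ T_i = x = ± 1 (conf i); must show x = y; as |x - y| ≤ 1 and |y| ≤ 1 it remains to exclude y = 0.
   first α_j ⬝ᵥ T_i = 1: same computation with b as for n = -1: the pairs are (1, 0), (0, -1). x = 1, y = 0: a - α_i ∈ E has values c_i: -1, c_j: -1; reflecting in j: a - α_i + α_j ∈ E with c_i value 0, so T_i value 0 : a ⬝ᵥ T_i - 1 + 1 = 0, contradiction. x = -1, y = 0: a + α_i ∈ E has values 1, 1; a + α_i - α_j ∈ E has c_i value 0, T_i value 0 : a ⬝ᵥ T_i = 0, contradiction.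
   So pr ξ T_i ≤ pr ξ T_j (max j). The reflection γ maps root i to root j: rf γ i has root α_i - (α_i ⬝ᵥ (c_i - c_j)) (α_i - α_j) = α_j, so rf γ i = j and T_j = T_i - (..) (c_i - c_j) (T_rf), pr ξ T_j = pr ξ T_i (cen). uniq j: T_i = T_j.
neg_eq: apply pos_eq to ng j. le_one: from pos_eq and root_T (α_j ⬝ᵥ T_j = 1), and for the negative.
-/

set_option autoImplicit false

namespace LibQC51

open scoped Matrix

namespace TD

variable {r : ℕ} {ι : Type} (D : TD r ι)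

theorem pos_eq (i j : ι) (h : 0 < D.R.root j ⬝ᵥ D.T i) : D.T i = D.T j := by
  obtain ⟨b, hb, hb1⟩ := D.ex_one j
  have hb' := D.ref j b hb
  rw [hb1, one_smul] at hb'
  have e1 : (b - D.R.root j) ⬝ᵥ D.R.coroot i = b ⬝ᵥ D.R.coroot i - D.R.root j ⬝ᵥ D.R.coroot i :=
    sub_dotProduct _ _ _
  have e2 : (b - D.R.root j) ⬝ᵥ D.T i = b ⬝ᵥ D.T i - D.R.root j ⬝ᵥ D.T i := sub_dotProduct _ _ _
  have b1 := abs_le.1 (D.bd i b hb)
  have b2 := abs_le.1 (D.bd i _ hb')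
  have c1 := D.conf i b hb
  have c2 := D.conf i _ hb'
  have hn := abs_le.1 (D.le_two i j)
  have hcases : D.R.root j ⬝ᵥ D.R.coroot i = 2 ∨ D.R.root j ⬝ᵥ D.R.coroot i = -2 ∨
      D.R.root j ⬝ᵥ D.R.coroot i = 0 ∨ D.R.root j ⬝ᵥ D.R.coroot i = -1 ∨
      D.R.root j ⬝ᵥ D.R.coroot i = 1 := by omega
  rcases hcases with hc | hc | hc | hc | hc
  · rw [D.eq_of_two i j hc]
  · exfalso
    have h1 : D.R.root (D.R.ng j) ⬝ᵥ D.R.coroot i = 2 := by
      rw [D.R.root_ng, neg_dotProduct, hc]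
      norm_num
    have h2 := D.eq_of_two i _ h1
    have h3 := D.root_T i
    rw [← h2, D.R.root_ng, neg_dotProduct, h2] at h3
    omega
  · exfalso
    have h1 := D.zero_symm i j hc
    have h2 : D.R.rf j i = i := by
      apply D.R.inj
      rw [D.R.root_rf, h1, zero_smul, sub_zero]
    have h3 := D.T_rf j i
    rw [h2] at h3
    have h4 : (D.R.root j ⬝ᵥ D.T i) • D.R.coroot j = 0 := by
      have h5 := congrArg (fun t => D.T i - t) h3
      simpa using h5.symm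
    have h5 : D.R.root j ⬝ᵥ ((D.R.root j ⬝ᵥ D.T i) • D.R.coroot j) = 0 := by
      rw [h4, dotProduct_zero]
    rw [dotProduct_smul, D.R.two, smul_eq_mul] at h5
    omega
  · exfalso
    omega
  · have h1 := D.one_symm i j hc
    have h2 : D.R.root j ⬝ᵥ D.T i = 1 := by omega
    have h3 : D.R.root (D.R.rf j i) = D.R.root i - D.R.root j := by
      rw [D.R.root_rf, h1, one_smul]
    have h4 : D.R.coroot (D.R.rf j i) = D.R.coroot i - D.R.coroot j := by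
      rw [D.R.coroot_rf, hc, one_smul]
    have h5 : D.R.rf (D.R.rf j i) i = j := by
      apply D.R.inj
      rw [D.R.root_rf, h3, h4, dotProduct_sub, D.R.two, h1]
      norm_num
    have h6 := D.T_rf (D.R.rf j i) i
    rw [h5, h3, sub_dotProduct, D.root_T i, h2, sub_self, zero_smul, sub_zero] at h6
    exact h6.symm

theorem neg_eq (i j : ι) (h : D.R.root j ⬝ᵥ D.T i < 0) : D.T i = D.T (D.R.ng j) := by
  apply D.pos_eq
  rw [D.R.root_ng, neg_dotProduct]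
  omega

theorem root_eq_one (i j : ι) (h : 0 < D.R.root j ⬝ᵥ D.T i) : D.R.root j ⬝ᵥ D.T i = 1 := by
  rw [D.pos_eq i j h]
  exact D.root_T j

theorem root_eq_neg_one (i j : ι) (h : D.R.root j ⬝ᵥ D.T i < 0) : D.R.root j ⬝ᵥ D.T i = -1 := by
  have h1 := D.root_T (D.R.ng j)
  rw [← D.neg_eq i j h, D.R.root_ng, neg_dotProduct] at h1
  omega

end TD

end LibQC51
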