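import Pool.Agent.LibQC51.C3

/-!
QC51 C4 (SHORT/MEDIUM).  Blocks.
PLAN.  Bl v u: v = u or there is a root j with T j = v, T (ng j) = u. symm: ng (ng j) = j (R.inj, root_ng). uniq_j: if T j = T k, T (ng j) = T (ng k) then c_j = c_k (T_ng), so α_j ⬝ᵥ c_k = 2, j = k (eq_of_two).
add: T j = v, T (ng j) = T k = u, T (ng k) = w, v ≠ w: l := rf k j. α_k ⬝ᵥ T j: if it is > 0 then T j = T k, but T j ≠ T (ng j) = T k (T_ne); if < 0 then T j = T (ng k) = w, no; so it is 0 and T l = T j = v (T_rf). T (ng l): ng l and rf k (ng j) have the same root (R.inj): T (ng l) = T (ng j) - (α_k ⬝ᵥ T (ng j)) c_k = u - (α_k ⬝ᵥ T k) (T k - T (ng k)) = w (root_T).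
root l = α_j - (α_j ⬝ᵥ c_k) α_k, α_j ⬝ᵥ c_k = α_j ⬝ᵥ T k - α_j ⬝ᵥ T (ng k) (T_ng) ; α_j ⬝ᵥ T k = α_j ⬝ᵥ T (ng j) = -(α_(ng j) ⬝ᵥ T (ng j)) = -1; α_j ⬝ᵥ T (ng k) = 0: if > 0, T (ng k) = T j, i.e. w = v, no; if < 0, T (ng k) = T (ng j) = T k, no (T_ne). So root l = α_j + α_k.
-/

set_option autoImplicit false

namespace LibQC51

open scoped Matrix

namespace TD

variable {r : ℕ} {ι : Type} (D : TD r ι)

/-- two cocharacters of one block -/
def Bl (v u : Fin r → ℤ) : Prop := v = u ∨ ∃ j, D.T j = v ∧ D.T (D.R.ng j) = u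

theorem ng_ng (j : ι) : D.R.ng (D.R.ng j) = j := by
  apply D.R.inj
  rw [D.R.root_ng, D.R.root_ng, neg_neg]

theorem uniq_j (j k : ι) (h1 : D.T j = D.T k) (h2 : D.T (D.R.ng j) = D.T (D.R.ng k)) : j = k := by
  have h3 := D.T_ng j
  have h4 := D.T_ng k
  have h5 : D.R.coroot j = D.R.coroot k := by
    have e1 : D.R.coroot j = D.T j - D.T (D.R.ng j) := by rw [h3]; abel
    have e2 : D.R.coroot k = D.T k - D.T (D.R.ng k) := by rw [h4]; abel
    rw [e1, e2, h1, h2]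
  apply D.eq_of_two k j
  rw [← h5]
  exact D.R.two j

theorem add_j (j k : ι) (h : D.T (D.R.ng j) = D.T k) (hne : D.T j ≠ D.T (D.R.ng k)) :
    ∃ l, D.T l = D.T j ∧ D.T (D.R.ng l) = D.T (D.R.ng k) ∧
      D.R.root l = D.R.root j + D.R.root k := by
  have h0 : D.R.root k ⬝ᵥ D.T j = 0 := by
    rcases lt_trichotomy (D.R.root k ⬝ᵥ D.T j) 0 with h1 | h1 | h1
    · exact absurd (D.neg_eq j k h1) hne
    · exact h1
    · have h2 := D.pos_eq j k h1
      exact absurd (h.trans h2.symm) (D.T_ne j)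
  have hj := D.T_ng j
  have hk := D.T_ng k
  have h1 : D.R.root k ⬝ᵥ D.R.coroot j = -1 := by
    have e1 : D.R.coroot j = D.T j - D.T (D.R.ng j) := by rw [hj]; abel
    rw [e1, dotProduct_sub, h0, h, D.root_T k]
    rfl
  have h2 : D.R.root j ⬝ᵥ D.T (D.R.ng k) = 0 := by
    rcases lt_trichotomy (D.R.root j ⬝ᵥ D.T (D.R.ng k)) 0 with h3 | h3 | h3
    · have h4 := D.neg_eq (D.R.ng k) j h3
      exact absurd (h4.trans h) (D.T_ne k)
    · exact h3
    · have h4 := D.pos_eq (D.R.ng k) j h3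
      exact absurd h4.symm hne
  have h3 : D.R.root j ⬝ᵥ D.T k = -1 := by
    rw [← h, hj, dotProduct_sub, D.root_T j, D.R.two j]
    rfl
  have h4 : D.R.root j ⬝ᵥ D.R.coroot k = -1 := by
    have e1 : D.R.coroot k = D.T k - D.T (D.R.ng k) := by rw [hk]; abel
    rw [e1, dotProduct_sub, h2, h3]
    rfl
  have h5 : D.T (D.R.rf k j) = D.T j := by
    rw [D.T_rf, h0, zero_smul, sub_zero]
  refine ⟨D.R.rf k j, h5, ?_, ?_⟩
  · rw [D.T_ng, h5, D.R.coroot_rf, h1, hk, ← h, hj, neg_smul, one_smul]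
    abel
  · rw [D.R.root_rf, h4, neg_smul, one_smul]
    abel

theorem Bl_refl (v : Fin r → ℤ) : D.Bl v v := Or.inl rfl

theorem Bl_symm {v u : Fin r → ℤ} (h : D.Bl v u) : D.Bl u v := by
  rcases h with h | ⟨j, h1, h2⟩
  · exact Or.inl h.symm
  · exact Or.inr ⟨D.R.ng j, h2, by rw [D.ng_ng, h1]⟩

theorem Bl_trans {v u w : Fin r → ℤ} (h : D.Bl v u) (h' : D.Bl u w) : D.Bl v w := by
  rcases h with h | ⟨j, h1, h2⟩
  · rw [h]; exact h'
  · rcases h' with h' | ⟨k, h3, h4⟩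
    · rw [← h']; exact Or.inr ⟨j, h1, h2⟩
    · by_cases hvw : v = w
      · exact Or.inl hvw
      · obtain ⟨l, hl1, hl2, -⟩ := D.add_j j k (h2.trans h3.symm)
          (fun e => hvw (by rw [← h1, ← h4]; exact e))
        exact Or.inr ⟨l, hl1.trans h1, hl2.trans h4⟩

end TD

end LibQC51
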