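import Pool.Agent.LibQC51.C4

/-!
QC51 C5 (MEDIUM, constructions).  The vertex data of the roots.
PLAN.  V := {x // ∃ i, D.T i = x} (Fintype: Fintype.ofFinite; it is a quotient of the finite type ι: Set.range), vc := Subtype.val, setoid from Bl, I := Quotient, blk := Quotient.mk, rep := Quotient.out, blk_rep := Quotient.out_eq. rt v u := if h : ∃ j, T j = v ∧ T (ng j) = u then root h.choose else 0. Finite I: Quotient of a finite type.
two: v = T j, u := T (ng j) (T_ne). rt_left: α_j ⬝ᵥ T j = 1 (root_T); rt_right: α_j ⬝ᵥ T (ng j) = -(root (ng j) ⬝ᵥ T (ng j)) = -1. rt_eval: if α_j ⬝ᵥ w > 0 then w = T j, if < 0 then w = T (ng j) (pos_eq, neg_eq; w = T i for some i). rt_self: no j has T j = T (ng j). rt_add: cases v = u, u = w, v = w (then rt w v = - rt v w: uniq_j for ng j) or all different (add_j, uniq_j).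
val: conf i and bd i. one: v ≠ u in one block: j with T j = v, T (ng j) = u = T j - c_j: a ⬝ᵥ T j ∈ {0, a ⬝ᵥ c_j}: so a ⬝ᵥ v = 0 or a ⬝ᵥ u = 0. refl: for v = u the term is a - 0; otherwise v - u = c_j and rt v u = root j (uniq_j for the chosen index): D.ref j a.
h1: take v = T i, u = T (ng i). h2: choose j.
-/

set_option autoImplicit false

namespace LibQC51

open scoped Matrix

open scoped Classical in
private noncomputable def C5_rt {r : ℕ} {ι : Type} (D : TD r ι) (v u : Fin r → ℤ) : Fin r → ℤ :=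
  if h : ∃ j, D.T j = v ∧ D.T (D.R.ng j) = u then D.R.root h.choose else 0

private theorem C5_rt_eq {r : ℕ} {ι : Type} (D : TD r ι) (j : ι) :
    C5_rt D (D.T j) (D.T (D.R.ng j)) = D.R.root j := by
  unfold C5_rt
  have h : ∃ k, D.T k = D.T j ∧ D.T (D.R.ng k) = D.T (D.R.ng j) := ⟨j, rfl, rfl⟩
  rw [dif_pos h, D.uniq_j h.choose j h.choose_spec.1 h.choose_spec.2]

private theorem C5_rt_self {r : ℕ} {ι : Type} (D : TD r ι) (v : Fin r → ℤ) :
    C5_rt D v v = 0 := by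
  unfold C5_rt
  rw [dif_neg]
  rintro ⟨j, h1, h2⟩
  exact D.T_ne j (h2.trans h1.symm)

private theorem C5_bl {r : ℕ} {ι : Type} (D : TD r ι) {v u : Fin r → ℤ} (h : D.Bl v u)
    (hne : v ≠ u) : ∃ j, D.T j = v ∧ D.T (D.R.ng j) = u :=
  h.resolve_left hne

private theorem C5_right {r : ℕ} {ι : Type} (D : TD r ι) (j : ι) :
    D.R.root j ⬝ᵥ D.T (D.R.ng j) = -1 := by
  have h := D.root_T (D.R.ng j)
  rw [D.R.root_ng, neg_dotProduct] at h
  linarith

private theorem C5_cor {r : ℕ} {ι : Type} (D : TD r ι) (j : ι) :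
    D.R.coroot j = D.T j - D.T (D.R.ng j) := by
  rw [D.T_ng]
  abel

private def C5_setoid {r : ℕ} {ι : Type} (D : TD r ι) :
    Setoid {x : Fin r → ℤ // ∃ i, D.T i = x} where
  r v u := D.Bl v.1 u.1
  iseqv := ⟨fun v => D.Bl_refl v.1, fun h => D.Bl_symm h, fun h h' => D.Bl_trans h h'⟩

private noncomputable def C5_vd {r : ℕ} {ι : Type} [Finite ι] (D : TD r ι) : VD r where
  toCfg := D.toCfg
  V := {x : Fin r → ℤ // ∃ i, D.T i = x}
  I := Quotient (C5_setoid D)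
  fV := by
    haveI : Finite {x : Fin r → ℤ // ∃ i, D.T i = x} := (Set.finite_range D.T).to_subtype
    exact Fintype.ofFinite _
  fI := by
    haveI : Finite {x : Fin r → ℤ // ∃ i, D.T i = x} := (Set.finite_range D.T).to_subtype
    infer_instance
  blk := fun v => Quotient.mk (C5_setoid D) v
  rep := fun i => Quotient.out i
  blk_rep := fun i => Quotient.out_eq i
  vc := fun v => v.1
  rt := fun v u => C5_rt D v.1 u.1
  two := by
    rintro ⟨v, j, rfl⟩
    refine ⟨⟨D.T (D.R.ng j), _, rfl⟩, ?_, ?_⟩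
    · intro h
      exact D.T_ne j (congrArg Subtype.val h)
    · exact Quotient.sound (D.Bl_symm (Or.inr ⟨j, rfl, rfl⟩))
  rt_eval := by
    rintro ⟨v, hv⟩ ⟨u, hu⟩ ⟨w, i, rfl⟩ h h1 h2
    have hb : D.Bl v u := Quotient.exact h
    by_cases hvu : v = u
    · subst hvu
      show C5_rt D v v ⬝ᵥ D.T i = 0
      rw [C5_rt_self, zero_dotProduct]
    · obtain ⟨j, rfl, rfl⟩ := C5_bl D hb hvu
      show C5_rt D (D.T j) (D.T (D.R.ng j)) ⬝ᵥ D.T i = 0
      rw [C5_rt_eq]
      rcases lt_trichotomy (D.R.root j ⬝ᵥ D.T i) 0 with h3 | h3 | h3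
      · exact absurd (Subtype.ext (D.neg_eq i j h3)) h2
      · exact h3
      · exact absurd (Subtype.ext (D.pos_eq i j h3)) h1
  rt_left := by
    rintro ⟨v, hv⟩ ⟨u, hu⟩ h hne
    have hb : D.Bl v u := Quotient.exact h
    obtain ⟨j, rfl, rfl⟩ := C5_bl D hb (fun e => hne (Subtype.ext e))
    show C5_rt D (D.T j) (D.T (D.R.ng j)) ⬝ᵥ D.T j = 1
    rw [C5_rt_eq, D.root_T]
  rt_right := by
    rintro ⟨v, hv⟩ ⟨u, hu⟩ h hne
    have hb : D.Bl v u := Quotient.exact h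
    obtain ⟨j, rfl, rfl⟩ := C5_bl D hb (fun e => hne (Subtype.ext e))
    show C5_rt D (D.T j) (D.T (D.R.ng j)) ⬝ᵥ D.T (D.R.ng j) = -1
    rw [C5_rt_eq, C5_right]
  rt_self := fun v => C5_rt_self D v.1
  rt_add := by
    rintro ⟨v, hv⟩ ⟨u, hu⟩ ⟨w, hw⟩ h h'
    have hb : D.Bl v u := Quotient.exact h
    have hb' : D.Bl u w := Quotient.exact h'
    show C5_rt D v u + C5_rt D u w = C5_rt D v w
    by_cases h1 : v = u
    · subst h1
      rw [C5_rt_self, zero_add]
    by_cases h2 : u = w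
    · subst h2
      rw [C5_rt_self, add_zero]
    obtain ⟨j, rfl, rfl⟩ := C5_bl D hb h1
    obtain ⟨k, h3, h4⟩ := C5_bl D hb' h2
    by_cases h5 : D.T j = w
    · subst h5
      have h6 : C5_rt D (D.T (D.R.ng j)) (D.T j) = - D.R.root j := by
        have h7 := C5_rt_eq D (D.R.ng j)
        rw [D.ng_ng, D.R.root_ng] at h7
        exact h7
      rw [C5_rt_eq, C5_rt_self, h6, add_neg_cancel]
    · rw [← h4] at h5
      obtain ⟨l, l1, l2, l3⟩ := D.add_j j k h3.symm h5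
      have e1 : C5_rt D (D.T (D.R.ng j)) w = D.R.root k := by
        rw [← h3, ← h4]
        exact C5_rt_eq D k
      have e2 : C5_rt D (D.T j) w = D.R.root l := by
        rw [← l1, ← h4, ← l2]
        exact C5_rt_eq D l
      rw [C5_rt_eq, e1, e2, l3]
  val := by
    rintro a ha ⟨v, i, rfl⟩
    show |a ⬝ᵥ D.T i| ≤ 1
    rcases D.conf i a ha with h | h
    · rw [h]
      simp
    · rw [h]
      exact D.bd i a ha
  one := by
    rintro a ha ⟨v, hv⟩ ⟨u, hu⟩ h hne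
    have hb : D.Bl v u := Quotient.exact h
    obtain ⟨j, rfl, rfl⟩ := C5_bl D hb (fun e => hne (Subtype.ext e))
    show a ⬝ᵥ D.T j = 0 ∨ a ⬝ᵥ D.T (D.R.ng j) = 0
    rcases D.conf j a ha with h | h
    · exact Or.inl h
    · right
      rw [D.T_ng, dotProduct_sub, h, sub_self]
  refl := by
    rintro a ha ⟨v, hv⟩ ⟨u, hu⟩ h
    have hb : D.Bl v u := Quotient.exact h
    show a - (a ⬝ᵥ v - a ⬝ᵥ u) • C5_rt D v u ∈ D.E
    by_cases hvu : v = u
    · subst hvu
      rw [C5_rt_self, smul_zero, sub_zero]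
      exact ha
    · obtain ⟨j, rfl, rfl⟩ := C5_bl D hb hvu
      rw [C5_rt_eq, ← dotProduct_sub, ← C5_cor]
      exact D.ref j a ha

theorem vd_of {r : ℕ} {ι : Type} [Finite ι] (D : TD r ι) :
    ∃ D' : VD r, D'.E = D.E ∧
      (∀ i, ∃ v u, v ≠ u ∧ D'.blk v = D'.blk u ∧ D.R.root i = D'.rt v u ∧
        D.R.coroot i = D'.vc v - D'.vc u) ∧
      ∀ v u, v ≠ u → D'.blk v = D'.blk u → ∃ i, D.R.root i = D'.rt v u ∧
        D.R.coroot i = D'.vc v - D'.vc u := by
  refine ⟨C5_vd D, rfl, ?_, ?_⟩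
  · intro i
    refine ⟨⟨D.T i, i, rfl⟩, ⟨D.T (D.R.ng i), _, rfl⟩, ?_, ?_, ?_, ?_⟩
    · intro h
      exact D.T_ne i (congrArg Subtype.val h).symm
    · exact Quotient.sound (Or.inr ⟨i, rfl, rfl⟩)
    · exact (C5_rt_eq D i).symm
    · exact C5_cor D i
  · rintro ⟨v, hv⟩ ⟨u, hu⟩ hne h
    have hb : D.Bl v u := Quotient.exact h
    obtain ⟨j, rfl, rfl⟩ := C5_bl D hb (fun e => hne (Subtype.ext e))
    exact ⟨j, (C5_rt_eq D j).symm, C5_cor D j⟩

end LibQC51
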