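import Mathlib

set_option autoImplicit false

/-!
# LibQC51, definitions: root data with weights, the torus quotient of `T^*A`, quiver form
(MP_ebf018_gt, classification of the data of Hausel's conjecture)
-/

namespace LibQC51

open scoped Matrix

/-- a root datum on the character lattice `ℤ^r` of the torus `T = U(1)^r` -/
structure RootDat (r : ℕ) (ι : Type) where
  root : ι → Fin r → ℤ
  coroot : ι → Fin r → ℤ
  inj : Function.Injective root
  two : ∀ i, root i ⬝ᵥ coroot i = 2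
  refl : ∀ i j, ∃ k, root k = root j - (root j ⬝ᵥ coroot i) • root i ∧
    coroot k = coroot j - (root i ⬝ᵥ coroot j) • coroot i

/-- `a` is the family of weights (with multiplicities) of a representation: the reflections permute
it and the weight strings have no gap at the start -/
structure IsRep {r n : ℕ} {ι : Type} (R : RootDat r ι) (a : Fin n → Fin r → ℤ) : Prop where
  perm : ∀ i, ∃ σ : Equiv.Perm (Fin n), ∀ k, a (σ k) = a k - (a k ⬝ᵥ R.coroot i) • R.root i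
  string : ∀ i k, 2 ≤ a k ⬝ᵥ R.coroot i → ∃ l, a l = a k - R.root i

/-- the point `(x, y)` of `T^*A` lies in the level set of the hyperkähler moment map of `T`, real part
`ξ`, complex part `0` -/
def InLevel {r n : ℕ} (a : Fin n → Fin r → ℤ) (ξ : Fin r → ℝ) (x y : Fin n → ℂ) : Prop :=
  (∀ j, ∑ k, (Complex.normSq (x k) - Complex.normSq (y k)) * (a k j : ℝ) = ξ j) ∧
    ∀ j, ∑ k, x k * y k * (a k j : ℂ) = 0

/-- the value of the character `b` at `t` -/
noncomputable def chr {r : ℕ} (t : Fin r → Circle) (b : Fin r → ℤ) : Circle := ∏ j, t j ^ b j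

/-- `T` acts freely on the level set -/
def FreeOn {r n : ℕ} (a : Fin n → Fin r → ℤ) (ξ : Fin r → ℝ) : Prop :=
  ∀ x y : Fin n → ℂ, InLevel a ξ x y → ∀ t : Fin r → Circle,
    (∀ k, (chr t (a k) : ℂ) * x k = x k ∧ ((chr t (a k))⁻¹ : Circle) * y k = y k) → t = 1

/-- The quiver form of a root datum with weights. `V` is the disjoint union of the blocks
(`blk v = i`), one block for every simple factor, of size `n_i ≥ 2`; the blocks are grouped into
components, some of which are framed. The character lattice is `{(l, z) : l ∈ ℤ^V, z ∈ ℤ^s}` with the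
sum of `l` over every unframed component equal to `0`, the roots are the differences of two unit vectors of
one block, and up to sign each weight is a nonzero character of `U(1)^s`, or a unit vector of a framed
component plus a character of `U(1)^s`, or a difference of two unit vectors of two blocks of one
component. -/
structure QForm {r n : ℕ} {ι : Type} (R : RootDat r ι) (a : Fin n → Fin r → ℤ) where
  V : Type
  I : Type
  J : Type
  [fV : Fintype V]
  [dV : DecidableEq V]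
  [dJ : DecidableEq J]
  blk : V → I
  comp : I → J
  fr : J → Prop
  s : ℕ
  ψ : (Fin r → ℤ) →+ (V → ℤ) × (Fin s → ℤ)
  inj : Function.Injective ψ
  range_iff : ∀ (l : V → ℤ) (z : Fin s → ℤ), (∃ x, ψ x = (l, z)) ↔
    ∀ j, ¬ fr j → ∑ v : V, (if comp (blk v) = j then l v else 0) = 0
  two : ∀ v, ∃ u, u ≠ v ∧ blk u = blk v
  root_iff : ∀ x, (∃ i, R.root i = x) ↔
    ∃ v u, v ≠ u ∧ blk v = blk u ∧ ψ x = (Pi.single v 1 - Pi.single u 1, 0)
  coroot : ∀ i v u, ψ (R.root i) = (Pi.single v 1 - Pi.single u 1, 0) → v ≠ u →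
    ∀ x, x ⬝ᵥ R.coroot i = (ψ x).1 v - (ψ x).1 u
  wt : ∀ k, ∃ ε : ℤˣ, (∃ z, z ≠ 0 ∧ ψ ((ε : ℤ) • a k) = (0, z)) ∨
    (∃ v z, fr (comp (blk v)) ∧ ψ ((ε : ℤ) • a k) = (Pi.single v 1, z)) ∨
    ∃ v u, blk v ≠ blk u ∧ comp (blk v) = comp (blk u) ∧
      ψ ((ε : ℤ) • a k) = (Pi.single v 1 - Pi.single u 1, 0)

/-! ## Internal notions -/

/-- `ξ` is a real combination of `S` -/
def RS {r : ℕ} (S : Finset (Fin r → ℤ)) (ξ : Fin r → ℝ) : Prop :=
  ∃ c : (Fin r → ℤ) → ℝ, ∀ j, ∑ a ∈ S, c a * (a j : ℝ) = ξ j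

/-- the pairing of `ξ` with a cocharacter -/
noncomputable def pr {r : ℕ} (ξ : Fin r → ℝ) (c : Fin r → ℤ) : ℝ := ∑ j, ξ j * (c j : ℝ)

/-- `μ` is conformal to `δ` -/
def Conf {r : ℕ} (E : Finset (Fin r → ℤ)) (δ μ : Fin r → ℤ) : Prop :=
  ∀ a ∈ E, a ⬝ᵥ μ = 0 ∨ a ⬝ᵥ μ = a ⬝ᵥ δ

/-- a symmetric finite set of integral vectors and a parameter such that every subset whose real
span contains the parameter spans the lattice -/
structure Cfg (r : ℕ) where
  E : Finset (Fin r → ℤ)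
  ξ : Fin r → ℝ
  neg : ∀ a ∈ E, -a ∈ E
  star : ∀ S : Finset (Fin r → ℤ), S ⊆ E → RS S ξ → Submodule.span ℤ (S : Set (Fin r → ℤ)) = ⊤
  ne : RS E ξ

/-- the index of the reflected root -/
noncomputable def RootDat.rf {r : ℕ} {ι : Type} (R : RootDat r ι) (i j : ι) : ι := (R.refl i j).choose

theorem RootDat.root_rf {r : ℕ} {ι : Type} (R : RootDat r ι) (i j : ι) :
    R.root (R.rf i j) = R.root j - (R.root j ⬝ᵥ R.coroot i) • R.root i := (R.refl i j).choose_spec.1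

theorem RootDat.coroot_rf {r : ℕ} {ι : Type} (R : RootDat r ι) (i j : ι) :
    R.coroot (R.rf i j) = R.coroot j - (R.root i ⬝ᵥ R.coroot j) • R.coroot i :=
  (R.refl i j).choose_spec.2

/-- the index of the negative root -/
noncomputable def RootDat.ng {r : ℕ} {ι : Type} (R : RootDat r ι) (i : ι) : ι := R.rf i i

theorem RootDat.root_ng {r : ℕ} {ι : Type} (R : RootDat r ι) (i : ι) : R.root (R.ng i) = - R.root i := by
  unfold RootDat.ng
  rw [R.root_rf, R.two, two_smul]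
  abel

theorem RootDat.coroot_ng {r : ℕ} {ι : Type} (R : RootDat r ι) (i : ι) :
    R.coroot (R.ng i) = - R.coroot i := by
  unfold RootDat.ng
  rw [R.coroot_rf, R.two, two_smul]
  abel

/-- roots acting on a configuration, with the maximal conformal cocharacters `T i` -/
structure TD (r : ℕ) (ι : Type) extends Cfg r where
  R : RootDat r ι
  cen : ∀ i, pr ξ (R.coroot i) = 0
  ref : ∀ i, ∀ a ∈ E, a - (a ⬝ᵥ R.coroot i) • R.root i ∈ E
  bd : ∀ i, ∀ a ∈ E, |a ⬝ᵥ R.coroot i| ≤ 1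
  T : ι → Fin r → ℤ
  conf : ∀ i, Conf E (R.coroot i) (T i)
  max : ∀ i m, Conf E (R.coroot i) m → pr ξ m ≤ pr ξ (T i)
  uniq : ∀ i m, Conf E (R.coroot i) m → pr ξ m = pr ξ (T i) → m = T i

/-- vertices, blocks and roots -/
structure VD (r : ℕ) extends Cfg r where
  V : Type
  I : Type
  [fV : Fintype V]
  [fI : Finite I]
  blk : V → I
  rep : I → V
  blk_rep : ∀ i, blk (rep i) = i
  vc : V → Fin r → ℤ
  rt : V → V → Fin r → ℤ
  two : ∀ v, ∃ u, u ≠ v ∧ blk u = blk v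
  rt_eval : ∀ v u w, blk v = blk u → w ≠ v → w ≠ u → rt v u ⬝ᵥ vc w = 0
  rt_left : ∀ v u, blk v = blk u → v ≠ u → rt v u ⬝ᵥ vc v = 1
  rt_right : ∀ v u, blk v = blk u → v ≠ u → rt v u ⬝ᵥ vc u = -1
  rt_self : ∀ v, rt v v = 0
  rt_add : ∀ v u w, blk v = blk u → blk u = blk w → rt v u + rt u w = rt v w
  val : ∀ a ∈ E, ∀ v, |a ⬝ᵥ vc v| ≤ 1
  one : ∀ a ∈ E, ∀ v u, blk v = blk u → v ≠ u → a ⬝ᵥ vc v = 0 ∨ a ⬝ᵥ vc u = 0
  refl : ∀ a ∈ E, ∀ v u, blk v = blk u → a - (a ⬝ᵥ vc v - a ⬝ᵥ vc u) • rt v u ∈ E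

attribute [instance] VD.fV VD.fI QForm.fV QForm.dV QForm.dJ

namespace VD

variable {r : ℕ} (D : VD r)

/-- a step between two signed blocks -/
def Stp (p q : D.I × ℤˣ) (e : Fin r → ℤ) : Prop :=
  e ∈ D.E ∧ p.1 ≠ q.1 ∧ e ⬝ᵥ D.vc (D.rep p.1) = (p.2 : ℤ) ∧ e ⬝ᵥ D.vc (D.rep q.1) = -(q.2 : ℤ)

/-- walks of signed blocks, with the sum of the steps -/
inductive Wk : D.I × ℤˣ → D.I × ℤˣ → (Fin r → ℤ) → Prop
  | nil (p : D.I × ℤˣ) : Wk p p 0
  | cons (p q l : D.I × ℤˣ) (e x : Fin r → ℤ) : D.Stp p q e → Wk q l x → Wk p l (e + x)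

end VD

open scoped Classical in
/-- potentials on the vertices -/
structure Pot {r : ℕ} (D : VD r) where
  J : Type
  comp : D.I → J
  fr : J → Prop
  s : D.I → ℤˣ
  w : D.V → Fin r → ℤ
  /-- the base vertex of an unframed component -/
  base : J → D.V
  /-- a framed component: `w v` is the unit vector -/
  w1 : ∀ v, fr (comp (D.blk v)) → ∀ u,
    (s (D.blk u) : ℤ) * (w v ⬝ᵥ D.vc u) = if u = v then 1 else 0
  /-- an unframed component -/
  w2 : ∀ v, ¬ fr (comp (D.blk v)) → ∀ u, (s (D.blk u) : ℤ) * (w v ⬝ᵥ D.vc u) =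
    (if u = v then 1 else 0) - (if u = base (comp (D.blk v)) then 1 else 0)
  w2b : ∀ v, ¬ fr (comp (D.blk v)) → comp (D.blk (base (comp (D.blk v)))) = comp (D.blk v) ∧
    w (base (comp (D.blk v))) = 0
  /-- the roots -/
  w3 : ∀ v u, D.blk v = D.blk u → w v - w u = (s (D.blk v) : ℤ) • D.rt v u
  /-- the weights which meet two blocks -/
  w4 : ∀ e ∈ D.E, ∀ v u, D.blk v ≠ D.blk u → e ⬝ᵥ D.vc v ≠ 0 → e ⬝ᵥ D.vc u ≠ 0 →
    comp (D.blk v) = comp (D.blk u) ∧
      (s (D.blk v) : ℤ) * (e ⬝ᵥ D.vc v) + (s (D.blk u) : ℤ) * (e ⬝ᵥ D.vc u) = 0 ∧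
      ((s (D.blk v) : ℤ) * (e ⬝ᵥ D.vc v)) • e = w v - w u
  /-- the weights which meet one block only -/
  w5 : ∀ e ∈ D.E, ∀ v, e ⬝ᵥ D.vc v ≠ 0 → (∀ u, D.blk u ≠ D.blk v → e ⬝ᵥ D.vc u = 0) →
    fr (comp (D.blk v))

end LibQC51
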