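import Pool.Agent.LibQC51.A2

/-!
QC51 E1 (MEDIUM).  A weight meets at most two blocks.
PLAN.  Suppose a ⬝ᵥ v1, a ⬝ᵥ v2, a ⬝ᵥ v3 are all nonzero (so ± 1 =: ε1, ε2, ε3), the blocks of v1, v2, v3 pairwise different. Take u_i ≠ v_i in the block of v_i (D.two), β_i := rt v_i u_i. a ⬝ᵥ u_i = 0 (D.one), so a - ε_i β_i ∈ E (D.refl), and (a - ε_i β_i) has the same values on v_j, u_j for j ≠ i (rt_eval), so one can continue:
e12 := a - ε1 β1 - ε2 β2, e13 := a - ε1 β1 - ε3 β3, e23 := a - ε2 β2 - ε3 β3 ∈ E. Independence of ![a, e12, e13, e23]: if x0 a + x12 e12 + x13 e13 + x23 e23 = 0, pair with vc v1: ε1 (x0 + x23) = 0, vc v2: x0 + x13 = 0, vc v3: x0 + x12 = 0, vc v1 + vc u1 (β1 has value 0, a has value ε1): x0 + x12 + x13 + x23 = 0; so all are 0.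
2 • (ε1 β1) = a - e12 - e13 + e23: dvd_of with m = 2 gives 2 ∣ 1, contradiction.
-/

set_option autoImplicit false

namespace LibQC51

open scoped Matrix

private theorem e1_step {r : ℕ} (D : VD r) (a : Fin r → ℤ) (ha : a ∈ D.E) (v v' : D.V)
    (hv : D.blk v = D.blk v') (h1 : a ⬝ᵥ D.vc v ≠ 0) :
    a - (a ⬝ᵥ D.vc v) • D.rt v v' ∈ D.E := by
  by_cases h : v = v'
  · subst h
    rw [D.rt_self, smul_zero, sub_zero]
    exact ha
  · have h0 : a ⬝ᵥ D.vc v' = 0 := (D.one a ha v v' hv h).resolve_left h1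
    have := D.refl a ha v v' hv
    rwa [h0, sub_zero] at this

private theorem e1_eval {r : ℕ} (D : VD r) (a : Fin r → ℤ) (k : ℤ) (v v' u : D.V)
    (hv : D.blk v = D.blk v') (hu : D.blk v ≠ D.blk u) :
    (a - k • D.rt v v') ⬝ᵥ D.vc u = a ⬝ᵥ D.vc u := by
  rw [sub_dotProduct, smul_dotProduct, D.rt_eval v v' u hv (fun h => hu (by rw [h]))
    (fun h => hu (by rw [h, hv])), smul_zero, sub_zero]

private theorem e1_transl {r : ℕ} (D : VD r) (a : Fin r → ℤ) (ha : a ∈ D.E) (v v' u u' : D.V)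
    (hv : D.blk v = D.blk v') (hu : D.blk u = D.blk u') (hvu : D.blk v ≠ D.blk u)
    (h1 : a ⬝ᵥ D.vc v ≠ 0) (h2 : a ⬝ᵥ D.vc u ≠ 0) :
    a - (a ⬝ᵥ D.vc v) • D.rt v v' - (a ⬝ᵥ D.vc u) • D.rt u u' ∈ D.E := by
  have e1 := e1_eval D a (a ⬝ᵥ D.vc v) v v' u hv hvu
  have h := e1_step D (a - (a ⬝ᵥ D.vc v) • D.rt v v') (e1_step D a ha v v' hv h1) u u' hu
    (by rw [e1]; exact h2)
  rwa [e1] at h

theorem two_blocks {r : ℕ} (D : VD r) (a : Fin r → ℤ) (ha : a ∈ D.E) (v1 v2 v3 : D.V)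
    (h12 : D.blk v1 ≠ D.blk v2) (h13 : D.blk v1 ≠ D.blk v3) (h23 : D.blk v2 ≠ D.blk v3) :
    a ⬝ᵥ D.vc v1 = 0 ∨ a ⬝ᵥ D.vc v2 = 0 ∨ a ⬝ᵥ D.vc v3 = 0 := by
  by_contra hcon
  push Not at hcon
  obtain ⟨n1, n2, n3⟩ := hcon
  obtain ⟨u1, hu1, hb1⟩ := D.two v1
  obtain ⟨u2, hu2, hb2⟩ := D.two v2
  obtain ⟨u3, hu3, hb3⟩ := D.two v3
  have z1 : a ⬝ᵥ D.vc u1 = 0 := (D.one a ha v1 u1 hb1.symm (Ne.symm hu1)).resolve_left n1
  have m12 := e1_transl D a ha v1 u1 v2 u2 hb1.symm hb2.symm h12 n1 n2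
  have m13 := e1_transl D a ha v1 u1 v3 u3 hb1.symm hb3.symm h13 n1 n3
  have m23 := e1_transl D a ha v2 u2 v3 u3 hb2.symm hb3.symm h23 n2 n3
  have r11 := D.rt_left v1 u1 hb1.symm (Ne.symm hu1)
  have r22 := D.rt_left v2 u2 hb2.symm (Ne.symm hu2)
  have r33 := D.rt_left v3 u3 hb3.symm (Ne.symm hu3)
  have r1u := D.rt_right v1 u1 hb1.symm (Ne.symm hu1)
  have ne : ∀ {x y : D.V}, D.blk x ≠ D.blk y → x ≠ y := fun h h' => h (by rw [h'])
  have r12 : D.rt v1 u1 ⬝ᵥ D.vc v2 = 0 :=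
    D.rt_eval v1 u1 v2 hb1.symm (ne h12.symm) (ne (by rw [hb1]; exact h12.symm))
  have r13 : D.rt v1 u1 ⬝ᵥ D.vc v3 = 0 :=
    D.rt_eval v1 u1 v3 hb1.symm (ne h13.symm) (ne (by rw [hb1]; exact h13.symm))
  have r21 : D.rt v2 u2 ⬝ᵥ D.vc v1 = 0 :=
    D.rt_eval v2 u2 v1 hb2.symm (ne h12) (ne (by rw [hb2]; exact h12))
  have r23 : D.rt v2 u2 ⬝ᵥ D.vc v3 = 0 :=
    D.rt_eval v2 u2 v3 hb2.symm (ne h23.symm) (ne (by rw [hb2]; exact h23.symm))
  have r31 : D.rt v3 u3 ⬝ᵥ D.vc v1 = 0 :=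
    D.rt_eval v3 u3 v1 hb3.symm (ne h13) (ne (by rw [hb3]; exact h13))
  have r32 : D.rt v3 u3 ⬝ᵥ D.vc v2 = 0 :=
    D.rt_eval v3 u3 v2 hb3.symm (ne h23) (ne (by rw [hb3]; exact h23))
  have r2u : D.rt v2 u2 ⬝ᵥ D.vc u1 = 0 :=
    D.rt_eval v2 u2 u1 hb2.symm (ne (by rw [hb1]; exact h12)) (ne (by rw [hb1, hb2]; exact h12))
  have r3u : D.rt v3 u3 ⬝ᵥ D.vc u1 = 0 :=
    D.rt_eval v3 u3 u1 hb3.symm (ne (by rw [hb1]; exact h13)) (ne (by rw [hb1, hb3]; exact h13))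
  generalize hE1 : a ⬝ᵥ D.vc v1 = k1 at *
  generalize hE2 : a ⬝ᵥ D.vc v2 = k2 at *
  generalize hE3 : a ⬝ᵥ D.vc v3 = k3 at *
  have hi : LinearIndependent ℤ ![a, a - k1 • D.rt v1 u1 - k2 • D.rt v2 u2,
      a - k1 • D.rt v1 u1 - k3 • D.rt v3 u3, a - k2 • D.rt v2 u2 - k3 • D.rt v3 u3] := by
    rw [Fintype.linearIndependent_iff]
    intro g hg
    simp only [Fin.sum_univ_four, Matrix.cons_val] at hg
    have p1 := congrArg (fun x => x ⬝ᵥ D.vc v1) hg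
    have p2 := congrArg (fun x => x ⬝ᵥ D.vc v2) hg
    have p3 := congrArg (fun x => x ⬝ᵥ D.vc v3) hg
    have p4 := congrArg (fun x => x ⬝ᵥ D.vc u1) hg
    simp only [add_dotProduct, sub_dotProduct, smul_dotProduct, zero_dotProduct, smul_eq_mul,
      hE1, hE2, hE3, r11, r22, r33, r12, r13, r21, r23, r31, r32, r1u, r2u, r3u, z1]
      at p1 p2 p3 p4
    have q1 : g 0 + g 3 = 0 := by
      have : k1 * (g 0 + g 3) = 0 := by linear_combination p1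
      exact (mul_eq_zero.1 this).resolve_left n1
    have q2 : g 0 + g 2 = 0 := by
      have : k2 * (g 0 + g 2) = 0 := by linear_combination p2
      exact (mul_eq_zero.1 this).resolve_left n2
    have q3 : g 0 + g 1 = 0 := by
      have : k3 * (g 0 + g 1) = 0 := by linear_combination p3
      exact (mul_eq_zero.1 this).resolve_left n3
    have q4 : g 1 + g 2 = 0 := by
      have : k1 * (g 1 + g 2) = 0 := by linear_combination p4
      exact (mul_eq_zero.1 this).resolve_left n1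
    intro i
    fin_cases i
    · show g 0 = 0
      omega
    · show g 1 = 0
      omega
    · show g 2 = 0
      omega
    · show g 3 = 0
      omega
  have hd := dvd_of D.toCfg _ (fun i => by
    fin_cases i
    · exact ha
    · exact m12
    · exact m13
    · exact m23) hi (k1 • D.rt v1 u1) 2 ![1, -1, -1, 1] (by
      simp only [Fin.sum_univ_four, Matrix.cons_val]
      module) 0
  simp at hd

/-- a translate of a weight which meets two blocks -/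
theorem transl {r : ℕ} (D : VD r) (a : Fin r → ℤ) (ha : a ∈ D.E) (v v' u u' : D.V)
    (hv : D.blk v = D.blk v') (hu : D.blk u = D.blk u') (hvu : D.blk v ≠ D.blk u)
    (h1 : a ⬝ᵥ D.vc v ≠ 0) (h2 : a ⬝ᵥ D.vc u ≠ 0) :
    a - (a ⬝ᵥ D.vc v) • D.rt v v' - (a ⬝ᵥ D.vc u) • D.rt u u' ∈ D.E := by
  exact e1_transl D a ha v v' u u' hv hu hvu h1 h2

end LibQC51
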