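import Pool.Agent.LibQC51.E1

/-!
QC51 E2 (STRONG).  Path lemma: trivial holonomy and balanced signs.
Data: pairwise different blocks of v 0, ..., v m; e q ∈ E has value s q on v q and - s (q+1) on v (q+1) (q < m); f ∈ E has value s 0 on v 0 and is not 0 on v m. Then f has value - s m on v m and f = ∑ e q.
PLAN.  Values: a weight of E meets at most two blocks (two_blocks) and in each block at most one vertex (D.one), so e q is 0 on all v p, p ≠ q, q+1, and f is 0 on v p, 0 < p < m, and all are 0 on the companions. Companions: u q ≠ v q in the block of v q (D.two), β q := rt (v q) (u q). e' q := e q - s q • β q + s (q+1) • β (q+1) ∈ E (transl): value s q on u q, - s (q+1) on u (q+1), 0 on all v p.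
Put A = ∑_{q<m} e q, A' = ∑_{q<m} e' q; telescoping: A - A' = s 0 • β 0 - s m • β m. Let t = f ⬝ᵥ vc (v m) = ± 1 (D.val).
(1) t = s m (unbalanced). f' := f - s 0 • β 0 - s m • β m ∈ E (transl), value s 0 on u 0, s m on u m. 2 • (s 0 • β 0) = ∑ e q - ∑ e' q + f - f'. Independence of the family (e q)_{q<m}, (e' q)_{q<m}, f, f' (index type Fin m ⊕ Fin m ⊕ Fin 2 or Option (Option (Fin m ⊕ Fin m))): let ∑ p q e q + ∑ p' q e' q + c f + c' f' = 0.
 Pair with vc (v q), 0 < q < m: s q (p q - p (q-1)) = 0, so p is constant =: p; vc (v 0): s 0 (p + c) = 0; vc (v m): s m (- p + c) = 0; so p = c = 0; the same with u: p' = c' = 0. dvd_of with m = 2: 2 ∣ 1, contradiction.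
(2) t = - s m. g := f + s m • β m ∈ E (transl with v' = v 0: rt v v = 0), value s 0 on v 0, - s m on u m; g' := f - s 0 • β 0 ∈ E, value s 0 on u 0, - s m on v m. g - g' = s 0 • β 0 + s m • β m; so 2 • (s 0 • β 0) = ∑ e q - ∑ e' q + g - g'. If the family (e q), (e' q), g, g' were independent: contradiction by dvd_of.
 Relation ∑ p q e q + ∑ p' q e' q + c g + c' g' = 0: at v q, 0 < q < m: p constant; u q: p' constant; v 0: p + c = 0; v m: - p - c' = 0; u 0: p' + c' = 0; u m: - p' - c = 0. So p = p' = - c = - c', and the relation reads p • (A + A' - g - g') = 0, A + A' - g - g' = 2 A - s 0 • β 0 + s m • β m - (2 f + s m • β m - s 0 • β 0) = 2 • (A - f). If f ≠ A then p = 0 and the family is independent: contradiction. So f = A.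
-/

set_option autoImplicit false

namespace LibQC51

open scoped Matrix

private theorem E2_sum (m : ℕ) (t : ℤ) (X : ℕ → ℤ) (p : ℕ) :
    ∑ q ∈ Finset.range m, X q * ((if p = q then t else 0) - (if p = q + 1 then t else 0)) =
      t * ((if p < m then X p else 0) - (if 0 < p ∧ p ≤ m then X (p - 1) else 0)) := by
  have h1 : ∑ q ∈ Finset.range m, X q * (if p = q then t else 0) =
      t * (if p < m then X p else 0) := by
    rw [Finset.sum_congr rfl (g := fun q => if p = q then X q * t else 0) fun q _ => by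
      split_ifs <;> simp]
    rw [Finset.sum_ite_eq]
    simp only [Finset.mem_range]
    split_ifs <;> ring
  have h2 : ∑ q ∈ Finset.range m, X q * (if p = q + 1 then t else 0) =
      t * (if 0 < p ∧ p ≤ m then X (p - 1) else 0) := by
    cases p with
    | zero => simp
    | succ k =>
      rw [Finset.sum_congr rfl (g := fun q => if k = q then X q * t else 0) fun q _ => by
        by_cases h : k = q
        · rw [if_pos (by rw [h]), if_pos h]
        · rw [if_neg (fun h' => h (Nat.succ.inj h')), if_neg h, mul_zero]]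
      rw [Finset.sum_ite_eq]
      simp only [Finset.mem_range]
      by_cases h : k < m
      · rw [if_pos h, if_pos ⟨Nat.succ_pos k, h⟩, Nat.add_sub_cancel]
        ring
      · rw [if_neg h, if_neg (fun h' => h h'.2), mul_zero]
  rw [Finset.sum_congr rfl fun q _ => mul_sub _ _ _, Finset.sum_sub_distrib, h1, h2, mul_sub]

/-- a relation with constant coefficients -/
private theorem E2_rel {r : ℕ} (C : Cfg r) (m : ℕ) (hm : 1 ≤ m) (s : ℕ → ℤ)
    (hs : ∀ q ≤ m, s q ≠ 0) (e e' : ℕ → Fin r → ℤ) (a b : ℕ → Fin r → ℤ) (g g' β : Fin r → ℤ)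
    (he : ∀ q < m, e q ∈ C.E) (he' : ∀ q < m, e' q ∈ C.E) (hg : g ∈ C.E) (hg' : g' ∈ C.E)
    (hVe : ∀ p ≤ m, ∀ q < m, e q ⬝ᵥ a p = (if p = q then s p else 0) - (if p = q + 1 then s p else 0))
    (hUe : ∀ p ≤ m, ∀ q < m, e q ⬝ᵥ b p = 0)
    (hVe' : ∀ p ≤ m, ∀ q < m, e' q ⬝ᵥ a p = 0)
    (hUe' : ∀ p ≤ m, ∀ q < m,
      e' q ⬝ᵥ b p = (if p = q then s p else 0) - (if p = q + 1 then s p else 0))
    (hga : ∀ p, 0 < p → p < m → g ⬝ᵥ a p = 0) (hgb : ∀ p, 0 < p → p < m → g ⬝ᵥ b p = 0)
    (hga' : ∀ p, 0 < p → p < m → g' ⬝ᵥ a p = 0) (hgb' : ∀ p, 0 < p → p < m → g' ⬝ᵥ b p = 0)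
    (h2 : (2 : ℤ) • β = ∑ q ∈ Finset.range m, e q - ∑ q ∈ Finset.range m, e' q + g - g') :
    ∃ x y c c' : ℤ, (x ≠ 0 ∨ y ≠ 0 ∨ c ≠ 0 ∨ c' ≠ 0) ∧
      x • ∑ q ∈ Finset.range m, e q + y • ∑ q ∈ Finset.range m, e' q + c • g + c' • g' = 0 := by
  classical
  by_contra hcon
  push Not at hcon
  let F : (Fin m ⊕ Fin m) ⊕ (Unit ⊕ Unit) → Fin r → ℤ :=
    Sum.elim (Sum.elim (fun i => e i) (fun i => e' i)) (Sum.elim (fun _ => g) (fun _ => g'))
  have hF : ∀ i, F i ∈ C.E := by
    rintro ((i | i) | (i | i))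
    · exact he i i.2
    · exact he' i i.2
    · exact hg
    · exact hg'
  have hsum : ∀ w : (Fin m ⊕ Fin m) ⊕ (Unit ⊕ Unit) → ℤ, ∑ i, w i • F i =
      ∑ i : Fin m, w (Sum.inl (Sum.inl i)) • e i + ∑ i : Fin m, w (Sum.inl (Sum.inr i)) • e' i +
        (w (Sum.inr (Sum.inl ())) • g + w (Sum.inr (Sum.inr ())) • g') := by
    intro w
    rw [Fintype.sum_sum_type, Fintype.sum_sum_type, Fintype.sum_sum_type]
    simp [F]
  have hind : LinearIndependent ℤ F := by
    rw [Fintype.linearIndependent_iff]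
    intro w hw
    rw [hsum] at hw
    set X : ℕ → ℤ := fun q => if h : q < m then w (Sum.inl (Sum.inl ⟨q, h⟩)) else 0 with hX
    set Y : ℕ → ℤ := fun q => if h : q < m then w (Sum.inl (Sum.inr ⟨q, h⟩)) else 0 with hY
    set c := w (Sum.inr (Sum.inl ())) with hc
    set c' := w (Sum.inr (Sum.inr ())) with hc'
    have h3 : ∑ i : Fin m, w (Sum.inl (Sum.inl i)) • e i = ∑ q ∈ Finset.range m, X q • e q := by
      rw [← Fin.sum_univ_eq_sum_range (fun q => X q • e q)]
      refine Finset.sum_congr rfl fun i _ => ?_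
      simp [hX]
    have h4 : ∑ i : Fin m, w (Sum.inl (Sum.inr i)) • e' i = ∑ q ∈ Finset.range m, Y q • e' q := by
      rw [← Fin.sum_univ_eq_sum_range (fun q => Y q • e' q)]
      refine Finset.sum_congr rfl fun i _ => ?_
      simp [hY]
    rw [h3, h4] at hw
    have hV : ∀ p ≤ m, s p * ((if p < m then X p else 0) -
        (if 0 < p ∧ p ≤ m then X (p - 1) else 0)) + (c * (g ⬝ᵥ a p) + c' * (g' ⬝ᵥ a p)) = 0 := by
      intro p hp
      have h5 := congrArg (fun z => z ⬝ᵥ a p) hw
      simp only [add_dotProduct, sum_dotProduct, smul_dotProduct, zero_dotProduct, smul_eq_mul] at h5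
      rw [Finset.sum_congr rfl fun q hq => by rw [hVe p hp q (Finset.mem_range.1 hq)], E2_sum,
        Finset.sum_eq_zero (s := Finset.range m) (f := fun q => Y q * (e' q ⬝ᵥ a p)) fun q hq => by
          rw [hVe' p hp q (Finset.mem_range.1 hq), mul_zero], add_zero] at h5
      exact h5
    have hU : ∀ p ≤ m, s p * ((if p < m then Y p else 0) -
        (if 0 < p ∧ p ≤ m then Y (p - 1) else 0)) + (c * (g ⬝ᵥ b p) + c' * (g' ⬝ᵥ b p)) = 0 := by
      intro p hp
      have h5 := congrArg (fun z => z ⬝ᵥ b p) hw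
      simp only [add_dotProduct, sum_dotProduct, smul_dotProduct, zero_dotProduct, smul_eq_mul] at h5
      rw [Finset.sum_eq_zero (s := Finset.range m) (f := fun q => X q * (e q ⬝ᵥ b p)) fun q hq => by
          rw [hUe p hp q (Finset.mem_range.1 hq), mul_zero], zero_add,
        Finset.sum_congr rfl fun q hq => by rw [hUe' p hp q (Finset.mem_range.1 hq)], E2_sum] at h5
      exact h5
    have hXc : ∀ p, p < m → X p = X 0 := by
      intro p
      induction p with
      | zero => intro _; rfl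
      | succ k ih =>
        intro hk
        rw [← ih (by omega)]
        have h5 := hV (k + 1) hk.le
        rw [hga _ (Nat.succ_pos k) hk, hga' _ (Nat.succ_pos k) hk, mul_zero, mul_zero, add_zero,
          add_zero, if_pos hk, if_pos ⟨Nat.succ_pos k, hk.le⟩, Nat.add_sub_cancel] at h5
        have h6 := (mul_eq_zero.1 h5).resolve_left (hs _ hk.le)
        linarith
    have hYc : ∀ p, p < m → Y p = Y 0 := by
      intro p
      induction p with
      | zero => intro _; rfl
      | succ k ih =>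
        intro hk
        rw [← ih (by omega)]
        have h5 := hU (k + 1) hk.le
        rw [hgb _ (Nat.succ_pos k) hk, hgb' _ (Nat.succ_pos k) hk, mul_zero, mul_zero, add_zero,
          add_zero, if_pos hk, if_pos ⟨Nat.succ_pos k, hk.le⟩, Nat.add_sub_cancel] at h5
        have h6 := (mul_eq_zero.1 h5).resolve_left (hs _ hk.le)
        linarith
    have h7 : X 0 • ∑ q ∈ Finset.range m, e q + Y 0 • ∑ q ∈ Finset.range m, e' q + c • g +
        c' • g' = 0 := by
      rw [Finset.smul_sum, Finset.smul_sum, add_assoc, ← hw]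
      congr 2
      · exact Finset.sum_congr rfl fun q hq => by rw [hXc q (Finset.mem_range.1 hq)]
      · exact Finset.sum_congr rfl fun q hq => by rw [hYc q (Finset.mem_range.1 hq)]
    have h8 : X 0 = 0 ∧ Y 0 = 0 ∧ c = 0 ∧ c' = 0 := by
      by_contra h9
      refine hcon (X 0) (Y 0) c c' ?_ h7
      tauto
    rintro ((i | i) | (i | i))
    · have h9 := hXc i i.2
      rw [h8.1] at h9
      simpa [hX] using h9
    · have h9 := hYc i i.2
      rw [h8.2.1] at h9
      simpa [hY] using h9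
    · exact h8.2.2.1
    · exact h8.2.2.2
  have h9 := dvd_of C F hF hind β 2
    (Sum.elim (Sum.elim (fun _ => 1) (fun _ => -1)) (Sum.elim (fun _ => 1) (fun _ => -1))) (by
      rw [hsum, h2]
      simp only [Sum.elim_inl, Sum.elim_inr, one_smul, neg_smul, Finset.sum_neg_distrib]
      rw [Fin.sum_univ_eq_sum_range (fun q => e q), Fin.sum_univ_eq_sum_range (fun q => e' q)]
      abel) (Sum.inr (Sum.inl ()))
  simp only [Sum.elim_inl, Sum.elim_inr] at h9
  omega

theorem path_key {r : ℕ} (D : VD r) (m : ℕ) (hm : 1 ≤ m) (v : ℕ → D.V) (s : ℕ → ℤ)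
    (e : ℕ → Fin r → ℤ) (hs : ∀ q ≤ m, s q = 1 ∨ s q = -1)
    (hb : ∀ p ≤ m, ∀ q ≤ m, p ≠ q → D.blk (v p) ≠ D.blk (v q)) (hE : ∀ q < m, e q ∈ D.E)
    (h1 : ∀ q < m, e q ⬝ᵥ D.vc (v q) = s q) (h2 : ∀ q < m, e q ⬝ᵥ D.vc (v (q + 1)) = - s (q + 1))
    (f : Fin r → ℤ) (hf : f ∈ D.E) (f0 : f ⬝ᵥ D.vc (v 0) = s 0) (f1 : f ⬝ᵥ D.vc (v m) ≠ 0) :
    f ⬝ᵥ D.vc (v m) = - s m ∧ f = ∑ q ∈ Finset.range m, e q := by
  classical
  choose u₀ hu1 hu2 using D.two
  have hs0 : ∀ q ≤ m, s q ≠ 0 := fun q hq => by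
    rcases hs q hq with h | h <;> rw [h] <;> decide
  have hvne : ∀ p ≤ m, ∀ q ≤ m, p ≠ q → v p ≠ v q := fun p hp q hq h h' =>
    hb p hp q hq h (by rw [h'])
  have hvu : ∀ p ≤ m, ∀ q ≤ m, p ≠ q → v p ≠ u₀ (v q) := fun p hp q hq h h' =>
    hb p hp q hq h (by rw [h', hu2])
  have huu : ∀ p ≤ m, ∀ q ≤ m, p ≠ q → u₀ (v p) ≠ u₀ (v q) := fun p hp q hq h h' =>
    hb p hp q hq h (by rw [← hu2 (v p), h', hu2])
  set β : ℕ → Fin r → ℤ := fun q => D.rt (v q) (u₀ (v q)) with hβ
  have hβV : ∀ p ≤ m, ∀ q ≤ m, β q ⬝ᵥ D.vc (v p) = if p = q then 1 else 0 := by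
    intro p hp q hq
    split_ifs with h
    · subst h
      exact D.rt_left _ _ (hu2 _).symm (hu1 _).symm
    · exact D.rt_eval _ _ _ (hu2 _).symm (hvne p hp q hq h) (hvu p hp q hq h)
  have hβU : ∀ p ≤ m, ∀ q ≤ m, β q ⬝ᵥ D.vc (u₀ (v p)) = if p = q then -1 else 0 := by
    intro p hp q hq
    split_ifs with h
    · subst h
      exact D.rt_right _ _ (hu2 _).symm (hu1 _).symm
    · exact D.rt_eval _ _ _ (hu2 _).symm (hvu q hq p hp (Ne.symm h)).symm (huu p hp q hq h)
  have hVe : ∀ p ≤ m, ∀ q < m, e q ⬝ᵥ D.vc (v p) =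
      (if p = q then s p else 0) - (if p = q + 1 then s p else 0) := by
    intro p hp q hq
    by_cases h : p = q
    · subst h
      rw [if_pos rfl, if_neg (by omega), h1 p hq, sub_zero]
    · rw [if_neg h]
      by_cases h' : p = q + 1
      · subst h'
        rw [if_pos rfl, h2 q hq, zero_sub]
      · rw [if_neg h', sub_zero]
        rcases two_blocks D (e q) (hE q hq) (v q) (v (q + 1)) (v p)
          (hb _ (by omega) _ (by omega) (by omega)) (hb _ (by omega) _ hp (by omega))
          (hb _ (by omega) _ hp (by omega)) with h3 | h3 | h3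
        · exact absurd (by rw [← h1 q hq, h3]) (hs0 q (by omega))
        · rw [h2 q hq, neg_eq_zero] at h3
          exact absurd h3 (hs0 (q + 1) (by omega))
        · exact h3
  have hUe : ∀ p ≤ m, ∀ q < m, e q ⬝ᵥ D.vc (u₀ (v p)) = 0 := by
    intro p hp q hq
    by_cases h : p = q
    · subst h
      refine (D.one _ (hE p hq) (v p) (u₀ (v p)) (hu2 _).symm (hu1 _).symm).resolve_left ?_
      rw [h1 p hq]
      exact hs0 p hp
    · by_cases h' : p = q + 1
      · subst h'
        refine (D.one _ (hE q hq) (v (q + 1)) (u₀ (v (q + 1))) (hu2 _).symm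
          (hu1 _).symm).resolve_left ?_
        rw [h2 q hq, neg_eq_zero]
        exact hs0 _ hp
      · rcases two_blocks D (e q) (hE q hq) (v q) (v (q + 1)) (u₀ (v p))
          (hb _ (by omega) _ (by omega) (by omega))
          (by rw [hu2]; exact hb _ (by omega) _ hp (by omega))
          (by rw [hu2]; exact hb _ (by omega) _ hp (by omega)) with h3 | h3 | h3
        · exact absurd (by rw [← h1 q hq, h3]) (hs0 q (by omega))
        · rw [h2 q hq, neg_eq_zero] at h3
          exact absurd h3 (hs0 (q + 1) (by omega))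
        · exact h3
  have h0m : D.blk (v 0) ≠ D.blk (v m) := hb 0 (by omega) m le_rfl (by omega)
  have f0' : f ⬝ᵥ D.vc (v 0) ≠ 0 := by
    rw [f0]
    exact hs0 0 (by omega)
  have hVf : ∀ p, 0 < p → p < m → f ⬝ᵥ D.vc (v p) = 0 := by
    intro p hp hpm
    rcases two_blocks D f hf (v 0) (v m) (v p) h0m (hb _ (by omega) _ hpm.le (by omega))
      (hb _ le_rfl _ hpm.le (by omega)) with h3 | h3 | h3
    · exact absurd h3 f0'
    · exact absurd h3 f1
    · exact h3
  have hUf : ∀ p ≤ m, f ⬝ᵥ D.vc (u₀ (v p)) = 0 := by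
    intro p hp
    by_cases h : p = 0
    · subst h
      exact (D.one _ hf (v 0) (u₀ (v 0)) (hu2 _).symm (hu1 _).symm).resolve_left f0'
    · by_cases h' : p = m
      · subst h'
        exact (D.one _ hf (v p) (u₀ (v p)) (hu2 _).symm (hu1 _).symm).resolve_left f1
      · rcases two_blocks D f hf (v 0) (v m) (u₀ (v p)) h0m
          (by rw [hu2]; exact hb _ (by omega) _ hp (by omega))
          (by rw [hu2]; exact hb _ le_rfl _ hp (by omega)) with h3 | h3 | h3
        · exact absurd h3 f0'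
        · exact absurd h3 f1
        · exact h3
  set e' : ℕ → Fin r → ℤ := fun q => e q - s q • β q + s (q + 1) • β (q + 1) with he'
  have hE' : ∀ q < m, e' q ∈ D.E := by
    intro q hq
    have h3 := transl D (e q) (hE q hq) (v q) (u₀ (v q)) (v (q + 1)) (u₀ (v (q + 1))) (hu2 _).symm
      (hu2 _).symm (hb _ (by omega) _ (by omega) (by omega))
      (by rw [h1 q hq]; exact hs0 q (by omega))
      (by rw [h2 q hq, neg_ne_zero]; exact hs0 (q + 1) (by omega))
    rw [h1 q hq, h2 q hq, neg_smul, sub_neg_eq_add] at h3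
    exact h3
  have hVe' : ∀ p ≤ m, ∀ q < m, e' q ⬝ᵥ D.vc (v p) = 0 := by
    intro p hp q hq
    simp only [he', add_dotProduct, sub_dotProduct, smul_dotProduct, smul_eq_mul]
    rw [hVe p hp q hq, hβV p hp q (by omega), hβV p hp (q + 1) (by omega)]
    by_cases h : p = q
    · subst h
      simp
    · by_cases h' : p = q + 1
      · subst h'
        simp
      · simp [h, h']
  have hUe' : ∀ p ≤ m, ∀ q < m, e' q ⬝ᵥ D.vc (u₀ (v p)) =
      (if p = q then s p else 0) - (if p = q + 1 then s p else 0) := by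
    intro p hp q hq
    simp only [he', add_dotProduct, sub_dotProduct, smul_dotProduct, smul_eq_mul]
    rw [hUe p hp q hq, hβU p hp q (by omega), hβU p hp (q + 1) (by omega)]
    by_cases h : p = q
    · subst h
      simp
    · by_cases h' : p = q + 1
      · subst h'
        simp
      · simp [h, h']
  set A := ∑ q ∈ Finset.range m, e q with hA
  set A' := ∑ q ∈ Finset.range m, e' q with hA'
  have hAA : A - A' = s 0 • β 0 - s m • β m := by
    rw [hA, hA', ← Finset.sum_sub_distrib, ← Finset.sum_range_sub' (fun q => s q • β q) m]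
    refine Finset.sum_congr rfl fun q _ => ?_
    simp only [he']
    abel
  have hAV : ∀ p ≤ m, A ⬝ᵥ D.vc (v p) = s p * ((if p < m then 1 else 0) -
      (if 0 < p ∧ p ≤ m then 1 else 0)) := by
    intro p hp
    rw [hA, sum_dotProduct, ← E2_sum m (s p) (fun _ => 1) p]
    exact Finset.sum_congr rfl fun q hq => by rw [hVe p hp q (Finset.mem_range.1 hq), one_mul]
  have hAU : ∀ p ≤ m, A ⬝ᵥ D.vc (u₀ (v p)) = 0 := by
    intro p hp
    rw [hA, sum_dotProduct]
    exact Finset.sum_eq_zero fun q hq => hUe p hp q (Finset.mem_range.1 hq)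
  have hAV' : ∀ p ≤ m, A' ⬝ᵥ D.vc (v p) = 0 := by
    intro p hp
    rw [hA', sum_dotProduct]
    exact Finset.sum_eq_zero fun q hq => hVe' p hp q (Finset.mem_range.1 hq)
  have hAU' : ∀ p ≤ m, A' ⬝ᵥ D.vc (u₀ (v p)) = s p * ((if p < m then 1 else 0) -
      (if 0 < p ∧ p ≤ m then 1 else 0)) := by
    intro p hp
    rw [hA', sum_dotProduct, ← E2_sum m (s p) (fun _ => 1) p]
    exact Finset.sum_congr rfl fun q hq => by rw [hUe' p hp q (Finset.mem_range.1 hq), one_mul]
  have hm0 : (0 : ℕ) ≠ m := by omega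
  have a1 := hAV 0 (by omega)
  have a2 := hAV m le_rfl
  have a3 := hAU 0 (by omega)
  have a4 := hAU m le_rfl
  have a5 := hAV' 0 (by omega)
  have a6 := hAV' m le_rfl
  have a7 := hAU' 0 (by omega)
  have a8 := hAU' m le_rfl
  rw [if_pos (by omega), if_neg (by omega), sub_zero, mul_one] at a1 a7
  rw [if_neg (lt_irrefl m), if_pos ⟨by omega, le_rfl⟩, zero_sub, mul_neg_one] at a2 a8
  have b1 : β 0 ⬝ᵥ D.vc (v 0) = 1 := by rw [hβV 0 (by omega) 0 (by omega), if_pos rfl]
  have b2 : β 0 ⬝ᵥ D.vc (v m) = 0 := by rw [hβV m le_rfl 0 (by omega), if_neg hm0.symm]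
  have b3 : β m ⬝ᵥ D.vc (v 0) = 0 := by rw [hβV 0 (by omega) m le_rfl, if_neg hm0]
  have b4 : β m ⬝ᵥ D.vc (v m) = 1 := by rw [hβV m le_rfl m le_rfl, if_pos rfl]
  have b5 : β 0 ⬝ᵥ D.vc (u₀ (v 0)) = -1 := by rw [hβU 0 (by omega) 0 (by omega), if_pos rfl]
  have b6 : β 0 ⬝ᵥ D.vc (u₀ (v m)) = 0 := by rw [hβU m le_rfl 0 (by omega), if_neg hm0.symm]
  have b7 : β m ⬝ᵥ D.vc (u₀ (v 0)) = 0 := by rw [hβU 0 (by omega) m le_rfl, if_neg hm0]
  have b8 : β m ⬝ᵥ D.vc (u₀ (v m)) = -1 := by rw [hβU m le_rfl m le_rfl, if_pos rfl]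
  have c1 := hUf 0 (by omega)
  have c2 := hUf m le_rfl
  have s0 := hs0 0 (by omega)
  have sm := hs0 m le_rfl
  have ht : f ⬝ᵥ D.vc (v m) = s m ∨ f ⬝ᵥ D.vc (v m) = - s m := by
    have h3 := D.val f hf (v m)
    rw [abs_le] at h3
    rcases hs m le_rfl with h4 | h4 <;> rw [h4] <;> omega
  rcases ht with ht | ht
  · -- unbalanced
    exfalso
    have hf' : f - s 0 • β 0 - s m • β m ∈ D.E := by
      have h3 := transl D f hf (v 0) (u₀ (v 0)) (v m) (u₀ (v m)) (hu2 _).symm (hu2 _).symm h0m f0' f1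
      rw [f0, ht] at h3
      exact h3
    obtain ⟨x, y, c, c', hne, hrel⟩ := E2_rel D.toCfg m hm s hs0 e e' (fun p => D.vc (v p))
      (fun p => D.vc (u₀ (v p))) f (f - s 0 • β 0 - s m • β m) (s 0 • β 0) hE hE' hf hf' hVe hUe
      hVe' hUe' hVf (fun p _ hp => hUf p hp.le)
      (fun p hp hpm => by
        simp only [sub_dotProduct, smul_dotProduct, smul_eq_mul]
        rw [hVf p hp hpm, hβV p hpm.le 0 (by omega), hβV p hpm.le m le_rfl, if_neg (by omega),
          if_neg (by omega)]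
        ring)
      (fun p hp hpm => by
        simp only [sub_dotProduct, smul_dotProduct, smul_eq_mul]
        rw [hUf p hpm.le, hβU p hpm.le 0 (by omega), hβU p hpm.le m le_rfl, if_neg (by omega),
          if_neg (by omega)]
        ring)
      (by
        rw [← hA, ← hA', hAA, two_smul]
        abel)
    rw [← hA, ← hA'] at hrel
    have k1 := congrArg (fun z => z ⬝ᵥ D.vc (v 0)) hrel
    have k2 := congrArg (fun z => z ⬝ᵥ D.vc (v m)) hrel
    have k3 := congrArg (fun z => z ⬝ᵥ D.vc (u₀ (v 0))) hrel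
    have k4 := congrArg (fun z => z ⬝ᵥ D.vc (u₀ (v m))) hrel
    simp only [add_dotProduct, sub_dotProduct, smul_dotProduct, smul_eq_mul, zero_dotProduct, a1, a2,
      a3, a4, a5, a6, a7, a8, b1, b2, b3, b4, b5, b6, b7, b8, c1, c2, f0, ht] at k1 k2 k3 k4
    have l1 : x + c = 0 := (mul_eq_zero.1 (show s 0 * (x + c) = 0 by linarith)).resolve_left s0
    have l2 : c - x = 0 := (mul_eq_zero.1 (show s m * (c - x) = 0 by linarith)).resolve_left sm
    have l3 : y + c' = 0 := (mul_eq_zero.1 (show s 0 * (y + c') = 0 by linarith)).resolve_left s0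
    have l4 : c' - y = 0 := (mul_eq_zero.1 (show s m * (c' - y) = 0 by linarith)).resolve_left sm
    omega
  · refine ⟨ht, ?_⟩
    have hg : f + s m • β m ∈ D.E := by
      have h3 := transl D f hf (v 0) (v 0) (v m) (u₀ (v m)) rfl (hu2 _).symm h0m f0' f1
      rw [f0, ht, D.rt_self, smul_zero, sub_zero, neg_smul, sub_neg_eq_add] at h3
      exact h3
    have hg' : f - s 0 • β 0 ∈ D.E := by
      have h3 := transl D f hf (v 0) (u₀ (v 0)) (v m) (v m) (hu2 _).symm rfl h0m f0' f1
      rw [f0, ht, D.rt_self, smul_zero, sub_zero] at h3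
      exact h3
    obtain ⟨x, y, c, c', hne, hrel⟩ := E2_rel D.toCfg m hm s hs0 e e' (fun p => D.vc (v p))
      (fun p => D.vc (u₀ (v p))) (f + s m • β m) (f - s 0 • β 0) (s 0 • β 0) hE hE' hg hg' hVe hUe
      hVe' hUe'
      (fun p hp hpm => by
        simp only [add_dotProduct, smul_dotProduct, smul_eq_mul]
        rw [hVf p hp hpm, hβV p hpm.le m le_rfl, if_neg (by omega)]
        ring)
      (fun p hp hpm => by
        simp only [add_dotProduct, smul_dotProduct, smul_eq_mul]
        rw [hUf p hpm.le, hβU p hpm.le m le_rfl, if_neg (by omega)]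
        ring)
      (fun p hp hpm => by
        simp only [sub_dotProduct, smul_dotProduct, smul_eq_mul]
        rw [hVf p hp hpm, hβV p hpm.le 0 (by omega), if_neg (by omega)]
        ring)
      (fun p hp hpm => by
        simp only [sub_dotProduct, smul_dotProduct, smul_eq_mul]
        rw [hUf p hpm.le, hβU p hpm.le 0 (by omega), if_neg (by omega)]
        ring)
      (by
        rw [← hA, ← hA', hAA, two_smul]
        abel)
    rw [← hA, ← hA'] at hrel
    have k1 := congrArg (fun z => z ⬝ᵥ D.vc (v 0)) hrel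
    have k2 := congrArg (fun z => z ⬝ᵥ D.vc (v m)) hrel
    have k3 := congrArg (fun z => z ⬝ᵥ D.vc (u₀ (v 0))) hrel
    have k4 := congrArg (fun z => z ⬝ᵥ D.vc (u₀ (v m))) hrel
    simp only [add_dotProduct, sub_dotProduct, smul_dotProduct, smul_eq_mul, zero_dotProduct, a1, a2,
      a3, a4, a5, a6, a7, a8, b1, b2, b3, b4, b5, b6, b7, b8, c1, c2, f0, ht] at k1 k2 k3 k4
    have l1 : x + c = 0 := (mul_eq_zero.1 (show s 0 * (x + c) = 0 by linarith)).resolve_left s0
    have l2 : x + c' = 0 := (mul_eq_zero.1 (show s m * (x + c') = 0 by linarith)).resolve_left sm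
    have l3 : y + c' = 0 := (mul_eq_zero.1 (show s 0 * (y + c') = 0 by linarith)).resolve_left s0
    have l4 : y + c = 0 := (mul_eq_zero.1 (show s m * (y + c) = 0 by linarith)).resolve_left sm
    have e1 : c = -x := by omega
    have e2 : c' = -x := by omega
    have e3 : y = x := by omega
    rw [e1, e2, e3] at hrel hne
    have hx : x ≠ 0 := by omega
    have h5 : (x * 2) • (A - f) = 0 := by
      have h6 : x • A + x • A' + -x • (f + s m • β m) + -x • (f - s 0 • β 0) =
          (x * 2) • (A - f) - x • (A - A' - (s 0 • β 0 - s m • β m)) := by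
        module
      rw [h6, hAA, sub_self, smul_zero, sub_zero] at hrel
      exact hrel
    rcases smul_eq_zero.1 h5 with h6 | h6
    · omega
    · exact (sub_eq_zero.1 h6).symm

end LibQC51
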