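import Pool.Agent.LibQC51.E2

/-!
QC51 E3 (MEDIUM/STRONG).  Closed walks of signed blocks have sum 0, and never change the sign.
PLAN.  Function form: from Wk p l x get n, P : ℕ → D.I × ℤˣ, e : ℕ → Fin r → ℤ with P 0 = p, P n = l, Stp (P q) (P (q+1)) (e q) for q < n, x = ∑_{q<n} e q (induction on Wk). Claim by strong induction on n: if (P n).1 = (P 0).1 then P n = P 0 and ∑_{q<n} e q = 0 (for n = 0 trivial).
n = 1: impossible (Stp has p.1 ≠ q.1). n ≥ 2. If there are i < j ≤ n with (i, j) ≠ (0, n) and (P i).1 = (P j).1: the segment i..j has length j - i < n: by induction P i = P j and its sum is 0; the walk with the segment removed (P' q = if q ≤ i then P q else P (q + (j - i)), e' accordingly) has length n - (j - i) < n (if j - i = n excluded) and closes: done, adding the sums (Finset.sum_range splitting). (The induction claim for the shorter walk gives P n = P 0 too.)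
Otherwise the blocks of P 0, ..., P (n-1) are pairwise different: path_key with m = n - 1 ≥ 1, v q = rep (P q).1, s q = (P q).2, e q, and f := - e (n-1) if P n = P 0 (value - (e (n-1) ⬝ᵥ vc rep (P n).1) = (P 0).2 on v 0, - s (n-1) ≠ 0 on v (n-1)): f = ∑_{q<n-1} e q, so the total sum is 0.
If P n = ((P 0).1, - (P 0).2): f := e (n-1): value (P 0).2 on v 0, value s (n-1) on v (n-1): path_key says it is - s (n-1): contradiction. (In ℤˣ: (P n).2 = (P 0).2 or (P n).2 = - (P 0).2: Int.units_eq_one_or.)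
trans, symm (use - e: D.neg), flip: easy inductions. blk_rep gives D.blk (rep (P q).1) = (P q).1.
-/

set_option autoImplicit false

namespace LibQC51

open scoped Matrix

namespace VD

variable {r : ℕ} (D : VD r)

theorem wk_trans {p q l : D.I × ℤˣ} {x y : Fin r → ℤ} (h : D.Wk p q x) (h' : D.Wk q l y) :
    D.Wk p l (x + y) := by
  induction h with
  | nil p => rw [zero_add]; exact h'
  | cons p q l' e x hs _ ih =>
    rw [add_assoc]
    exact Wk.cons p q l e (x + y) hs (ih h')

private theorem stp_symm {p q : D.I × ℤˣ} {e : Fin r → ℤ} (h : D.Stp p q e) :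
    D.Stp q p (-e) := by
  obtain ⟨h1, h2, h3, h4⟩ := h
  refine ⟨D.neg e h1, h2.symm, ?_, ?_⟩
  · rw [neg_dotProduct, h4, neg_neg]
  · rw [neg_dotProduct, h3]

private theorem stp_flip {p q : D.I × ℤˣ} {e : Fin r → ℤ} (h : D.Stp p q e) :
    D.Stp (p.1, -p.2) (q.1, -q.2) (-e) := by
  obtain ⟨h1, h2, h3, h4⟩ := h
  refine ⟨D.neg e h1, h2, ?_, ?_⟩
  · rw [neg_dotProduct, h3, Units.val_neg]
  · rw [neg_dotProduct, h4, Units.val_neg]

theorem wk_symm {p q : D.I × ℤˣ} {x : Fin r → ℤ} (h : D.Wk p q x) : D.Wk q p (-x) := by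
  induction h with
  | nil p => rw [neg_zero]; exact Wk.nil p
  | cons p q l e x hs _ ih =>
    have h1 : D.Wk q p (-e + 0) := Wk.cons q p p (-e) 0 (stp_symm D hs) (Wk.nil p)
    have h2 := wk_trans D ih h1
    have h3 : -x + (-e + 0) = -(e + x) := by
      rw [add_zero, neg_add]
      exact add_comm _ _
    rw [h3] at h2
    exact h2

theorem wk_flip {p q : D.I × ℤˣ} {x : Fin r → ℤ} (h : D.Wk p q x) :
    D.Wk (p.1, -p.2) (q.1, -q.2) (-x) := by
  induction h with
  | nil p => rw [neg_zero]; exact Wk.nil _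
  | cons p q l e x hs _ ih =>
    rw [neg_add]
    exact Wk.cons _ _ _ (-e) (-x) (stp_flip D hs) ih

private theorem wk_fun {p l : D.I × ℤˣ} {x : Fin r → ℤ} (h : D.Wk p l x) :
    ∃ (n : ℕ) (P : ℕ → D.I × ℤˣ) (e : ℕ → Fin r → ℤ), P 0 = p ∧ P n = l ∧
      (∀ q < n, D.Stp (P q) (P (q + 1)) (e q)) ∧ x = ∑ q ∈ Finset.range n, e q := by
  induction h with
  | nil p =>
    exact ⟨0, fun _ => p, fun _ => 0, rfl, rfl, fun q hq => absurd hq (Nat.not_lt_zero q), by simp⟩
  | cons p q l e x hs _ ih =>
    obtain ⟨n, P, f, h0, h1, h2, h3⟩ := ih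
    refine ⟨n + 1, fun k => if k = 0 then p else P (k - 1), fun k => if k = 0 then e else f (k - 1),
      ?_, ?_, ?_, ?_⟩
    · simp
    · simp [h1]
    · intro k hk
      rcases Nat.eq_zero_or_pos k with rfl | hk0
      · simp only [if_true, zero_add, Nat.one_ne_zero, if_false, Nat.sub_self]
        rw [h0]
        exact hs
      · have e1 : ¬ k = 0 := by omega
        have e2 : ¬ k + 1 = 0 := by omega
        simp only [e1, e2, if_false]
        have e3 : k + 1 - 1 = k - 1 + 1 := by omega
        rw [e3]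
        exact h2 (k - 1) (by omega)
    · rw [Finset.sum_range_succ']
      simp only [if_true, Nat.add_sub_cancel]
      have e1 : ∑ k ∈ Finset.range n, (if k + 1 = 0 then e else f k) =
          ∑ k ∈ Finset.range n, f k := by
        refine Finset.sum_congr rfl fun k _ => ?_
        rw [if_neg (Nat.succ_ne_zero k)]
      rw [e1, ← h3]
      exact add_comm _ _

private theorem unit_pm (s : ℤˣ) : (s : ℤ) = 1 ∨ (s : ℤ) = -1 := by
  rcases Int.units_eq_one_or s with h | h
  · left; rw [h]; rfl
  · right; rw [h]; rfl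

private theorem closed_fun (n : ℕ) : ∀ (P : ℕ → D.I × ℤˣ) (e : ℕ → Fin r → ℤ),
    (∀ q < n, D.Stp (P q) (P (q + 1)) (e q)) → (P n).1 = (P 0).1 →
      P n = P 0 ∧ ∑ q ∈ Finset.range n, e q = 0 := by
  induction n using Nat.strong_induction_on with
  | _ n ih =>
  intro P e hst hcl
  rcases Nat.eq_zero_or_pos n with rfl | hn
  · exact ⟨rfl, by simp⟩
  by_cases hrep : ∃ i j, i < j ∧ j ≤ n ∧ ¬ (i = 0 ∧ j = n) ∧ (P i).1 = (P j).1
  · obtain ⟨i, j, hij, hjn, hne, hP⟩ := hrep
    obtain ⟨d, hd⟩ : ∃ d, j = i + d := ⟨j - i, by omega⟩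
    obtain ⟨k, hk⟩ : ∃ k, n = i + d + k := ⟨n - j, by omega⟩
    have hd1 : 1 ≤ d := by omega
    have hdn : d < n := by omega
    have hikn : i + k < n := by omega
    rw [hd] at hP
    obtain ⟨hs1, hs2⟩ := ih d hdn (fun q => P (i + q)) (fun q => e (i + q))
      (fun q hq => hst (i + q) (by omega)) (by
        change (P (i + d)).1 = (P (i + 0)).1
        rw [Nat.add_zero]
        exact hP.symm)
    change P (i + d) = P (i + 0) at hs1
    rw [Nat.add_zero] at hs1
    have hPend : (if i + k ≤ i then P (i + k) else P (i + k + d)) = P n := by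
      by_cases h : i + k ≤ i
      · rw [if_pos h]
        have hk0 : k = 0 := by omega
        rw [hk, hk0, Nat.add_zero, Nat.add_zero, hs1]
      · rw [if_neg h, hk]
        congr 1
        omega
    obtain ⟨ht1, ht2⟩ := ih (i + k) hikn (fun q => if q ≤ i then P q else P (q + d))
      (fun q => if q < i then e q else e (q + d)) (by
        intro q hq
        change D.Stp (if q ≤ i then P q else P (q + d))
          (if q + 1 ≤ i then P (q + 1) else P (q + 1 + d)) (if q < i then e q else e (q + d))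
        rcases lt_trichotomy q i with h | h | h
        · rw [if_pos h.le, if_pos (Nat.succ_le_of_lt h), if_pos h]
          exact hst q (by omega)
        · subst h
          rw [if_pos le_rfl, if_neg (by omega), if_neg (lt_irrefl _), ← hs1]
          have e1 : q + 1 + d = q + d + 1 := by omega
          rw [e1]
          exact hst (q + d) (by omega)
        · rw [if_neg (by omega), if_neg (by omega), if_neg (by omega)]
          have e1 : q + 1 + d = q + d + 1 := by omega
          rw [e1]
          exact hst (q + d) (by omega)) (by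
        change (if i + k ≤ i then P (i + k) else P (i + k + d)).1 = (if 0 ≤ i then P 0 else P (0 + d)).1
        rw [hPend, if_pos (Nat.zero_le i)]
        exact hcl)
    change (if i + k ≤ i then P (i + k) else P (i + k + d)) = (if 0 ≤ i then P 0 else P (0 + d)) at ht1
    rw [hPend, if_pos (Nat.zero_le i)] at ht1
    refine ⟨ht1, ?_⟩
    rw [Finset.sum_range_add] at ht2
    have e1 : ∑ q ∈ Finset.range i, (if q < i then e q else e (q + d)) =
        ∑ q ∈ Finset.range i, e q := by
      refine Finset.sum_congr rfl fun q hq => ?_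
      rw [if_pos (Finset.mem_range.1 hq)]
    have e2 : ∑ q ∈ Finset.range k, (if i + q < i then e (i + q) else e (i + q + d)) =
        ∑ q ∈ Finset.range k, e (i + d + q) := by
      refine Finset.sum_congr rfl fun q _ => ?_
      rw [if_neg (by omega)]
      congr 1
      omega
    rw [e1, e2] at ht2
    rw [hk, Finset.sum_range_add, Finset.sum_range_add, hs2, add_zero]
    exact ht2
  · push Not at hrep
    have hn2 : n ≠ 1 := by
      rintro rfl
      exact (hst 0 hn).2.1 hcl.symm
    obtain ⟨m, hm⟩ : ∃ m, n = m + 1 := ⟨n - 1, by omega⟩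
    subst hm
    have hm1 : 1 ≤ m := by omega
    have hdiff : ∀ p ≤ m, ∀ q ≤ m, p ≠ q →
        D.blk (D.rep (P p).1) ≠ D.blk (D.rep (P q).1) := by
      intro p hp q hq hpq
      rw [D.blk_rep, D.blk_rep]
      rcases lt_or_gt_of_ne hpq with h | h
      · exact hrep p q h (by omega) (by intro _; omega)
      · exact fun h' => hrep q p h (by omega) (by intro _; omega) h'.symm
    have hlast := hst m (Nat.lt_succ_self m)
    obtain ⟨l1, l2, l3, l4⟩ := hlast
    have hpk := path_key D m hm1 (fun q => D.rep (P q).1) (fun q => ((P q).2 : ℤ)) e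
      (fun q _ => unit_pm (P q).2) hdiff (fun q hq => (hst q (by omega)).1)
      (fun q hq => (hst q (by omega)).2.2.1) (fun q hq => (hst q (by omega)).2.2.2)
    have hsm := unit_pm (P m).2
    have hcase : (P (m + 1)).2 = (P 0).2 ∨ (P (m + 1)).2 = -(P 0).2 := by
      rcases Int.units_eq_one_or (P (m + 1)).2 with h | h <;>
        rcases Int.units_eq_one_or (P 0).2 with h' | h' <;> rw [h, h'] <;> simp
    rw [hcl] at l4
    rcases hcase with h | h
    · have hf := hpk (-(e m)) (D.neg _ l1) (by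
        change -(e m) ⬝ᵥ D.vc (D.rep (P 0).1) = ((P 0).2 : ℤ)
        rw [neg_dotProduct, l4, neg_neg, h]) (by
        change -(e m) ⬝ᵥ D.vc (D.rep (P m).1) ≠ 0
        rw [neg_dotProduct, l3]
        rcases hsm with h | h <;> rw [h] <;> norm_num)
      refine ⟨Prod.ext hcl h, ?_⟩
      rw [Finset.sum_range_succ, ← hf.2]
      exact neg_add_cancel _
    · exfalso
      have hf := hpk (e m) l1 (by
        change (e m) ⬝ᵥ D.vc (D.rep (P 0).1) = ((P 0).2 : ℤ)
        rw [l4, h, Units.val_neg, neg_neg]) (by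
        change (e m) ⬝ᵥ D.vc (D.rep (P m).1) ≠ 0
        rw [l3]
        rcases hsm with h | h <;> rw [h] <;> norm_num)
      have hf1 : (e m) ⬝ᵥ D.vc (D.rep (P m).1) = -((P m).2 : ℤ) := hf.1
      rw [l3] at hf1
      rcases hsm with h | h <;> rw [h] at hf1 <;> norm_num at hf1

theorem wk_closed {p q : D.I × ℤˣ} {x : Fin r → ℤ} (h : D.Wk p q x) (hpq : p.1 = q.1) :
    p = q ∧ x = 0 := by
  obtain ⟨n, P, e, h0, h1, h2, h3⟩ := wk_fun D h
  have hc := closed_fun D n P e h2 (by rw [h0, h1]; exact hpq.symm)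
  rw [h0, h1] at hc
  exact ⟨hc.1.symm, h3.trans hc.2⟩

open Classical in
private theorem stp_all {p q : D.I × ℤˣ} {e : Fin r → ℤ} (h : D.Stp p q e) (v : D.V) :
    e ⬝ᵥ D.vc v = (if v = D.rep p.1 then (p.2 : ℤ) else 0) -
      (if v = D.rep q.1 then (q.2 : ℤ) else 0) := by
  obtain ⟨h1, h2, h3, h4⟩ := h
  have hne : D.rep p.1 ≠ D.rep q.1 := by
    intro h
    apply h2
    rw [← D.blk_rep p.1, h, D.blk_rep]
  have n3 : e ⬝ᵥ D.vc (D.rep p.1) ≠ 0 := by
    rw [h3]
    exact p.2.ne_zero
  have n4 : e ⬝ᵥ D.vc (D.rep q.1) ≠ 0 := by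
    rw [h4]
    exact neg_ne_zero.2 q.2.ne_zero
  by_cases hv : v = D.rep p.1
  · rw [if_pos hv, if_neg (by rw [hv]; exact hne), hv, h3, sub_zero]
  · rw [if_neg hv]
    by_cases hw : v = D.rep q.1
    · rw [if_pos hw, hw, h4, zero_sub]
    · rw [if_neg hw, sub_zero]
      by_cases b1 : D.blk (D.rep p.1) = D.blk v
      · exact (D.one e h1 (D.rep p.1) v b1 (Ne.symm hv)).resolve_left n3
      · by_cases b2 : D.blk (D.rep q.1) = D.blk v
        · exact (D.one e h1 (D.rep q.1) v b2 (Ne.symm hw)).resolve_left n4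
        · have b3 : D.blk (D.rep p.1) ≠ D.blk (D.rep q.1) := by
            rw [D.blk_rep, D.blk_rep]
            exact h2
          exact ((two_blocks D e h1 (D.rep p.1) (D.rep q.1) v b3 b1 b2).resolve_left
            n3).resolve_left n4

open Classical in
private theorem wk_all {p q : D.I × ℤˣ} {x : Fin r → ℤ} (h : D.Wk p q x) (v : D.V) :
    x ⬝ᵥ D.vc v = (if v = D.rep p.1 then (p.2 : ℤ) else 0) -
      (if v = D.rep q.1 then (q.2 : ℤ) else 0) := by
  induction h with
  | nil p => rw [zero_dotProduct, sub_self]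
  | cons p q l e x hs _ ih =>
    rw [add_dotProduct, ih, stp_all D hs v]
    ring

/-- the values of the sum of a walk -/
theorem wk_val {p q : D.I × ℤˣ} {x : Fin r → ℤ} (h : D.Wk p q x) (hpq : p.1 ≠ q.1) :
    x ⬝ᵥ D.vc (D.rep p.1) = (p.2 : ℤ) ∧ x ⬝ᵥ D.vc (D.rep q.1) = -(q.2 : ℤ) ∧
      ∀ v, v ≠ D.rep p.1 → v ≠ D.rep q.1 → x ⬝ᵥ D.vc v = 0 := by
  classical
  have hne : D.rep p.1 ≠ D.rep q.1 := by
    intro h
    apply hpq
    rw [← D.blk_rep p.1, h, D.blk_rep]
  refine ⟨?_, ?_, fun v h1 h2 => ?_⟩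
  · rw [wk_all D h, if_pos rfl, if_neg hne, sub_zero]
  · rw [wk_all D h, if_pos rfl, if_neg hne.symm, zero_sub]
  · rw [wk_all D h, if_neg h1, if_neg h2, sub_zero]

end VD

end LibQC51
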