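import Pool.Agent.LibQC51.E3

/-!
QC51 E4 (MEDIUM/STRONG).  Potentials.
PLAN.  Setoid on I: i ~ j iff ∃ s t x, Wk (i, s) (j, t) x (refl: nil; symm: wk_symm; trans: adjust the sign by wk_flip, then wk_trans). J := Quotient, comp := mk, b (c : J) := Quotient.out c : I. For i with comp i = c: choose s i : ℤˣ and y i with Wk (i, s i) (b c, 1) (y i) (flip if the sign at b is -1). For i = b c: s = 1, y = 0 by wk_closed.
fr c := ∃ e ∈ E, ∃ v, comp (blk v) = c ∧ e ⬝ᵥ vc v ≠ 0 ∧ ∀ u, blk u ≠ blk v → e ⬝ᵥ vc u = 0. For framed c choose such e, v; translate to the representative ρ = rep (blk v) : g := e - (e ⬝ᵥ vc v) • rt v ρ ∈ E (D.refl and D.one); values: g ⬝ᵥ vc ρ = e ⬝ᵥ vc v = ± 1, 0 elsewhere; let i0 = blk v; g0 c := (s i0 * (g ⬝ᵥ vc ρ)) • g, so that s i0 * (g0 ⬝ᵥ vc ρ) = 1; and f c := g0 c - y i0 : values in signed coordinates: the unit vector of ρ minus (unit of ρ - unit of rep (b c)) = unit vector of rep (b c) (if i0 = b c then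 y i0 = 0).
w v := y (blk v) + (if framed then f (comp (blk v)) else 0) - (s (blk v)) • rt (rep (blk v)) v. base c := rep (b c).
Values: y i in signed coordinates (s (blk u) * (y i ⬝ᵥ vc u)) = [u = rep i] - [u = rep (b c)] (wk_val, or 0 if i = b c); s i • rt (rep i) v in signed coordinates = [u = rep i] - [u = v]. So w1, w2 (unit of v, minus unit of base in the unframed case). w2b: blk base = b c, comp (b c) = c, w (base) = y (b c) - s • rt ρ ρ = 0 (rt_self).
w3: w v - w u = s • (rt ρ u - rt ρ v) = s • rt v u by rt_add. w5: definition of fr.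
w4: e meets v, u in different blocks i, j. D.val: values ± 1. Translate: e' := e - (e ⬝ᵥ vc v) • rt v (rep i) - (e ⬝ᵥ vc u) • rt u (rep j) ∈ E (transl), value e ⬝ᵥ vc v =: a on rep i, a' := e ⬝ᵥ vc u on rep j. Stp (i, a) (j, -a') e'. So comp i = comp j. If s i = a (as units; otherwise use - e): Wk (i, s i) (j, -a') e' and Wk (j, s j) (b, 1) (y j); if -a' = - s j then flipping: Wk (j, -s j) (b, -1) (- y j), so Wk (i, s i) (b, -1) _ , together with Wk (i, s i) (b, 1) (y i): closed walk (b, 1) to (b, -1): contradiction to wk_closed. So -a' = s j, a a' ... : s i a + s j a' = 1 - 1 = 0, and e' + y j = y i by wk_closed. Then a s i = 1: e' = y i - y j, e = e' + a rt v ρ_i + a' rt u ρ_j = y i - y j + s i • rt v ρ_i - s j • rt u ρ_j = w v - w u (rt v ρ = - rt ρ v by rt_add, rt_self; the framing terms cancel since comp i = comp j).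
-/

set_option autoImplicit false

namespace LibQC51

open scoped Matrix

private theorem E4_unit {x : ℤ} (h : |x| ≤ 1) (h0 : x ≠ 0) : ∃ α : ℤˣ, (α : ℤ) = x := by
  have h1 : x = 1 ∨ x = -1 := by
    rw [abs_le] at h
    omega
  rcases h1 with rfl | rfl
  · exact ⟨1, rfl⟩
  · exact ⟨-1, rfl⟩

private theorem E4_sq (α : ℤˣ) : (α : ℤ) * (α : ℤ) = 1 := by
  rw [← Units.val_mul, Int.units_mul_self]
  rfl

private theorem E4_neg {s t : ℤˣ} (h : t ≠ s) : -s = t := by
  rcases Int.units_eq_one_or t with h3 | h3 <;> rcases Int.units_eq_one_or s with h4 | h4 <;> simp_all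

open scoped Classical in
private theorem E4_rt {r : ℕ} (D : VD r) (v u w : D.V) (h : D.blk v = D.blk u) :
    D.rt v u ⬝ᵥ D.vc w = (if w = v then 1 else 0) - (if w = u then 1 else 0) := by
  by_cases hvu : v = u
  · subst hvu
    rw [D.rt_self, zero_dotProduct, sub_self]
  · by_cases h1 : w = v
    · subst h1
      rw [if_pos rfl, if_neg hvu, D.rt_left w u h hvu, sub_zero]
    · by_cases h2 : w = u
      · subst h2
        rw [if_neg h1, if_pos rfl, D.rt_right v w h hvu, zero_sub]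
      · rw [if_neg h1, if_neg h2, D.rt_eval v u w h h1 h2, sub_zero]

open scoped Classical in
private theorem E4_blk {r : ℕ} (D : VD r) {e : Fin r → ℤ} (he : e ∈ D.E) {v : D.V} (h : e ⬝ᵥ D.vc v ≠ 0)
    (w : D.V) (hw : D.blk w = D.blk v) : e ⬝ᵥ D.vc w = if w = v then e ⬝ᵥ D.vc v else 0 := by
  split_ifs with h1
  · rw [h1]
  · rcases D.one e he v w hw.symm (Ne.symm h1) with h2 | h2
    · exact absurd h2 h
    · exact h2

private def E4_R {r : ℕ} (D : VD r) : Setoid D.I where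
  r i j := ∃ s t x, D.Wk (i, s) (j, t) x
  iseqv := {
    refl := fun i => ⟨1, 1, 0, VD.Wk.nil (i, 1)⟩
    symm := by
      rintro i j ⟨s, t, x, h⟩
      exact ⟨t, s, -x, D.wk_symm h⟩
    trans := by
      rintro i j l ⟨s, t, x, h⟩ ⟨s', t', y, h'⟩
      by_cases hh : t = s'
      · subst hh
        exact ⟨s, t', x + y, D.wk_trans h h'⟩
      · have h2 : -s' = t := E4_neg hh
        have h5 : D.Wk (j, -s') (l, -t') (-y) := D.wk_flip h'
        rw [h2] at h5
        exact ⟨s, -t', x + -y, D.wk_trans h h5⟩ }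

private theorem E4_choose {r : ℕ} (D : VD r) :
    ∃ (J : Type) (comp : D.I → J) (b : J → D.I) (s : D.I → ℤˣ) (y : D.I → Fin r → ℤ),
      (∀ c, comp (b c) = c) ∧ (∀ i, D.Wk (i, s i) (b (comp i), 1) (y i)) ∧
      (∀ i j s t x, D.Wk (i, s) (j, t) x → comp i = comp j) := by
  let C : D.I → Quotient (E4_R D) := fun i => Quotient.mk (E4_R D) i
  have h1 : ∀ i j, C i = C j → ∃ s t x, D.Wk (i, s) (j, t) x := by
    intro i j h
    exact Quotient.exact h
  have hb : ∀ c : Quotient (E4_R D), C (Quotient.out c) = c := fun c => Quotient.out_eq c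
  have h2 : ∀ i, ∃ (s : ℤˣ) (y : Fin r → ℤ), D.Wk (i, s) (Quotient.out (C i), 1) y := by
    intro i
    obtain ⟨s, t, x, h⟩ := h1 i (Quotient.out (C i)) (hb (C i)).symm
    by_cases ht : (1 : ℤˣ) = t
    · rw [← ht] at h
      exact ⟨s, x, h⟩
    · have h3 : -t = 1 := E4_neg ht
      have h4 : D.Wk (i, -s) (Quotient.out (C i), -t) (-x) := D.wk_flip h
      rw [h3] at h4
      exact ⟨-s, -x, h4⟩
  choose s y hsy using h2
  refine ⟨Quotient (E4_R D), C, fun c => Quotient.out c, s, y, hb, hsy, ?_⟩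
  intro i j s t x h
  exact Quotient.sound (s := E4_R D) ⟨s, t, x, h⟩

section

variable {r : ℕ} (D : VD r) {J : Type} (comp : D.I → J) (b : J → D.I) (s : D.I → ℤˣ)
  (y : D.I → Fin r → ℤ)

private theorem E4_base (hw : ∀ i, D.Wk (i, s i) (b (comp i), 1) (y i)) (i : D.I) (hi : i = b (comp i)) :
    s i = 1 ∧ y i = 0 := by
  obtain ⟨h1, h2⟩ := D.wk_closed (hw i) hi
  exact ⟨(Prod.mk.inj h1).2, h2⟩

open scoped Classical in
private theorem E4_y (hb : ∀ c, comp (b c) = c) (hw : ∀ i, D.Wk (i, s i) (b (comp i), 1) (y i)) (i : D.I)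
    (u : D.V) : (s (D.blk u) : ℤ) * (y i ⬝ᵥ D.vc u) =
      (if u = D.rep i then 1 else 0) - (if u = D.rep (b (comp i)) then 1 else 0) := by
  by_cases hi : i = b (comp i)
  · rw [(E4_base D comp b s y hw i hi).2, zero_dotProduct, mul_zero, ← hi, sub_self]
  · obtain ⟨h1, h2, h3⟩ := D.wk_val (hw i) hi
    have hne : D.rep i ≠ D.rep (b (comp i)) := by
      intro h
      have h4 := congrArg D.blk h
      rw [D.blk_rep, D.blk_rep] at h4
      exact hi h4
    by_cases hu1 : u = D.rep i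
    · subst hu1
      rw [if_pos rfl, if_neg hne, D.blk_rep]
      change y i ⬝ᵥ D.vc (D.rep i) = (s i : ℤ) at h1
      rw [h1, E4_sq, sub_zero]
    · by_cases hu2 : u = D.rep (b (comp i))
      · subst hu2
        rw [if_neg hu1, if_pos rfl, D.blk_rep]
        change y i ⬝ᵥ D.vc (D.rep (b (comp i))) = -((1 : ℤˣ) : ℤ) at h2
        have h5 : s (b (comp i)) = 1 :=
          (E4_base D comp b s y hw (b (comp i)) (by rw [hb])).1
        rw [h2, h5]
        simp
      · rw [if_neg hu1, if_neg hu2]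
        have h6 : y i ⬝ᵥ D.vc u = 0 := h3 u hu1 hu2
        rw [h6, mul_zero, sub_zero]

open scoped Classical in
private theorem E4_r (v u : D.V) : (s (D.blk u) : ℤ) * (((s (D.blk v) : ℤ) • D.rt (D.rep (D.blk v)) v) ⬝ᵥ D.vc u) =
      (if u = D.rep (D.blk v) then 1 else 0) - (if u = v then 1 else 0) := by
  rw [smul_dotProduct, E4_rt D (D.rep (D.blk v)) v u (D.blk_rep _), smul_eq_mul]
  by_cases hb : D.blk u = D.blk v
  · rw [hb, ← mul_assoc, E4_sq, one_mul]
  · have h1 : u ≠ D.rep (D.blk v) := by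
      rintro rfl
      exact hb (D.blk_rep _)
    have h2 : u ≠ v := by
      rintro rfl
      exact hb rfl
    rw [if_neg h1, if_neg h2, sub_self, mul_zero, mul_zero]

open scoped Classical in
private theorem E4_f (hb : ∀ c, comp (b c) = c) (hw : ∀ i, D.Wk (i, s i) (b (comp i), 1) (y i)) (c : J)
    (h : ∃ e ∈ D.E, ∃ v, comp (D.blk v) = c ∧ e ⬝ᵥ D.vc v ≠ 0 ∧ ∀ u, D.blk u ≠ D.blk v → e ⬝ᵥ D.vc u = 0) :
    ∃ f : Fin r → ℤ, ∀ u, (s (D.blk u) : ℤ) * (f ⬝ᵥ D.vc u) = if u = D.rep (b c) then 1 else 0 := by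
  obtain ⟨e, he, v, hc, hv, hu⟩ := h
  obtain ⟨α, hα⟩ := E4_unit (D.val e he v) hv
  set ρ := D.rep (D.blk v) with hρ
  have hbl : D.blk v = D.blk ρ := (D.blk_rep _).symm
  have hev : ∀ u, e ⬝ᵥ D.vc u = if u = v then (α : ℤ) else 0 := by
    intro u
    by_cases h1 : D.blk u = D.blk v
    · rw [E4_blk D he hv u h1, hα]
    · rw [hu u h1, if_neg]
      rintro rfl
      exact h1 rfl
  have hg : ∀ u, (e - (α : ℤ) • D.rt v ρ) ⬝ᵥ D.vc u = if u = ρ then (α : ℤ) else 0 := by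
    intro u
    rw [sub_dotProduct, smul_dotProduct, hev, E4_rt D v ρ u hbl, smul_eq_mul]
    split_ifs <;> ring
  refine ⟨((s (D.blk v) : ℤ) * (α : ℤ)) • (e - (α : ℤ) • D.rt v ρ) - y (D.blk v), ?_⟩
  intro u
  rw [sub_dotProduct, smul_dotProduct, hg, smul_eq_mul, mul_sub, E4_y D comp b s y hb hw (D.blk v) u, hc, ← hρ]
  by_cases h1 : u = ρ
  · have h2 : D.blk u = D.blk v := by rw [h1, hbl]
    rw [if_pos h1, if_pos h1, h2]
    have h3 := E4_sq (s (D.blk v))
    have h4 := E4_sq α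
    have h5 : (s (D.blk v) : ℤ) * ((s (D.blk v) : ℤ) * (α : ℤ) * (α : ℤ)) = 1 := by
      calc (s (D.blk v) : ℤ) * ((s (D.blk v) : ℤ) * (α : ℤ) * (α : ℤ))
          = ((s (D.blk v) : ℤ) * (s (D.blk v) : ℤ)) * ((α : ℤ) * (α : ℤ)) := by ring
        _ = 1 := by rw [h3, h4, one_mul]
    rw [h5]
    ring
  · rw [if_neg h1, if_neg h1]
    ring

private theorem E4_tr (e : Fin r → ℤ) (he : e ∈ D.E) (v u : D.V) (hvu : D.blk v ≠ D.blk u)
    (hv : e ⬝ᵥ D.vc v ≠ 0) (hu : e ⬝ᵥ D.vc u ≠ 0) (α β : ℤˣ) (hα : (α : ℤ) = e ⬝ᵥ D.vc v)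
    (hβ : (β : ℤ) = e ⬝ᵥ D.vc u) :
    D.Stp (D.blk v, α) (D.blk u, -β)
      (e - (α : ℤ) • D.rt v (D.rep (D.blk v)) - (β : ℤ) • D.rt u (D.rep (D.blk u))) := by
  classical
  have hbv : D.blk v = D.blk (D.rep (D.blk v)) := (D.blk_rep _).symm
  have hbu : D.blk u = D.blk (D.rep (D.blk u)) := (D.blk_rep _).symm
  have n1 : D.rep (D.blk v) ≠ D.rep (D.blk u) := by
    intro h
    have h4 := congrArg D.blk h
    rw [D.blk_rep, D.blk_rep] at h4
    exact hvu h4
  have n2 : D.rep (D.blk v) ≠ u := by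
    intro h
    have h4 := congrArg D.blk h
    rw [D.blk_rep] at h4
    exact hvu h4
  have n3 : D.rep (D.blk u) ≠ v := by
    intro h
    have h4 := congrArg D.blk h
    rw [D.blk_rep] at h4
    exact hvu h4.symm
  refine ⟨?_, hvu, ?_, ?_⟩
  · rw [hα, hβ]
    exact transl D e he v (D.rep (D.blk v)) u (D.rep (D.blk u)) hbv hbu hvu hv hu
  · change (e - (α : ℤ) • D.rt v (D.rep (D.blk v)) - (β : ℤ) • D.rt u (D.rep (D.blk u))) ⬝ᵥ
      D.vc (D.rep (D.blk v)) = (α : ℤ)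
    rw [sub_dotProduct, sub_dotProduct, smul_dotProduct, smul_dotProduct, smul_eq_mul, smul_eq_mul,
      E4_rt D v _ _ hbv, E4_rt D u _ _ hbu, if_pos rfl, if_neg n2, if_neg n1,
      E4_blk D he hv _ hbv.symm, ← hα]
    split_ifs <;> ring
  · change (e - (α : ℤ) • D.rt v (D.rep (D.blk v)) - (β : ℤ) • D.rt u (D.rep (D.blk u))) ⬝ᵥ
      D.vc (D.rep (D.blk u)) = -((-β : ℤˣ) : ℤ)
    rw [sub_dotProduct, sub_dotProduct, smul_dotProduct, smul_dotProduct, smul_eq_mul, smul_eq_mul,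
      E4_rt D v _ _ hbv, E4_rt D u _ _ hbu, if_pos rfl, if_neg n3, if_neg n1.symm,
      E4_blk D he hu _ hbu.symm, ← hβ, Units.val_neg]
    split_ifs <;> ring

private theorem E4_sgn (hw : ∀ i, D.Wk (i, s i) (b (comp i), 1) (y i)) (i j : D.I) (hij : comp i = comp j)
    (α β : ℤˣ) (e' : Fin r → ℤ) (h : D.Stp (i, α) (j, -β) e') :
    (s j : ℤ) * (β : ℤ) = -((s i : ℤ) * (α : ℤ)) ∧ ((s i : ℤ) * (α : ℤ)) • e' = y i - y j := by
  have hwi := hw i
  have hwj := hw j
  rw [hij] at hwi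
  set c := b (comp j) with hc
  have h1 : D.Wk (i, α) (j, -β) e' := by
    have h2 := VD.Wk.cons (D := D) (i, α) (j, -β) (j, -β) e' 0 h (VD.Wk.nil _)
    rwa [add_zero] at h2
  -- the general closing argument
  have key : ∀ (γ : ℤˣ) (x : Fin r → ℤ), D.Wk (i, s i) (j, γ) x → γ = s j ∧ x = y i - y j := by
    intro γ x hx
    have hi' : D.Wk (c, 1) (i, s i) (-y i) := D.wk_symm hwi
    by_cases hγ : γ = s j
    · subst hγ
      obtain ⟨-, h3⟩ := D.wk_closed (D.wk_trans hi' (D.wk_trans hx hwj)) rfl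
      refine ⟨rfl, ?_⟩
      have h4 : x = (-y i + (x + y j)) + (y i - y j) := by abel
      rw [h3, zero_add] at h4
      exact h4
    · exfalso
      have h5 : -(s j) = γ := E4_neg hγ
      have h6 : D.Wk (j, -(s j)) (c, -1) (-y j) := D.wk_flip hwj
      rw [h5] at h6
      obtain ⟨h7, -⟩ := D.wk_closed (D.wk_trans hi' (D.wk_trans hx h6)) rfl
      have h8 : (1 : ℤˣ) = -1 := (Prod.mk.inj h7).2
      exact absurd h8 (by decide)
  by_cases hα : α = s i
  · subst hα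
    obtain ⟨h2, h3⟩ := key _ _ h1
    have h4 := E4_sq (s i)
    have h5 := E4_sq β
    refine ⟨?_, ?_⟩
    · rw [h4, ← h2, Units.val_neg, neg_mul, h5]
    · rw [h4, one_smul, h3]
  · have h6 : -(s i) = α := E4_neg hα
    have h7 : D.Wk (i, -α) (j, - -β) (-e') := D.wk_flip h1
    have h8 : -α = s i := by rw [← h6, neg_neg]
    rw [h8] at h7
    obtain ⟨h2, h3⟩ := key _ _ h7
    have h4 := E4_sq (s i)
    have h5 := E4_sq β
    rw [neg_neg] at h2
    have h9 : (s i : ℤ) * (α : ℤ) = -1 := by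
      rw [← h6, Units.val_neg, mul_neg, h4]
    refine ⟨?_, ?_⟩
    · rw [h9, ← h2, h5, neg_neg]
    · rw [h9, neg_one_smul, h3]

end

theorem pot_ex {r : ℕ} (D : VD r) : Nonempty (Pot D) := by
  classical
  obtain ⟨J, comp, b, s, y, hb, hw, hR⟩ := E4_choose D
  let fr : J → Prop := fun c => ∃ e ∈ D.E, ∃ v, comp (D.blk v) = c ∧ e ⬝ᵥ D.vc v ≠ 0 ∧
    ∀ u, D.blk u ≠ D.blk v → e ⬝ᵥ D.vc u = 0
  have hf : ∀ c, ∃ f : Fin r → ℤ, (fr c → ∀ u, (s (D.blk u) : ℤ) * (f ⬝ᵥ D.vc u) =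
      if u = D.rep (b c) then 1 else 0) ∧ (¬ fr c → f = 0) := by
    intro c
    by_cases h : fr c
    · obtain ⟨f, h1⟩ := E4_f D comp b s y hb hw c h
      exact ⟨f, fun _ => h1, fun h2 => absurd h h2⟩
    · exact ⟨0, fun h2 => absurd h2 h, fun _ => rfl⟩
  choose f hf1 hf2 using hf
  let w : D.V → Fin r → ℤ := fun v =>
    y (D.blk v) + f (comp (D.blk v)) - (s (D.blk v) : ℤ) • D.rt (D.rep (D.blk v)) v
  have hval : ∀ v u, (s (D.blk u) : ℤ) * (w v ⬝ᵥ D.vc u) =
      ((if u = D.rep (D.blk v) then 1 else 0) - (if u = D.rep (b (comp (D.blk v))) then 1 else 0)) +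
      (s (D.blk u) : ℤ) * (f (comp (D.blk v)) ⬝ᵥ D.vc u) -
      ((if u = D.rep (D.blk v) then 1 else 0) - (if u = v then 1 else 0)) := by
    intro v u
    change (s (D.blk u) : ℤ) * ((y (D.blk v) + f (comp (D.blk v)) -
      (s (D.blk v) : ℤ) • D.rt (D.rep (D.blk v)) v) ⬝ᵥ D.vc u) = _
    rw [sub_dotProduct, add_dotProduct, mul_sub, mul_add, E4_y D comp b s y hb hw, E4_r D s v u]
  refine ⟨Pot.mk J comp fr s w (fun c => D.rep (b c)) ?_ ?_ ?_ ?_ ?_ ?_⟩
  · intro v hv u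
    rw [hval, hf1 _ hv u]
    ring
  · intro v hv u
    rw [hval, hf2 _ hv, zero_dotProduct, mul_zero]
    ring
  · intro v hv
    have h1 : comp (D.blk (D.rep (b (comp (D.blk v))))) = comp (D.blk v) := by
      rw [D.blk_rep, hb]
    refine ⟨h1, ?_⟩
    change y (D.blk (D.rep (b (comp (D.blk v))))) + f (comp (D.blk (D.rep (b (comp (D.blk v)))))) -
      (s (D.blk (D.rep (b (comp (D.blk v))))) : ℤ) •
        D.rt (D.rep (D.blk (D.rep (b (comp (D.blk v)))))) (D.rep (b (comp (D.blk v)))) = 0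
    rw [h1, hf2 _ hv, D.blk_rep, D.rt_self, smul_zero, sub_zero, add_zero]
    exact (E4_base D comp b s y hw (b (comp (D.blk v))) (by rw [hb])).2
  · intro v u hvu
    change y (D.blk v) + f (comp (D.blk v)) - (s (D.blk v) : ℤ) • D.rt (D.rep (D.blk v)) v -
      (y (D.blk u) + f (comp (D.blk u)) - (s (D.blk u) : ℤ) • D.rt (D.rep (D.blk u)) u) = _
    rw [← hvu]
    have h1 := D.rt_add (D.rep (D.blk v)) v u (D.blk_rep _) hvu
    rw [← h1, smul_add]
    abel
  · intro e he v u hvu hv hu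
    obtain ⟨α, hα⟩ := E4_unit (D.val e he v) hv
    obtain ⟨β, hβ⟩ := E4_unit (D.val e he u) hu
    have hst := E4_tr D e he v u hvu hv hu α β hα hβ
    have hcomp : comp (D.blk v) = comp (D.blk u) :=
      hR _ _ _ _ _ (VD.Wk.cons (D := D) _ _ _ _ 0 hst (VD.Wk.nil _))
    obtain ⟨h1, h2⟩ := E4_sgn D comp b s y hw _ _ hcomp α β _ hst
    refine ⟨hcomp, ?_, ?_⟩
    · rw [← hα, ← hβ, h1]
      ring
    · have hsa : (s (D.blk v) : ℤ) * (α : ℤ) * (α : ℤ) = (s (D.blk v) : ℤ) := by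
        rw [mul_assoc, E4_sq, mul_one]
      have hsb : (s (D.blk v) : ℤ) * (α : ℤ) * (β : ℤ) = -(s (D.blk u) : ℤ) := by
        have h3 : (s (D.blk v) : ℤ) * (α : ℤ) = -((s (D.blk u) : ℤ) * (β : ℤ)) := by rw [h1, neg_neg]
        rw [h3, neg_mul, mul_assoc, E4_sq, mul_one]
      rw [← hα]
      change _ = y (D.blk v) + f (comp (D.blk v)) - (s (D.blk v) : ℤ) • D.rt (D.rep (D.blk v)) v -
        (y (D.blk u) + f (comp (D.blk u)) - (s (D.blk u) : ℤ) • D.rt (D.rep (D.blk u)) u)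
      have r1 : D.rt (D.rep (D.blk v)) v = -D.rt v (D.rep (D.blk v)) := by
        have h4 := D.rt_add (D.rep (D.blk v)) v (D.rep (D.blk v)) (D.blk_rep _) (D.blk_rep _).symm
        rw [D.rt_self] at h4
        exact eq_neg_of_add_eq_zero_left h4
      have r2 : D.rt (D.rep (D.blk u)) u = -D.rt u (D.rep (D.blk u)) := by
        have h4 := D.rt_add (D.rep (D.blk u)) u (D.rep (D.blk u)) (D.blk_rep _) (D.blk_rep _).symm
        rw [D.rt_self] at h4
        exact eq_neg_of_add_eq_zero_left h4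
      rw [hcomp, r1, r2]
      rw [smul_sub, smul_sub, smul_smul, smul_smul, hsa, hsb] at h2
      have h5 : ((s (D.blk v) : ℤ) * (α : ℤ)) • e = (y (D.blk v) - y (D.blk u)) +
          (s (D.blk v) : ℤ) • D.rt v (D.rep (D.blk v)) +
          (-(s (D.blk u) : ℤ)) • D.rt u (D.rep (D.blk u)) := by
        rw [← h2]
        abel
      rw [h5, neg_smul, smul_neg, smul_neg]
      abel
  · intro e he v hv hu
    exact ⟨e, he, v, rfl, hv, hu⟩

end LibQC51
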