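import Pool.Agent.LibQC51.E1

/-!
QC51 F1 (MEDIUM/STRONG).  The quiver form.
PLAN.  Signed coordinates: ev x : D.V → ℤ, ev x v = (P.s (D.blk v) : ℤ) * (x ⬝ᵥ D.vc v). X2 := {x : ∀ v, x ⬝ᵥ D.vc v = 0}, a submodule of ℤ^r: free of finite rank (Submodule.basisOfPid / Module.finBasis): linear equivalence b : X2 ≃ (Fin s → ℤ). π x := x - ∑ v, ev x v • P.w v ∈ X2: ev (π x) u = ev x u - ∑ v, ev x v * (signed value of w v at u) = 0 : for u in a framed component the only contribution is v = u (w1); for u in an unframed component c: contributions [u = v] - [u = base c] for v in c, sum = ev x u - [u = base c] ∑_{v in c} ev x v, and ∑_{v in c} ev x v = 0.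
(v in another component contributes 0 at u: u ≠ v, u ≠ base of the component of v by w2b.) The last sum: the cocharacter K_c := ∑_{v in c} (s (blk v)) • vc v is orthogonal to all e ∈ E: e meets at most two blocks, one vertex in each (D.one, two_blocks); if it meets two blocks: both in one component and the signed values cancel (w4); if it meets exactly one block, the component is framed (w5), so not c. E spans (span_E / ex_ne): K_c = 0.
ψ x := (ev x, b (π x)), additive; injective: ev x = 0 and π x = 0 give x = 0. range_iff: → by K_c = 0; ← given (l, z): x := ∑ l v • w v + b⁻¹ z; ev x = l (framed: unit vectors; unframed: l u - [u = base] ∑ l = l u), π x = b⁻¹ z.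
two: D.two. root_iff: R.root i = D.rt v u (h1); D.rt v u = s • (w v - w u) (w3, s = ± 1); so ψ (D.rt v u) = (± (unit v - unit u), 0) (π is 0: π (w v - w u) = w v - w u - ∑ ev (w v - w u) v' • w v' = 0 in both cases: framed: ev (w v) = unit v; unframed: ev (w v) = unit v - unit base, w base = 0). If the sign is -1, swap v and u. ← : given v ≠ u in one block, one of D.rt v u, D.rt u v = - D.rt v u has image (unit v - unit u, 0) and it is a root (h2), ψ injective.
coroot: root i = D.rt v' u' with coroot vc v' - vc u'; ψ gives unit v - unit u = s (unit v' - unit u'): v = v', u = u', s = 1 or v = u', u = v', s = -1 (s the sign of the block); x ⬝ᵥ (vc v' - vc u') = s (ev x v' - ev x u').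
wt: a k ∈ E. (i) a k orthogonal to all vc v: ε = 1, ψ (a k) = (0, b (a k)), nonzero since a k ≠ 0 and ψ is injective. (ii) meets exactly one block, at v: ε := s (blk v) * (a k ⬝ᵥ vc v) = ± 1, ε a k has signed coordinates unit v; framed by w5. (iii) meets two blocks at v, u: w4 : ε • a k = w v - w u with ε = s (blk v) * (a k ⬝ᵥ vc v), so ψ = (unit v - unit u, 0) as for the roots.
-/

set_option autoImplicit false

namespace LibQC51

open scoped Matrix

section aux

open scoped Classical

variable {r : ℕ} {D : VD r}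

/-- signed coordinates -/
private noncomputable def F1_ev (P : Pot D) : (Fin r → ℤ) →ₗ[ℤ] (D.V → ℤ) where
  toFun x v := (P.s (D.blk v) : ℤ) * (x ⬝ᵥ D.vc v)
  map_add' x y := by
    funext v
    simp only [Pi.add_apply, add_dotProduct]
    ring
  map_smul' c x := by
    funext v
    simp only [Pi.smul_apply, smul_dotProduct, smul_eq_mul, RingHom.id_apply]
    ring

private theorem F1_ev_apply (P : Pot D) (x : Fin r → ℤ) (v : D.V) :
    F1_ev P x v = (P.s (D.blk v) : ℤ) * (x ⬝ᵥ D.vc v) := rfl

private theorem F1_ev_zero (P : Pot D) {x : Fin r → ℤ} {v : D.V} (h : x ⬝ᵥ D.vc v = 0) :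
    F1_ev P x v = 0 := by
  rw [F1_ev_apply, h, mul_zero]

private theorem F1_KE (P : Pot D) (e : Fin r → ℤ) (he : e ∈ D.E) (j : P.J) (hj : ¬ P.fr j) :
    ∑ v : D.V, (if P.comp (D.blk v) = j then F1_ev P e v else 0) = 0 := by
  by_cases h : ∃ v, P.comp (D.blk v) = j ∧ e ⬝ᵥ D.vc v ≠ 0
  · obtain ⟨v, hv, hev⟩ := h
    obtain ⟨u, hu, heu⟩ : ∃ u, D.blk u ≠ D.blk v ∧ e ⬝ᵥ D.vc u ≠ 0 := by
      by_contra hcon
      push Not at hcon
      exact hj (hv ▸ P.w5 e he v hev hcon)
    obtain ⟨hc, hs, -⟩ := P.w4 e he v u (Ne.symm hu) hev heu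
    have hne : v ≠ u := fun h => hu (h ▸ rfl)
    rw [Fintype.sum_eq_add v u hne, if_pos hv, if_pos (hc ▸ hv), F1_ev_apply, F1_ev_apply]
    · exact hs
    · rintro w ⟨hwv, hwu⟩
      have hw : e ⬝ᵥ D.vc w = 0 := by
        by_cases h1 : D.blk w = D.blk v
        · exact (D.one e he w v h1 hwv).resolve_right hev
        · by_cases h2 : D.blk w = D.blk u
          · exact (D.one e he w u h2 hwu).resolve_right heu
          · rcases two_blocks D e he v u w (Ne.symm hu) (Ne.symm h1) (Ne.symm h2) with h3 | h3 | h3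
            · exact absurd h3 hev
            · exact absurd h3 heu
            · exact h3
      rw [F1_ev_zero P hw, ite_self]
  · push Not at h
    refine Finset.sum_eq_zero fun v _ => ?_
    split_ifs with hv
    · exact F1_ev_zero P (h v hv)
    · rfl

private theorem F1_K (P : Pot D) (x : Fin r → ℤ) (j : P.J) (hj : ¬ P.fr j) :
    ∑ v : D.V, (if P.comp (D.blk v) = j then F1_ev P x v else 0) = 0 := by
  have hx : x ∈ Submodule.span ℤ (D.E : Set (Fin r → ℤ)) := by
    rw [span_E D.toCfg]
    trivial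
  induction hx using Submodule.span_induction with
  | mem e he => exact F1_KE P e he j hj
  | zero =>
    refine Finset.sum_eq_zero fun v _ => ?_
    rw [map_zero, Pi.zero_apply, ite_self]
  | add x y _ _ hx hy =>
    have h1 : ∀ v : D.V, (if P.comp (D.blk v) = j then F1_ev P (x + y) v else 0) =
        (if P.comp (D.blk v) = j then F1_ev P x v else 0) +
          (if P.comp (D.blk v) = j then F1_ev P y v else 0) := by
      intro v
      rw [map_add, Pi.add_apply]
      split_ifs
      · rfl
      · rfl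
    rw [Finset.sum_congr rfl fun v _ => h1 v, Finset.sum_add_distrib, hx, hy, add_zero]
  | smul c x _ hx =>
    have h1 : ∀ v : D.V, (if P.comp (D.blk v) = j then F1_ev P (c • x) v else 0) =
        c * (if P.comp (D.blk v) = j then F1_ev P x v else 0) := by
      intro v
      rw [map_smul, Pi.smul_apply, smul_eq_mul]
      split_ifs
      · rfl
      · rw [mul_zero]
    rw [Finset.sum_congr rfl fun v _ => h1 v, ← Finset.mul_sum, hx, mul_zero]

/-- the correction at the base -/
private noncomputable def F1_B (P : Pot D) (v u : D.V) : ℤ :=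
  if P.fr (P.comp (D.blk v)) then 0 else if u = P.base (P.comp (D.blk v)) then 1 else 0

private theorem F1_w (P : Pot D) (v u : D.V) :
    F1_ev P (P.w v) u = (if u = v then 1 else 0) - F1_B P v u := by
  rw [F1_ev_apply, F1_B]
  by_cases h : P.fr (P.comp (D.blk v))
  · rw [if_pos h, sub_zero]
    exact P.w1 v h u
  · rw [if_neg h]
    exact P.w2 v h u

private theorem F1_sumB (P : Pot D) (l : D.V → ℤ)
    (hl : ∀ j, ¬ P.fr j → ∑ v : D.V, (if P.comp (D.blk v) = j then l v else 0) = 0) (u : D.V) :
    ∑ v, l v * F1_B P v u = 0 := by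
  by_cases hu : ∃ v, ¬ P.fr (P.comp (D.blk v)) ∧ u = P.base (P.comp (D.blk v))
  · obtain ⟨v0, h1, h2⟩ := hu
    have hcu : P.comp (D.blk u) = P.comp (D.blk v0) := by
      rw [h2]
      exact (P.w2b v0 h1).1
    rw [← hl _ h1]
    refine Finset.sum_congr rfl fun v _ => ?_
    rw [F1_B]
    by_cases hv : P.comp (D.blk v) = P.comp (D.blk v0)
    · rw [if_pos hv, hv, if_neg h1, if_pos h2, mul_one]
    · rw [if_neg hv]
      by_cases hf : P.fr (P.comp (D.blk v))
      · rw [if_pos hf, mul_zero]
      · rw [if_neg hf]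
        by_cases hb : u = P.base (P.comp (D.blk v))
        · exfalso
          apply hv
          have h3 := (P.w2b v hf).1
          rw [← hb, hcu] at h3
          exact h3.symm
        · rw [if_neg hb, mul_zero]
  · push Not at hu
    refine Finset.sum_eq_zero fun v _ => ?_
    rw [F1_B]
    by_cases hf : P.fr (P.comp (D.blk v))
    · rw [if_pos hf, mul_zero]
    · rw [if_neg hf, if_neg (hu v hf), mul_zero]

/-- linear combinations of the potentials -/
private noncomputable def F1_W (P : Pot D) : (D.V → ℤ) →ₗ[ℤ] (Fin r → ℤ) :=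
  Fintype.linearCombination ℤ P.w

private theorem F1_evW (P : Pot D) (l : D.V → ℤ)
    (hl : ∀ j, ¬ P.fr j → ∑ v : D.V, (if P.comp (D.blk v) = j then l v else 0) = 0) :
    F1_ev P (F1_W P l) = l := by
  funext u
  rw [F1_W, Fintype.linearCombination_apply, map_sum, Finset.sum_apply]
  have h1 : ∀ v, F1_ev P (l v • P.w v) u = l v * (if u = v then 1 else 0) - l v * F1_B P v u := by
    intro v
    rw [map_smul, Pi.smul_apply, smul_eq_mul, F1_w, mul_sub]
  rw [Finset.sum_congr rfl fun v _ => h1 v, Finset.sum_sub_distrib, F1_sumB P l hl u, sub_zero]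
  simp

/-- the projection -/
private noncomputable def F1_pi (P : Pot D) : (Fin r → ℤ) →ₗ[ℤ] (Fin r → ℤ) :=
  LinearMap.id - F1_W P ∘ₗ F1_ev P

private theorem F1_pi_apply (P : Pot D) (x : Fin r → ℤ) : F1_pi P x = x - F1_W P (F1_ev P x) := rfl

private theorem F1_pi_mem (P : Pot D) (x : Fin r → ℤ) : F1_pi P x ∈ LinearMap.ker (F1_ev P) := by
  rw [LinearMap.mem_ker, F1_pi_apply, map_sub, F1_evW P _ (F1_K P x), sub_self]

private theorem F1_diff (P : Pot D) (v u : D.V) (h : P.comp (D.blk v) = P.comp (D.blk u)) :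
    F1_ev P (P.w v - P.w u) = Pi.single v 1 - Pi.single u 1 := by
  funext y
  rw [map_sub, Pi.sub_apply, Pi.sub_apply, F1_w, F1_w, Pi.single_apply, Pi.single_apply, F1_B, F1_B, h]
  ring

private theorem F1_pidiff (P : Pot D) (v u : D.V) (h : P.comp (D.blk v) = P.comp (D.blk u)) :
    F1_pi P (P.w v - P.w u) = 0 := by
  rw [F1_pi_apply, F1_diff P v u h, map_sub, F1_W, Fintype.linearCombination_apply_single,
    Fintype.linearCombination_apply_single, one_smul, one_smul, sub_self]

private theorem F1_rt_swap (D : VD r) (v u : D.V) (h : D.blk v = D.blk u) : D.rt u v = - D.rt v u := by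
  have h1 := D.rt_add v u v h h.symm
  rw [D.rt_self] at h1
  exact (neg_eq_of_add_eq_zero_right h1).symm

private theorem F1_unit (s : ℤˣ) (m : ℤ) (h1 : |m| ≤ 1) (h0 : m ≠ 0) :
    ∃ ε : ℤˣ, (ε : ℤ) = (s : ℤ) * m ∧ (ε : ℤ) * ((s : ℤ) * m) = 1 := by
  have h2 : m = 1 ∨ m = -1 := by
    rw [abs_le] at h1
    omega
  rcases Int.units_eq_one_or s with rfl | rfl <;> rcases h2 with rfl | rfl
  · exact ⟨1, by simp, by simp⟩
  · exact ⟨-1, by simp, by simp⟩
  · exact ⟨-1, by simp, by simp⟩
  · exact ⟨1, by simp, by simp⟩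

end aux

open scoped Classical in
theorem qform_of {r n : ℕ} {ι : Type} (R : RootDat r ι) (a : Fin n → Fin r → ℤ) (D : VD r)
    (ha : ∀ k, a k ∈ D.E) (h0 : ∀ k, a k ≠ 0)
    (h1 : ∀ i, ∃ v u, v ≠ u ∧ D.blk v = D.blk u ∧ R.root i = D.rt v u ∧
      R.coroot i = D.vc v - D.vc u)
    (h2 : ∀ v u, v ≠ u → D.blk v = D.blk u → ∃ i, R.root i = D.rt v u ∧
      R.coroot i = D.vc v - D.vc u) (P : Pot D) : Nonempty (QForm R a) := by
  obtain ⟨s, b⟩ : Σ s : ℕ, (LinearMap.ker (F1_ev P) ≃ₗ[ℤ] (Fin s → ℤ)) :=
    ⟨_, (Module.finBasis ℤ (LinearMap.ker (F1_ev P))).equivFun⟩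
  let ψ : (Fin r → ℤ) →ₗ[ℤ] (D.V → ℤ) × (Fin s → ℤ) :=
    (F1_ev P).prod (b.toLinearMap ∘ₗ LinearMap.codRestrict _ (F1_pi P) (F1_pi_mem P))
  have hψ : ∀ x, ψ x = (F1_ev P x, b ⟨F1_pi P x, F1_pi_mem P x⟩) := fun x => rfl
  have hinj : Function.Injective ψ := by
    intro x y hxy
    have h3 : ψ (x - y) = 0 := by rw [map_sub, hxy, sub_self]
    rw [hψ, Prod.mk_eq_zero] at h3
    have h4 : F1_pi P (x - y) = 0 := by
      have h5 := b.injective (h3.2.trans (map_zero b).symm)
      exact congrArg Subtype.val h5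
    rw [F1_pi_apply, h3.1, map_zero, sub_zero] at h4
    exact sub_eq_zero.1 h4
  have hdiff : ∀ v u, P.comp (D.blk v) = P.comp (D.blk u) →
      ψ (P.w v - P.w u) = (Pi.single v 1 - Pi.single u 1, 0) := by
    intro v u h
    rw [hψ, F1_diff P v u h]
    have h5 : (⟨F1_pi P (P.w v - P.w u), F1_pi_mem P _⟩ : LinearMap.ker (F1_ev P)) = 0 :=
      Subtype.ext (F1_pidiff P v u h)
    rw [h5, map_zero]
  have hrt : ∀ v u, D.blk v = D.blk u → ψ (D.rt v u) =
      (P.s (D.blk v) : ℤ) • (Pi.single v 1 - Pi.single u 1, (0 : Fin s → ℤ)) := by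
    intro v u h
    rw [← hdiff v u (by rw [h]), ← map_smul, P.w3 v u h, smul_smul]
    rcases Int.units_eq_one_or (P.s (D.blk v)) with h4 | h4 <;> rw [h4] <;> simp
  refine ⟨{
    V := D.V
    I := D.I
    J := P.J
    fV := D.fV
    dV := fun a b => Classical.propDecidable (a = b)
    dJ := fun a b => Classical.propDecidable (a = b)
    blk := D.blk
    comp := P.comp
    fr := P.fr
    s := s
    ψ := ψ.toAddMonoidHom
    inj := hinj
    range_iff := ?_
    two := D.two
    root_iff := ?_
    coroot := ?_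
    wt := ?_ }⟩
  · intro l z
    constructor
    · rintro ⟨x, hx⟩ j hj
      have h3 : ψ x = (l, z) := hx
      rw [hψ, Prod.mk.injEq] at h3
      rw [← h3.1]
      exact F1_K P x j hj
    · intro hl
      refine ⟨F1_W P l + (b.symm z : Fin r → ℤ), ?_⟩
      show ψ _ = _
      have h4 : F1_ev P (b.symm z : Fin r → ℤ) = 0 := (b.symm z).2
      have h3 : F1_ev P (F1_W P l + (b.symm z : Fin r → ℤ)) = l := by
        rw [map_add, F1_evW P l hl, h4, add_zero]
      rw [hψ, Prod.mk.injEq]
      refine ⟨h3, ?_⟩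
      have h5 : (⟨F1_pi P (F1_W P l + (b.symm z : Fin r → ℤ)), F1_pi_mem P _⟩ :
          LinearMap.ker (F1_ev P)) = b.symm z := by
        refine Subtype.ext ?_
        show F1_pi P _ = _
        rw [F1_pi_apply, h3, add_sub_cancel_left]
      rw [h5, LinearEquiv.apply_symm_apply]
  · intro x
    constructor
    · rintro ⟨i, rfl⟩
      obtain ⟨v, u, hvu, hb, hr, -⟩ := h1 i
      have h3 := hrt v u hb
      rcases Int.units_eq_one_or (P.s (D.blk v)) with h4 | h4
      · refine ⟨v, u, hvu, hb, ?_⟩
        show ψ _ = _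
        rw [hr, h3, h4]
        simp
      · refine ⟨u, v, hvu.symm, hb.symm, ?_⟩
        show ψ _ = _
        rw [hr, h3, h4]
        simp
    · rintro ⟨v, u, hvu, hb, hx⟩
      have hx' : ψ x = (Pi.single v 1 - Pi.single u 1, 0) := hx
      rw [← hdiff v u (by rw [hb])] at hx'
      have h3 : x = P.w v - P.w u := hinj hx'
      rw [P.w3 v u hb] at h3
      rcases Int.units_eq_one_or (P.s (D.blk v)) with h4 | h4
      · obtain ⟨i, hi, -⟩ := h2 v u hvu hb
        refine ⟨i, ?_⟩
        rw [hi, h3, h4]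
        simp
      · obtain ⟨i, hi, -⟩ := h2 u v hvu.symm hb.symm
        refine ⟨i, ?_⟩
        rw [hi, h3, h4, F1_rt_swap D v u hb]
        simp
  · intro i v u hi hvu x
    have hi' : ψ (R.root i) = (Pi.single v 1 - Pi.single u 1, 0) := hi
    show x ⬝ᵥ R.coroot i = F1_ev P x v - F1_ev P x u
    obtain ⟨v', u', hvu', hb, hr, hcr⟩ := h1 i
    rw [hr, hrt v' u' hb] at hi'
    have h3 := congrArg Prod.fst hi'
    have e1 := congrFun h3 v
    have e2 := congrFun h3 u
    simp only [Prod.smul_mk, Pi.smul_apply, Pi.sub_apply, Pi.single_apply, smul_eq_mul] at e1 e2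
    rw [if_true, if_neg hvu] at e1
    rw [if_neg hvu.symm, if_true] at e2
    rw [hcr, dotProduct_sub, F1_ev_apply, F1_ev_apply]
    rcases Int.units_eq_one_or (P.s (D.blk v')) with h4 | h4
    · rw [h4] at e1 e2
      have hv : v = v' := by
        by_contra hne
        rw [if_neg hne] at e1
        split_ifs at e1 <;> simp at e1
      have hu : u = u' := by
        by_contra hne
        rw [if_neg hne] at e2
        split_ifs at e2 <;> simp at e2
      subst hv
      subst hu
      rw [← hb, h4]
      simp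
    · rw [h4] at e1 e2
      have hv : v = u' := by
        by_contra hne
        rw [if_neg hne] at e1
        split_ifs at e1 <;> simp at e1
      have hu : u = v' := by
        by_contra hne
        rw [if_neg hne] at e2
        split_ifs at e2 <;> simp at e2
      subst hv
      subst hu
      rw [← hb, h4]
      simp
      ring
  · intro k
    by_cases hz : ∀ v, a k ⬝ᵥ D.vc v = 0
    · refine ⟨1, Or.inl ⟨(ψ (a k)).2, ?_, ?_⟩⟩
      · intro h3
        have h4 : F1_ev P (a k) = 0 := by
          funext v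
          exact F1_ev_zero P (hz v)
        have h5 : ψ (a k) = 0 := Prod.ext h4 h3
        exact h0 k (hinj (h5.trans (map_zero ψ).symm))
      · show ψ _ = _
        have h4 : F1_ev P (a k) = 0 := by
          funext v
          exact F1_ev_zero P (hz v)
        rw [Units.val_one, one_smul]
        exact Prod.ext h4 rfl
    · push Not at hz
      obtain ⟨v, hv⟩ := hz
      obtain ⟨ε, hε, hε1⟩ := F1_unit (P.s (D.blk v)) (a k ⬝ᵥ D.vc v) (D.val _ (ha k) v) hv
      refine ⟨ε, Or.inr ?_⟩
      by_cases hu : ∀ u, D.blk u ≠ D.blk v → a k ⬝ᵥ D.vc u = 0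
      · refine Or.inl ⟨v, (ψ ((ε : ℤ) • a k)).2, P.w5 _ (ha k) v hv hu, ?_⟩
        show ψ _ = _
        refine Prod.ext ?_ rfl
        show F1_ev P ((ε : ℤ) • a k) = Pi.single v 1
        funext y
        rw [map_smul, Pi.smul_apply, smul_eq_mul, Pi.single_apply]
        by_cases hy : y = v
        · rw [if_pos hy, hy, F1_ev_apply]
          exact hε1
        · rw [if_neg hy]
          have h6 : a k ⬝ᵥ D.vc y = 0 := by
            by_cases hb : D.blk y = D.blk v
            · exact (D.one _ (ha k) y v hb hy).resolve_right hv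
            · exact hu y hb
          rw [F1_ev_zero P h6, mul_zero]
      · push Not at hu
        obtain ⟨u, hbu, hu⟩ := hu
        obtain ⟨hc, -, hw⟩ := P.w4 _ (ha k) v u (Ne.symm hbu) hv hu
        refine Or.inr ⟨v, u, Ne.symm hbu, hc, ?_⟩
        show ψ _ = _
        rw [hε, hw]
        exact hdiff v u hc

end LibQC51
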