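import Pool.Agent.LibQC51.Defs

/-!
QC51 G1 (MEDIUM).  Freeness of the torus gives the span condition.
PLAN.  star_of_free: let S ⊆ univ and c : Fin n → ℝ with ∑_{k ∈ S} c k * a k j = ξ j for all j. Put x k = √(c k) if k ∈ S and c k ≥ 0, y k = √(- c k) if k ∈ S and c k < 0, and 0 otherwise: InLevel a ξ x y (x k * y k = 0, normSq (x k) - normSq (y k) = c k on S, 0 outside; Complex.normSq_ofReal, Real.mul_self_sqrt).
If N := span ℤ {a k : k ∈ S} ≠ ⊤ there is a nontrivial character: the quotient (Fin r → ℤ) ⧸ N is not 0, so CharacterModule (exists_character_apply_ne_zero_of_ne_zero, Mathlib/Algebra/Module/CharacterModule.lean) gives χ : (Fin r → ℤ) ⧸ N →+ AddCircle (1 : ℚ), χ ≠ 0; compose with ℚ/ℤ → Circle (for instance AddCircle (1 : ℚ) → AddCircle (1 : ℝ) → Circle, AddCircle.toCircle, or build the map with QuotientAddGroup.lift from q ↦ Circle.exp (2 π q)); it is injective on ℚ/ℤ.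
t j := image of χ (Pi.single j 1); chr t b = image of χ (class of b) for all b (map_sum, zsmul). So chr t (a k) = 1 for k ∈ S, and (x k, y k) = 0 for k ∉ S: t fixes (x, y), FreeOn gives t = 1, so χ = 0: contradiction.
(Other proofs of the existence of a nontrivial t with t^b = 1 for b ∈ N, N ≠ ⊤, are welcome, e.g. Smith normal form.)
cfg_of: E := image of a on univ ∪ image of -a. RS S ξ for S ⊆ E: ξ = ∑_{b ∈ S} c b b; choose for every b ∈ S an index k with b = a k or b = - a k; collect: ξ = ∑_{k ∈ S'} c' k a k with S' = the set of the chosen indices, {a k : k ∈ S'} ⊆ S ∪ -S; star_of_free gives span = ⊤, so span S = ⊤ (closed under negation). ne: from hne: ξ j = ∑ (normSq x - normSq y) a k j.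
-/

set_option autoImplicit false

namespace LibQC51

open scoped Matrix

private theorem exists_char {r : ℕ} (N : Submodule ℤ (Fin r → ℤ)) (hN : N ≠ ⊤) :
    ∃ t : Fin r → Circle, t ≠ 1 ∧ ∀ b ∈ N, chr t b = 1 := by
  classical
  obtain ⟨v, hv⟩ : ∃ v, v ∉ N := by
    by_contra hcon
    push Not at hcon
    exact hN (by rw [Submodule.eq_top_iff']; exact hcon)
  have hv0 : (Submodule.Quotient.mk v : (Fin r → ℤ) ⧸ N) ≠ 0 := by
    intro h
    exact hv ((Submodule.Quotient.mk_eq_zero N).mp h)
  obtain ⟨c, hc⟩ := CharacterModule.exists_character_apply_ne_zero_of_ne_zero hv0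
  -- the embedding of `ℚ/ℤ` into the circle
  let g : ℚ →+ ℝ := (AddMonoidHom.mulLeft (2 * Real.pi)).comp (Rat.castHom ℝ).toAddMonoidHom
  let f : ℚ →+ Additive Circle := Circle.expHom.comp g
  have hfq : ∀ q : ℚ, f q = Additive.ofMul (Circle.exp (2 * Real.pi * (q : ℝ))) := fun q => rfl
  have hker : ∀ q : ℚ, f q = 0 ↔ ∃ n : ℤ, q = n := by
    intro q
    rw [hfq]
    have h1 : Additive.ofMul (Circle.exp (2 * Real.pi * (q : ℝ))) = 0 ↔
        Circle.exp (2 * Real.pi * (q : ℝ)) = 1 := Iff.rfl
    rw [h1, Circle.exp_eq_one]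
    constructor
    · rintro ⟨n, hn⟩
      refine ⟨n, ?_⟩
      have hpi : (2 * Real.pi) ≠ 0 := by positivity
      have h2 : (q : ℝ) = n := by
        have h3 : (2 * Real.pi) * (q : ℝ) = (2 * Real.pi) * (n : ℝ) := by rw [hn]; ring
        exact mul_left_cancel₀ hpi h3
      exact_mod_cast h2
    · rintro ⟨n, hn⟩
      refine ⟨n, ?_⟩
      rw [hn]
      push_cast
      ring
  have hle : AddSubgroup.zmultiples (1 : ℚ) ≤ f.ker := by
    intro x hx
    rw [AddSubgroup.mem_zmultiples_iff] at hx
    obtain ⟨k, hk⟩ := hx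
    rw [AddMonoidHom.mem_ker, hker]
    exact ⟨k, by rw [← hk]; simp⟩
  let θ : AddCircle (1 : ℚ) →+ Additive Circle := QuotientAddGroup.lift _ f hle
  have hθ : ∀ q : ℚ, θ (q : AddCircle (1 : ℚ)) = f q := fun q => rfl
  have hinj : ∀ x, θ x = 0 → x = 0 := by
    intro x hx
    induction x using QuotientAddGroup.induction_on with
    | H q =>
      have h1 : f q = 0 := hx
      rw [hker] at h1
      obtain ⟨n, hn⟩ := h1
      rw [QuotientAddGroup.eq_zero_iff, AddSubgroup.mem_zmultiples_iff]
      exact ⟨n, by rw [hn]; simp⟩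
  let F : (Fin r → ℤ) →+ Additive Circle := (θ.comp c).comp N.mkQ.toAddMonoidHom
  have hF : ∀ b, F b = θ (c (Submodule.Quotient.mk b)) := fun b => rfl
  refine ⟨fun j => Additive.toMul (F (Pi.single j 1)), ?_, ?_⟩
  · intro ht
    have hchr : F v = 0 := by
      have hdec : v = ∑ j, v j • (Pi.single j (1 : ℤ) : Fin r → ℤ) := by
        ext i
        simp [Finset.sum_apply, Pi.single_apply]
      rw [hdec, map_sum]
      apply Finset.sum_eq_zero
      intro j _
      rw [map_zsmul]
      have h1 := congrFun ht j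
      have h2 : F (Pi.single j 1) = 0 := h1
      rw [h2, smul_zero]
    exact hc (hinj _ (by rw [← hF]; exact hchr))
  · intro b hb
    have hdec : b = ∑ j, b j • (Pi.single j (1 : ℤ) : Fin r → ℤ) := by
      ext i
      simp [Finset.sum_apply, Pi.single_apply]
    have hFb : F b = 0 := by
      rw [hF]
      have h1 : (Submodule.Quotient.mk b : (Fin r → ℤ) ⧸ N) = 0 :=
        (Submodule.Quotient.mk_eq_zero N).mpr hb
      rw [h1, map_zero, map_zero]
    have h3 : chr (fun j => Additive.toMul (F (Pi.single j 1))) b = Additive.toMul (F b) := by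
      conv_rhs => rw [hdec, map_sum]
      unfold chr
      rw [toMul_sum]
      apply Finset.prod_congr rfl
      intro j _
      rw [map_zsmul]
      rfl
    rw [h3, hFb]
    rfl

theorem star_of_free {r n : ℕ} (a : Fin n → Fin r → ℤ) (ξ : Fin r → ℝ) (hf : FreeOn a ξ)
    (S : Finset (Fin n)) (c : Fin n → ℝ) (hc : ∀ j, ∑ k ∈ S, c k * (a k j : ℝ) = ξ j) :
    Submodule.span ℤ (a '' (S : Set (Fin n))) = ⊤ := by
  classical
  set x : Fin n → ℂ := fun k => if k ∈ S then ((Real.sqrt (c k) : ℝ) : ℂ) else 0 with hx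
  set y : Fin n → ℂ := fun k => if k ∈ S then ((Real.sqrt (-(c k)) : ℝ) : ℂ) else 0 with hy
  have hlev : InLevel a ξ x y := by
    constructor
    · intro j
      rw [← hc j, ← Finset.sum_subset (Finset.subset_univ S)]
      · apply Finset.sum_congr rfl
        intro k hk
        congr 1
        simp only [hx, hy, hk, if_true, Complex.normSq_ofReal]
        rcases le_total 0 (c k) with h | h
        · rw [Real.mul_self_sqrt h, Real.sqrt_eq_zero'.mpr (by linarith : -(c k) ≤ 0)]
          ring
        · rw [Real.mul_self_sqrt (by linarith : 0 ≤ -(c k)), Real.sqrt_eq_zero'.mpr h]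
          ring
      · intro k _ hk
        simp [hx, hy, hk]
    · intro j
      apply Finset.sum_eq_zero
      intro k _
      by_cases hk : k ∈ S
      · simp only [hx, hy, hk, if_true]
        rcases le_total 0 (c k) with h | h
        · rw [Real.sqrt_eq_zero'.mpr (by linarith : -(c k) ≤ 0)]
          simp
        · rw [Real.sqrt_eq_zero'.mpr h]
          simp
      · simp [hx, hk]
  by_contra hN
  obtain ⟨t, ht1, ht⟩ := exists_char _ hN
  apply ht1
  apply hf x y hlev t
  intro k
  by_cases hk : k ∈ S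
  · have h1 : chr t (a k) = 1 := ht _ (Submodule.subset_span ⟨k, hk, rfl⟩)
    rw [h1]
    simp
  · simp [hx, hy, hk]

theorem cfg_of {r n : ℕ} (a : Fin n → Fin r → ℤ) (ξ : Fin r → ℝ) (hf : FreeOn a ξ)
    (hne : ∃ x y, InLevel a ξ x y) :
    ∃ C : Cfg r, C.ξ = ξ ∧ ∀ b, b ∈ C.E ↔ ∃ k, b = a k ∨ b = - a k := by
  classical
  have key : ∀ S : Finset (Fin r → ℤ), (∀ b ∈ S, ∃ k, b = a k ∨ b = - a k) → RS S ξ →
      Submodule.span ℤ (S : Set (Fin r → ℤ)) = ⊤ := by
    intro S hS hRS
    obtain ⟨c, hc⟩ := hRS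
    rcases S.eq_empty_or_nonempty with hS0 | hS0
    · have h0 := star_of_free a ξ hf ∅ (fun _ => 0) (by
        intro j
        rw [← hc j, hS0]
        simp)
      rw [hS0]
      simpa using h0
    haveI : Nonempty (Fin n) := by
      obtain ⟨b, hb⟩ := hS0
      obtain ⟨k, _⟩ := hS b hb
      exact ⟨k⟩
    choose! K hK using hS
    set sg : (Fin r → ℤ) → ℝ := fun b => if b = a (K b) then 1 else -1 with hsg
    have hb : ∀ b ∈ S, ∀ j, (b j : ℝ) = sg b * (a (K b) j : ℝ) := by
      intro b hb j
      by_cases h : b = a (K b)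
      · simp only [hsg]
        rw [if_pos h, one_mul]
        exact congrArg (fun v : Fin r → ℤ => ((v j : ℤ) : ℝ)) h
      · have h2 : b = - a (K b) := (hK b hb).resolve_left h
        simp only [hsg]
        rw [if_neg h]
        have h3 : b j = -(a (K b) j) := congrFun h2 j
        rw [h3]
        push_cast
        ring
    have h1 := star_of_free a ξ hf (S.image K)
      (fun k => ∑ b ∈ S.filter (fun b => K b = k), c b * sg b) (by
        intro j
        rw [← hc j]
        rw [Finset.sum_image']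
        intro b hbS
        rw [Finset.sum_mul]
        apply Finset.sum_congr rfl
        intro b' hb'
        rw [Finset.mem_filter] at hb'
        rw [hb b' hb'.1 j, hb'.2]
        ring)
    rw [eq_top_iff, ← h1, Submodule.span_le]
    rintro _ ⟨k, hk, rfl⟩
    simp only [Finset.coe_image, Set.mem_image, Finset.mem_coe] at hk
    obtain ⟨b, hbS, rfl⟩ := hk
    rcases hK b hbS with h | h
    · rw [← h]
      exact Submodule.subset_span hbS
    · have h2 : a (K b) = - b := by
        rw [eq_comm, neg_eq_iff_eq_neg]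
        exact h
      rw [h2]
      exact Submodule.neg_mem _ (Submodule.subset_span hbS)
  refine ⟨⟨Finset.univ.image a ∪ Finset.univ.image (fun k => - a k), ξ, ?_, ?_, ?_⟩, rfl, ?_⟩
  · intro b hb
    simp only [Finset.mem_union, Finset.mem_image, Finset.mem_univ, true_and] at hb ⊢
    rcases hb with ⟨k, hk⟩ | ⟨k, hk⟩
    · exact Or.inr ⟨k, by rw [hk]⟩
    · exact Or.inl ⟨k, by rw [← hk, neg_neg]⟩
  · intro S hS hRS
    apply key S _ hRS
    intro b hb
    have h := hS hb
    simp only [Finset.mem_union, Finset.mem_image, Finset.mem_univ, true_and] at h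
    rcases h with ⟨k, hk⟩ | ⟨k, hk⟩
    · exact ⟨k, Or.inl hk.symm⟩
    · exact ⟨k, Or.inr hk.symm⟩
  · obtain ⟨x, y, hxy⟩ := hne
    -- distribute the coefficients over the elements of `E`
    refine ⟨fun b => ∑ k ∈ Finset.univ.filter (fun k => a k = b),
      (Complex.normSq (x k) - Complex.normSq (y k)), ?_⟩
    intro j
    rw [← hxy.1 j]
    have h2 : ∀ b ∈ (Finset.univ.image a ∪ Finset.univ.image (fun k => - a k)),
        b ∉ Finset.univ.image a →
        (∑ k ∈ Finset.univ.filter (fun k => a k = b),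
          (Complex.normSq (x k) - Complex.normSq (y k))) * (b j : ℝ) = 0 := by
      intro b _ hb
      rw [Finset.sum_eq_zero, zero_mul]
      intro k hk
      rw [Finset.mem_filter] at hk
      exact absurd (Finset.mem_image.mpr ⟨k, Finset.mem_univ k, hk.2⟩) hb
    rw [← Finset.sum_subset Finset.subset_union_left h2]
    rw [Finset.sum_image']
    intro k _
    rw [Finset.sum_mul]
    apply Finset.sum_congr rfl
    intro k' hk'
    rw [Finset.mem_filter] at hk'
    rw [hk'.2]
  · intro b
    simp only [Finset.mem_union, Finset.mem_image, Finset.mem_univ, true_and]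
    constructor
    · rintro (⟨k, hk⟩ | ⟨k, hk⟩)
      · exact ⟨k, Or.inl hk.symm⟩
      · exact ⟨k, Or.inr hk.symm⟩
    · rintro ⟨k, hk | hk⟩
      · exact Or.inl ⟨k, hk.symm⟩
      · exact Or.inr ⟨k, hk.symm⟩

end LibQC51
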