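import Pool.Agent.LibQC51.A3
import Pool.Agent.LibQC51.B3
import Pool.Agent.LibQC51.C5
import Pool.Agent.LibQC51.E4
import Pool.Agent.LibQC51.F1
import Pool.Agent.LibQC51.G1

/-!
LibQC51, assembly (helper51).
-/

set_option autoImplicit false

namespace LibQC51

open scoped Matrix

theorem main {r n : ℕ} {ι : Type} [Finite ι] (R : RootDat r ι) (a : Fin n → Fin r → ℤ)
    (hA : IsRep R a) (ξ : Fin r → ℝ) (hξ : ∀ i, ∑ j, ξ j * (R.coroot i j : ℝ) = 0)
    (hne : ∃ x y, InLevel a ξ x y) (hfree : FreeOn a ξ) (h0 : ∀ k, a k ≠ 0) :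
    Nonempty (QForm R a) := by
  obtain ⟨C, hCξ, hCE⟩ := cfg_of a ξ hfree hne
  have hmem : ∀ k, a k ∈ C.E := fun k => (hCE _).2 ⟨k, Or.inl rfl⟩
  have hz : (0 : Fin r → ℤ) ∉ C.E := by
    intro h
    obtain ⟨k, hk | hk⟩ := (hCE _).1 h
    · exact h0 k hk.symm
    · exact h0 k (by rw [← neg_neg (a k), ← hk, neg_zero])
  -- reflections
  have href0 : ∀ i, ∀ k, ∃ l, a l = a k - (a k ⬝ᵥ R.coroot i) • R.root i := by
    intro i k
    obtain ⟨σ, hσ⟩ := hA.perm i
    exact ⟨σ k, hσ k⟩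
  have href : ∀ i, ∀ b ∈ C.E, b - (b ⬝ᵥ R.coroot i) • R.root i ∈ C.E := by
    intro i b hb
    obtain ⟨k, hk | hk⟩ := (hCE _).1 hb
    · obtain ⟨l, hl⟩ := href0 i k
      rw [hk, ← hl]
      exact hmem l
    · obtain ⟨l, hl⟩ := href0 i k
      refine (hCE _).2 ⟨l, Or.inr ?_⟩
      rw [hk, hl, neg_dotProduct, neg_smul]
      abel
  have hstr : ∀ i, ∀ b ∈ C.E, 2 ≤ b ⬝ᵥ R.coroot i → b - R.root i ∈ C.E := by
    intro i b hb h2
    obtain ⟨k, hk | hk⟩ := (hCE _).1 hb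
    · obtain ⟨l, hl⟩ := hA.string i k (by rw [← hk]; exact h2)
      rw [hk, ← hl]
      exact hmem l
    · -- `b = - a k`, `a k ⬝ c ≤ -2`: reflect, step, reflect
      have h3 : 2 ≤ -(a k ⬝ᵥ R.coroot i) := by rw [← neg_dotProduct, ← hk]; exact h2
      obtain ⟨l, hl⟩ := href0 i k
      have h4 : a l ⬝ᵥ R.coroot i = -(a k ⬝ᵥ R.coroot i) := by
        rw [hl, sub_dotProduct, smul_dotProduct, R.two, smul_eq_mul]
        ring
      obtain ⟨l', hl'⟩ := hA.string i l (by rw [h4]; exact h3)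
      have h5 : a l' ⬝ᵥ R.coroot i = -(a k ⬝ᵥ R.coroot i) - 2 := by
        rw [hl', sub_dotProduct, h4, R.two]
      obtain ⟨l'', hl''⟩ := href0 i l'
      refine (hCE _).2 ⟨l'', Or.inr ?_⟩
      rw [hl'', h5, hl', hl, hk]
      module
  have hbd : ∀ i, ∀ b ∈ C.E, |b ⬝ᵥ R.coroot i| ≤ 1 := fun i =>
    bound C (R.root i) (R.coroot i) (R.two i) (href i) (hstr i) hz
  let D : TD r ι :=
    { C with
      R := R
      cen := fun i => by
        change pr C.ξ (R.coroot i) = 0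
        rw [hCξ]
        exact hξ i
      ref := href
      bd := hbd
      T := fun i => (max_ex C (R.coroot i) (hbd i)).choose
      conf := fun i => (max_ex C (R.coroot i) (hbd i)).choose_spec.1
      max := fun i => (max_ex C (R.coroot i) (hbd i)).choose_spec.2.1
      uniq := fun i => (max_ex C (R.coroot i) (hbd i)).choose_spec.2.2 }
  obtain ⟨D', hE, h1, h2⟩ := vd_of D
  obtain ⟨P⟩ := pot_ex D'
  exact qform_of R a D' (fun k => by rw [hE]; exact hmem k) h0 h1 h2 P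

end LibQC51
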